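import Mathlib

set_option autoImplicit false

/-!
Majority of `2 k` independent copies.
-/

namespace Pool.Agent.Helper14.RR

open Finset

theorem majority_bound {Ω : Type} [Fintype Ω] [DecidableEq Ω] (W : Finset Ω)
    (hW : 3 * W.card ≤ Fintype.card Ω) (k : ℕ) :
    (((univ : Finset (Fin (2 * k) → Ω)).filter fun f =>
      k ≤ (univ.filter fun a => f a ∈ W).card).card : ℝ) ≤
      (8 / 9 : ℝ) ^ k * (Fintype.card Ω : ℝ) ^ (2 * k) := by
  classical
  have h1 : ∀ f : Fin (2 * k) → Ω, (if k ≤ (univ.filter fun a => f a ∈ W).card then (1 : ℝ)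
      else 0) * 2 ^ k ≤ ∏ a, (if f a ∈ W then (2 : ℝ) else 1) := by
    intro f
    rw [Finset.prod_ite, Finset.prod_const, Finset.prod_const_one, mul_one]
    split_ifs with h
    · rw [one_mul]
      exact pow_le_pow_right₀ (by norm_num) h
    · rw [zero_mul]
      positivity
  have h2 : (((univ : Finset (Fin (2 * k) → Ω)).filter fun f =>
      k ≤ (univ.filter fun a => f a ∈ W).card).card : ℝ) * 2 ^ k ≤
      ((Fintype.card Ω : ℝ) + W.card) ^ (2 * k) := by
    calc (((univ : Finset (Fin (2 * k) → Ω)).filter fun f =>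
        k ≤ (univ.filter fun a => f a ∈ W).card).card : ℝ) * 2 ^ k
        = ∑ f : Fin (2 * k) → Ω, (if k ≤ (univ.filter fun a => f a ∈ W).card then (1 : ℝ)
      else 0) * 2 ^ k := by
          rw [← Finset.sum_mul, Finset.sum_boole]
      _ ≤ ∑ f : Fin (2 * k) → Ω, ∏ a, (if f a ∈ W then (2 : ℝ) else 1) :=
          Finset.sum_le_sum fun f _ => h1 f
      _ = ∏ _a : Fin (2 * k), ∑ ω : Ω, (if ω ∈ W then (2 : ℝ) else 1) := by
          rw [Finset.prod_univ_sum]
          simp
      _ = (∑ ω : Ω, (if ω ∈ W then (2 : ℝ) else 1)) ^ (2 * k) := by simp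
      _ = ((Fintype.card Ω : ℝ) + W.card) ^ (2 * k) := by
          congr 1
          have : ∀ ω : Ω, (if ω ∈ W then (2 : ℝ) else 1) = 1 + (if ω ∈ W then (1 : ℝ) else 0) := by
            intro ω
            split_ifs <;> norm_num
          simp_rw [this, Finset.sum_add_distrib]
          have hf : (univ.filter fun ω : Ω => ω ∈ W) = W := by
            ext ω
            simp
          rw [Finset.sum_const, Finset.card_univ, nsmul_eq_mul, mul_one, Finset.sum_boole, hf]
  have h3 : (Fintype.card Ω : ℝ) + W.card ≤ 4 / 3 * Fintype.card Ω := by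
    have : (3 : ℝ) * W.card ≤ Fintype.card Ω := by exact_mod_cast hW
    linarith
  have h4 : ((Fintype.card Ω : ℝ) + W.card) ^ (2 * k) ≤
      (4 / 3 * (Fintype.card Ω : ℝ)) ^ (2 * k) := by
    exact pow_le_pow_left₀ (by positivity) h3 _
  have h5 : (4 / 3 * (Fintype.card Ω : ℝ)) ^ (2 * k) =
      ((8 / 9 : ℝ) ^ k * (Fintype.card Ω : ℝ) ^ (2 * k)) * 2 ^ k := by
    rw [mul_pow, pow_mul (4 / 3 : ℝ) 2 k]
    have : ((4 / 3 : ℝ) ^ 2) ^ k = (8 / 9 : ℝ) ^ k * 2 ^ k := by
      rw [← mul_pow]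
      norm_num
    rw [this]
    ring
  have h6 : (((univ : Finset (Fin (2 * k) → Ω)).filter fun f =>
      k ≤ (univ.filter fun a => f a ∈ W).card).card : ℝ) * 2 ^ k ≤
      ((8 / 9 : ℝ) ^ k * (Fintype.card Ω : ℝ) ^ (2 * k)) * 2 ^ k := by
    rw [← h5]
    exact h2.trans h4
  exact le_of_mul_le_mul_right h6 (by positivity)

end Pool.Agent.Helper14.RR
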