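import Pool.Agent.Helper14.RR.Embed
import Pool.Agent.Helper14.RR.Majority

set_option autoImplicit false

/-!
Parallel copies, averaging over the random strings, and the main inequality for algorithms.
-/

namespace Pool.Agent.Helper14.RR

/-- Several strategies in parallel. -/
def multi {ι κ : Type} {K : ℕ} (T : Fin K → Tree ι κ) : Tree ι (Fin K × κ) :=
  fun h p => T p.1 (h.map fun s l => s (p.1, l)) p.2

theorem run_multi {ι κ : Type} [Fintype ι] {K : ℕ} (T : Fin K → Tree ι κ) (y : ι → ℝ) (a : Fin K)
    (t : ℕ) : (run (multi T) y t).map (fun s l => s (a, l)) = run (T a) y t := by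
  induction t with
  | zero => rfl
  | succ t ih =>
    simp only [run, List.map_append, List.map_cons, List.map_nil]
    rw [ih]
    congr 2
    funext l
    simp only [ans, multi]
    rw [ih]

open Classical in
/-- Majority of the outputs. -/
noncomputable def outM {κ : Type} {k : ℕ} (o : Fin (2 * k) → List (κ → SignType) → Bool) :
    List (Fin (2 * k) × κ → SignType) → Bool :=
  fun h => decide (k < (Finset.univ.filter fun a : Fin (2 * k) =>
    o a (h.map fun s l => s (a, l)) = true).card)

open Classical in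
theorem wrong_outM {κ ι : Type} [Fintype ι] {k : ℕ} (o : Fin (2 * k) → List (κ → SignType) → Bool)
    (T : Fin (2 * k) → Tree ι κ) (y : ι → ℝ) (t : ℕ) (Y : Prop)
    (h : ¬ (outM o (run (multi T) y t) = true ↔ Y)) :
    k ≤ ((Finset.univ : Finset (Fin (2 * k))).filter fun a =>
      ¬ (o a (run (T a) y t) = true ↔ Y)).card := by
  classical
  have hout : outM o (run (multi T) y t) = true ↔ k < (Finset.univ.filter fun a : Fin (2 * k) =>
      o a (run (T a) y t) = true).card := by
    unfold outM
    rw [decide_eq_true_iff]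
    simp only [run_multi]
  rw [hout] at h
  have hsum := Finset.card_filter_add_card_filter_not (s := (Finset.univ : Finset (Fin (2 * k))))
    (fun a => o a (run (T a) y t) = true)
  rw [Finset.card_univ, Fintype.card_fin] at hsum
  by_cases hY : Y
  · have h1 : ((Finset.univ : Finset (Fin (2 * k))).filter fun a =>
        ¬ (o a (run (T a) y t) = true ↔ Y)) =
        (Finset.univ : Finset (Fin (2 * k))).filter fun a => ¬ o a (run (T a) y t) = true := by
      apply Finset.filter_congr
      intro a _
      simp only [hY, iff_true]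
    rw [h1]
    simp only [hY, iff_true] at h
    omega
  · have h1 : ((Finset.univ : Finset (Fin (2 * k))).filter fun a =>
        ¬ (o a (run (T a) y t) = true ↔ Y)) =
        (Finset.univ : Finset (Fin (2 * k))).filter fun a => o a (run (T a) y t) = true := by
      apply Finset.filter_congr
      intro a _
      simp only [hY, iff_false, not_not]
    rw [h1]
    simp only [hY, iff_false, not_not] at h
    omega

/-- Averaging. -/
theorem exists_both {Ω : Type} [Fintype Ω] [Nonempty Ω] (f g : Ω → ℝ) (A B : ℝ) (hA : 0 < A)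
    (hB : 0 < B) (f0 : ∀ ω, 0 ≤ f ω) (g0 : ∀ ω, 0 ≤ g ω)
    (hf : ∑ ω, f ω ≤ A * Fintype.card Ω) (hg : ∑ ω, g ω ≤ B * Fintype.card Ω) :
    ∃ ω, f ω ≤ 2 * A ∧ g ω ≤ 2 * B := by
  by_contra hcon
  push Not at hcon
  have h1 : ∀ ω, 2 < f ω / A + g ω / B := by
    intro ω
    by_cases h : f ω ≤ 2 * A
    · have h2 := hcon ω h
      have h3 : 2 < g ω / B := by rwa [lt_div_iff₀ hB]
      have := div_nonneg (f0 ω) hA.le
      linarith
    · push Not at h
      have h3 : 2 < f ω / A := by rwa [lt_div_iff₀ hA]
      have := div_nonneg (g0 ω) hB.le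
      linarith
  have h2 : ∑ _ω : Ω, (2 : ℝ) < ∑ ω, (f ω / A + g ω / B) :=
    Finset.sum_lt_sum_of_nonempty Finset.univ_nonempty fun ω _ => h1 ω
  rw [Finset.sum_add_distrib, ← Finset.sum_div, ← Finset.sum_div, Finset.sum_const,
    Finset.card_univ, nsmul_eq_mul] at h2
  have h3 : (∑ ω, f ω) / A ≤ Fintype.card Ω := by
    rw [div_le_iff₀ hA]
    linarith
  have h4 : (∑ ω, g ω) / B ≤ Fintype.card Ω := by
    rw [div_le_iff₀ hB]
    linarith
  linarith

/-- Insert a natural number. -/
def insN {n : ℕ} (i : Fin (n + 1)) (v : ℕ) (x : Fin n → ℕ) : Fin (n + 1) → ℕ :=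
  Fin.insertNth (α := fun _ => ℕ) i v x

theorem re_insN {n : ℕ} (i : Fin (n + 1)) (v : ℕ) (x : Fin n → ℕ) :
    re (insN i v x) = ins i (v : ℝ) (re x) := by
  funext j
  refine Fin.succAboveCases i ?_ (fun k => ?_) j
  · simp [re, insN]
  · simp [re, insN]

theorem insN_same {n : ℕ} (i : Fin (n + 1)) (v : ℕ) (x : Fin n → ℕ) : insN i v x i = v :=
  Fin.insertNth_apply_same (α := fun _ => ℕ) i v x

theorem insN_lt {n : ℕ} (i : Fin (n + 1)) (v : ℕ) (x : Fin n → ℕ) (L : ℕ) (hv : v < L)
    (hx : x ∈ pts n L) : insN i v x ∈ pts (n + 1) L := by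
  rw [pts, Fintype.mem_piFinset] at hx ⊢
  intro j
  rw [Finset.mem_range]
  refine Fin.succAboveCases i ?_ (fun k => ?_) j
  · rw [insN_same]
    exact hv
  · have : insN i v x (i.succAbove k) = x k :=
      Fin.insertNth_apply_succAbove (α := fun _ => ℕ) i v x k
    rw [this]
    exact Finset.mem_range.1 (hx k)

/-- Some coordinate is a multiple of `Δ`. -/
def Spec {N : ℕ} (m Δ : ℕ) (x : Fin N → ℕ) : Prop := ∃ c, ∃ k < m, x c = k * Δ

open Classical in
/-- The points with a special coordinate are few. -/
theorem card_special {n m Δ L : ℕ} :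
    ((pts (n + 1) L).filter fun x => Spec m Δ x).card ≤ (n + 1) * (m * L ^ n) := by
  have hsub : ((pts (n + 1) L).filter fun x => Spec m Δ x) ⊆
      (Finset.univ : Finset (Fin (n + 1))).biUnion fun c => (Finset.range m).biUnion fun k =>
        (pts n L).image fun z => insN c (k * Δ) z := by
    intro x hx
    rw [Finset.mem_filter] at hx
    obtain ⟨hxL, c, k, hk, hxc⟩ := hx
    rw [Finset.mem_biUnion]
    refine ⟨c, Finset.mem_univ _, ?_⟩
    rw [Finset.mem_biUnion]
    refine ⟨k, Finset.mem_range.2 hk, ?_⟩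
    rw [Finset.mem_image]
    refine ⟨fun j => x (c.succAbove j), ?_, ?_⟩
    · rw [pts, Fintype.mem_piFinset] at hxL ⊢
      exact fun j => hxL _
    · rw [← hxc]
      unfold insN
      exact Fin.insertNth_self_removeNth c x
  refine (Finset.card_le_card hsub).trans (Finset.card_biUnion_le.trans ?_)
  calc ∑ c : Fin (n + 1), ((Finset.range m).biUnion fun k =>
        (pts n L).image fun z => insN c (k * Δ) z).card
      ≤ ∑ _c : Fin (n + 1), m * L ^ n := by
        refine Finset.sum_le_sum fun c _ => Finset.card_biUnion_le.trans ?_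
        calc ∑ k ∈ Finset.range m, ((pts n L).image fun z => insN c (k * Δ) z).card
            ≤ ∑ _k ∈ Finset.range m, L ^ n := by
              refine Finset.sum_le_sum fun k _ => Finset.card_image_le.trans ?_
              rw [card_pts]
          _ = m * L ^ n := by rw [Finset.sum_const, Finset.card_range, smul_eq_mul]
    _ = (n + 1) * (m * L ^ n) := by
        rw [Finset.sum_const, Finset.card_univ, Fintype.card_fin, smul_eq_mul]

/-- The random strings of the copies. -/
abbrev Om (k R : ℕ) : Type := Fin (2 * k) → (Fin R → Bool)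

theorem card_Om (k R : ℕ) :
    (Fintype.card (Om k R) : ℝ) = (Fintype.card (Fin R → Bool) : ℝ) ^ (2 * k) := by
  simp [Om]

theorem card_kd (k D : ℕ) : Fintype.card (Fin (2 * k) × Fin D) = 2 * k * D := by
  rw [Fintype.card_prod, Fintype.card_fin, Fintype.card_fin]

open Classical in
/-- Main inequality for randomized algorithms. -/
theorem alg_bound {n m n' D R : ℕ} (A : Alg n D R) (hm : 0 < m) (h3m : 3 * m ≤ n)
    (e : Fin m × Fin m ≃ Fin (n' + 1)) (g t k r : ℕ) (hg : 1 ≤ g) (ht : 1 ≤ t) (hr : 1 ≤ r)
    (hL : (m * g) ^ t ≤ n ^ 300) (hdec : A.Decides t)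
    (hk1 : 32 * (8 / 9 : ℝ) ^ k ≤ 1) (hk2 : 32 * (8 / 9 : ℝ) ^ k * (n' + 1) ≤ r)
    (hN : 16 * ((n' + 1) * m) ≤ m * g)
    (h2 : 8 * (t * (2 * k * D) * (n' + 2)) ≤ m * g)
    (h3 : 16 * ((n' + 1) * (t * (2 * k * D) * (n' + 1))) ≤ r * (m * g)) :
    m ^ (n' + 1) ≤ 4 * 2 ^ (n' + 1) * m ^ r * patBound (n' + 1) (2 * k * D) ^ t := by
  set G := m * g with hG
  set L := G ^ t with hLdef
  set Δ := g * G ^ (t - 1) with hΔ
  have hG0 : 0 < G := Nat.mul_pos hm hg
  have hL0 : 0 < L := pow_pos hG0 t
  have hLΔ : L = m * Δ := by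
    rw [hLdef, hΔ]
    calc G ^ t = G * G ^ (t - 1) := by
          rw [← pow_succ']
          congr 1
          omega
      _ = m * (g * G ^ (t - 1)) := by rw [hG]; ring
  set δ : ℝ := (8 / 9 : ℝ) ^ k with hδ
  have hδ0 : 0 < δ := by positivity
  let T : Om k R → Fin (2 * k) → Tree (Fin (n' + 1)) (Fin D) := fun w a => treeOf A hm e Δ (w a)
  let o : Om k R → Fin (2 * k) → List (Fin D → SignType) → Bool :=
    fun w a h => A.out (flagsT n m) (w a) h
  -- validity and meaning of Spec
  have hval : ∀ x ∈ pts (n' + 1) L, (instT n hm e Δ (fun c => (x c : ℤ))).Valid := by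
    intro x hx
    refine instT_valid hm e Δ _ ?_ ?_
    · intro c
      rw [pts, Fintype.mem_piFinset] at hx
      have h1 := (Finset.mem_range.1 (hx c)).le.trans hL
      rw [abs_of_nonneg (by positivity)]
      exact_mod_cast h1
    · rw [← hLΔ]
      exact hL
  have hyes : ∀ x : Fin (n' + 1) → ℕ, (instT n hm e Δ (fun c => (x c : ℤ))).Yes ↔ Spec m Δ x := by
    intro x
    constructor
    · intro h
      obtain ⟨c, k, hk, hc⟩ := special_of_yes hm e Δ _ h
      exact ⟨c, k, hk, by exact_mod_cast hc⟩
    · rintro ⟨c, k, hk, hc⟩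
      exact yes_of_special hm h3m e Δ _ c k hk (by exact_mod_cast hc)
  -- error of the majority at a point
  have herr : ∀ x ∈ pts (n' + 1) L,
      (((Finset.univ : Finset (Om k R)).filter fun w =>
        ¬ (outM (o w) (run (multi (T w)) (re x) t) = true ↔ Spec m Δ x)).card : ℝ) ≤
        δ * (Fintype.card (Om k R) : ℝ) := by
    intro x hx
    set W : Finset (Fin R → Bool) := Finset.univ.filter fun ρ =>
      ¬ (A.output t (instT n hm e Δ (fun c => (x c : ℤ))) ρ = true ↔
        (instT n hm e Δ (fun c => (x c : ℤ))).Yes) with hW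
    have hWc : 3 * W.card ≤ Fintype.card (Fin R → Bool) := by
      have h1 := hdec _ (hval x hx)
      have h2 := Finset.card_filter_add_card_filter_not
        (s := (Finset.univ : Finset (Fin R → Bool)))
        (fun ρ => A.output t (instT n hm e Δ (fun c => (x c : ℤ))) ρ = true ↔
          (instT n hm e Δ (fun c => (x c : ℤ))).Yes)
      have h3 : Fintype.card (Fin R → Bool) = 2 ^ R := by simp
      rw [Finset.card_univ, h3] at h2
      rw [h3]
      have h4 : (Finset.univ.filter fun ρ : Fin R → Bool =>
          (A.output t (instT n hm e Δ (fun c => (x c : ℤ))) ρ = true ↔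
          (instT n hm e Δ (fun c => (x c : ℤ))).Yes)).card + W.card = 2 ^ R := by
        rw [← h2, hW]
      omega
    have hmaj := majority_bound W hWc k
    rw [card_Om]
    refine le_trans ?_ hmaj
    refine Nat.cast_le.2 (Finset.card_le_card ?_)
    intro w hw
    rw [Finset.mem_filter] at hw ⊢
    refine ⟨Finset.mem_univ _, ?_⟩
    have h1 := wrong_outM (o w) (T w) (re x) t (Spec m Δ x) hw.2
    refine h1.trans (Finset.card_le_card ?_)
    intro a ha
    have ha2 := (Finset.mem_filter.1 ha).2
    refine Finset.mem_filter.2 ⟨Finset.mem_univ _, ?_⟩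
    rw [hW, Finset.mem_filter]
    refine ⟨Finset.mem_univ _, ?_⟩
    have h2 : run (T w a) (re x) t = A.signs (instT n hm e Δ (fun c => (x c : ℤ))) (w a) t := by
      have := run_treeOf A hm e Δ (w a) (fun c => (x c : ℤ)) t
      rw [← this]
      congr 1
    rw [hyes x]
    have h3' : ¬ (A.out (flagsT n m) (w a) (run (T w a) (re x) t) = true ↔ Spec m Δ x) := ha2
    rw [h2] at h3'
    exact h3'
  -- the two average errors
  let E0 : Om k R → ℝ := fun w => (((pts (n' + 1) L).filter fun x =>
    ¬ Spec m Δ x ∧ outM (o w) (run (multi (T w)) (re x) t) = true).card : ℝ)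
  let E1 : Om k R → ℝ := fun w => ∑ i : Fin (n' + 1), ∑ q ∈ Finset.range m,
    (((pts n' L).filter fun x =>
      outM (o w) (run (multi (T w)) (ins i ((q : ℝ) * (Δ : ℝ)) (re x)) t) = false).card : ℝ)
  have hΩc : (0 : ℝ) < Fintype.card (Om k R) := by exact_mod_cast Fintype.card_pos
  have hE0 : ∑ w, E0 w ≤ (δ * (L : ℝ) ^ (n' + 1)) * Fintype.card (Om k R) := by
    calc ∑ w, E0 w = ∑ w : Om k R, ∑ x ∈ pts (n' + 1) L,
          (if ¬ Spec m Δ x ∧ outM (o w) (run (multi (T w)) (re x) t) = true then (1 : ℝ) else 0) := by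
          refine Finset.sum_congr rfl fun w _ => ?_
          rw [Finset.sum_boole]
      _ = ∑ x ∈ pts (n' + 1) L, ∑ w : Om k R,
          (if ¬ Spec m Δ x ∧ outM (o w) (run (multi (T w)) (re x) t) = true then (1 : ℝ) else 0) :=
          Finset.sum_comm
      _ ≤ ∑ x ∈ pts (n' + 1) L, δ * (Fintype.card (Om k R) : ℝ) := by
          refine Finset.sum_le_sum fun x hx => ?_
          rw [Finset.sum_boole]
          refine le_trans ?_ (herr x hx)
          refine Nat.cast_le.2 (Finset.card_le_card ?_)
          intro w hw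
          rw [Finset.mem_filter] at hw ⊢
          exact ⟨hw.1, fun h => hw.2.1 (h.1 hw.2.2)⟩
      _ = (δ * (L : ℝ) ^ (n' + 1)) * Fintype.card (Om k R) := by
          rw [Finset.sum_const, card_pts, nsmul_eq_mul]
          push_cast
          ring
  have hE1 : ∑ w, E1 w ≤ (δ * ((n' + 1) * (m * (L : ℝ) ^ n'))) * Fintype.card (Om k R) := by
    calc ∑ w, E1 w = ∑ i : Fin (n' + 1), ∑ q ∈ Finset.range m, ∑ w : Om k R,
          (((pts n' L).filter fun x => outM (o w)
            (run (multi (T w)) (ins i ((q : ℝ) * (Δ : ℝ)) (re x)) t) = false).card : ℝ) := by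
          rw [Finset.sum_comm]
          refine Finset.sum_congr rfl fun i _ => ?_
          rw [Finset.sum_comm]
      _ ≤ ∑ _i : Fin (n' + 1), ∑ _q ∈ Finset.range m,
          ((L : ℝ) ^ n' * (δ * (Fintype.card (Om k R) : ℝ))) := by
          refine Finset.sum_le_sum fun i _ => Finset.sum_le_sum fun q hq => ?_
          calc ∑ w : Om k R, (((pts n' L).filter fun x => outM (o w)
                (run (multi (T w)) (ins i ((q : ℝ) * (Δ : ℝ)) (re x)) t) = false).card : ℝ)
              = ∑ w : Om k R, ∑ x ∈ pts n' L, (if outM (o w)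
                (run (multi (T w)) (ins i ((q : ℝ) * (Δ : ℝ)) (re x)) t) = false
                then (1 : ℝ) else 0) := by
                refine Finset.sum_congr rfl fun w _ => ?_
                rw [Finset.sum_boole]
            _ = ∑ x ∈ pts n' L, ∑ w : Om k R, (if outM (o w)
                (run (multi (T w)) (ins i ((q : ℝ) * (Δ : ℝ)) (re x)) t) = false
                then (1 : ℝ) else 0) := Finset.sum_comm
            _ ≤ ∑ x ∈ pts n' L, δ * (Fintype.card (Om k R) : ℝ) := by
                refine Finset.sum_le_sum fun x hx => ?_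
                rw [Finset.sum_boole]
                have hlt : q * Δ < L := by
                  rw [hLΔ]
                  refine Nat.mul_lt_mul_of_pos_right (Finset.mem_range.1 hq) ?_
                  exact Nat.mul_pos hg (pow_pos hG0 _)
                have hmem := insN_lt i (q * Δ) x L hlt hx
                refine le_trans ?_ (herr _ hmem)
                refine Nat.cast_le.2 (Finset.card_le_card ?_)
                intro w hw
                rw [Finset.mem_filter] at hw ⊢
                refine ⟨hw.1, fun h => ?_⟩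
                have hY : Spec m Δ (insN i (q * Δ) x) := ⟨i, q, Finset.mem_range.1 hq, insN_same _ _ _⟩
                have h5 := h.2 hY
                rw [re_insN] at h5
                push_cast at h5
                rw [hw.2] at h5
                exact Bool.false_ne_true h5
            _ = (L : ℝ) ^ n' * (δ * (Fintype.card (Om k R) : ℝ)) := by
                rw [Finset.sum_const, card_pts, nsmul_eq_mul]
                push_cast
                ring
      _ = (δ * ((n' + 1) * (m * (L : ℝ) ^ n'))) * Fintype.card (Om k R) := by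
          rw [Finset.sum_const, Finset.sum_const, Finset.card_univ, Fintype.card_fin,
            Finset.card_range, nsmul_eq_mul, nsmul_eq_mul]
          push_cast
          ring
  have hLr : (0 : ℝ) < L := by exact_mod_cast hL0
  have hmr : (0 : ℝ) < m := by exact_mod_cast hm
  have pos0 : 0 < δ * (L : ℝ) ^ (n' + 1) := mul_pos hδ0 (pow_pos hLr _)
  have pos1 : 0 < δ * (((n' : ℝ) + 1) * (m * (L : ℝ) ^ n')) :=
    mul_pos hδ0 (mul_pos (by positivity) (mul_pos hmr (pow_pos hLr _)))
  obtain ⟨w, hw0, hw1⟩ := exists_both E0 E1 _ _ pos0 pos1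
    (fun w => Nat.cast_nonneg _)
    (fun w => Finset.sum_nonneg fun _ _ => Finset.sum_nonneg fun _ _ => Nat.cast_nonneg _) hE0 hE1
  -- apply the deterministic inequality
  have hcard := card_kd k D
  have hres := core (multi (T w)) (outM (o w)) m g t r hm hg ht hr ?_ ?_ ?_ ?_
  · rw [hcard] at hres
    exact hres
  · -- null
    have h4 : (pts (n' + 1) L).filter (fun x => outM (o w) (run (multi (T w)) (re x) t) = true) ⊆
        ((pts (n' + 1) L).filter fun x =>
          ¬ Spec m Δ x ∧ outM (o w) (run (multi (T w)) (re x) t) = true) ∪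
        (pts (n' + 1) L).filter fun x => Spec m Δ x := by
      intro x hx
      rw [Finset.mem_filter] at hx
      rw [Finset.mem_union, Finset.mem_filter, Finset.mem_filter]
      by_cases hY : Spec m Δ x
      · exact Or.inr ⟨hx.1, hY⟩
      · exact Or.inl ⟨hx.1, hY, hx.2⟩
    have h5 := (Finset.card_le_card h4).trans (Finset.card_union_le _ _)
    have h6 : ((n' + 1) * (m * L ^ n')) * 16 ≤ L ^ (n' + 1) := by
      calc ((n' + 1) * (m * L ^ n')) * 16 = (16 * ((n' + 1) * m)) * L ^ n' := by ring
        _ ≤ G * L ^ n' := Nat.mul_le_mul_right _ hN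
        _ ≤ L * L ^ n' := by
            refine Nat.mul_le_mul_right _ ?_
            calc G = G ^ 1 := (pow_one G).symm
              _ ≤ G ^ t := Nat.pow_le_pow_right hG0 ht
        _ = L ^ (n' + 1) := by ring
    have h7 : 16 * E0 w ≤ (L : ℝ) ^ (n' + 1) := by
      have h8 : 0 < (L : ℝ) ^ (n' + 1) := by positivity
      calc 16 * E0 w ≤ 16 * (2 * (δ * (L : ℝ) ^ (n' + 1))) := by linarith
        _ = (32 * δ) * (L : ℝ) ^ (n' + 1) := by ring
        _ ≤ 1 * (L : ℝ) ^ (n' + 1) := by
            exact mul_le_mul_of_nonneg_right hk1 h8.le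
        _ = (L : ℝ) ^ (n' + 1) := one_mul _
    have h9 : 16 * ((pts (n' + 1) L).filter fun x =>
          ¬ Spec m Δ x ∧ outM (o w) (run (multi (T w)) (re x) t) = true).card ≤ L ^ (n' + 1) := by
      have : ((16 * ((pts (n' + 1) L).filter fun x =>
          ¬ Spec m Δ x ∧ outM (o w) (run (multi (T w)) (re x) t) = true).card : ℕ) : ℝ) ≤
          ((L ^ (n' + 1) : ℕ) : ℝ) := by
        push_cast
        exact h7
      exact_mod_cast this
    have h10 := card_special (n := n') (m := m) (Δ := Δ) (L := L)
    have h11 : 8 * ((pts (n' + 1) L).filter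
        (fun x => outM (o w) (run (multi (T w)) (re x) t) = true)).card ≤ L ^ (n' + 1) := by
      omega
    convert h11
  · -- planted
    have h4 : 16 * E1 w ≤ (r : ℝ) * (m * (L : ℝ) ^ n') := by
      have h8 : 0 < (m : ℝ) * (L : ℝ) ^ n' := by positivity
      calc 16 * E1 w ≤ 16 * (2 * (δ * ((n' + 1) * (m * (L : ℝ) ^ n')))) := by linarith
        _ = (32 * δ * (n' + 1)) * (m * (L : ℝ) ^ n') := by ring
        _ ≤ (r : ℝ) * (m * (L : ℝ) ^ n') := mul_le_mul_of_nonneg_right hk2 h8.le
    have h5 : ((16 * (∑ i : Fin (n' + 1), ∑ q ∈ Finset.range m,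
        ((pts n' L).filter fun x => outM (o w) (run (multi (T w))
          (ins i ((q : ℝ) * ((Δ : ℕ) : ℝ)) (re x)) t) = false).card) : ℕ) : ℝ) ≤
        ((r * (m * L ^ n') : ℕ) : ℝ) := by
      push_cast
      exact h4
    have h6 : 16 * (∑ i : Fin (n' + 1), ∑ q ∈ Finset.range m,
        ((pts n' L).filter fun x => outM (o w) (run (multi (T w))
          (ins i ((q : ℝ) * ((Δ : ℕ) : ℝ)) (re x)) t) = false).card) ≤
        r * (m * L ^ n') := by exact_mod_cast h5
    convert h6
  · rw [hcard]
    exact h2
  · rw [hcard]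
    exact h3

end Pool.Agent.Helper14.RR
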