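import Pool.Agent.Helper14.RR.Prekopa

set_option autoImplicit false

/-!
Sections of convex bodies: multiplicative Brunn-Minkowski inequality in all dimensions.
-/

namespace Pool.Agent.Helper14.RR

open MeasureTheory Set
open scoped ENNReal

/-- Insert the value `x` in coordinate `i`. -/
def ins {n : ℕ} (i : Fin (n + 1)) (x : ℝ) (z : Fin n → ℝ) : Fin (n + 1) → ℝ :=
  Fin.insertNth (α := fun _ => ℝ) i x z

@[simp] theorem ins_same {n : ℕ} (i : Fin (n + 1)) (x : ℝ) (z : Fin n → ℝ) : ins i x z i = x :=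
  Fin.insertNth_apply_same (α := fun _ => ℝ) i x z

@[simp] theorem ins_succAbove {n : ℕ} (i : Fin (n + 1)) (x : ℝ) (z : Fin n → ℝ) (j : Fin n) :
    ins i x z (i.succAbove j) = z j :=
  Fin.insertNth_apply_succAbove (α := fun _ => ℝ) i x z j

theorem ins_comb {n : ℕ} (i : Fin (n + 1)) (a b x y : ℝ) (z w : Fin n → ℝ) :
    a • ins i x z + b • ins i y w = ins i (a * x + b * y) (a • z + b • w) := by
  funext j
  refine Fin.succAboveCases i ?_ (fun k => ?_) j
  · simp
  · simp

/-- The section of `A` at height `x` in the coordinate `i`. -/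
def sec {n : ℕ} (i : Fin (n + 1)) (x : ℝ) (A : Set (Fin (n + 1) → ℝ)) : Set (Fin n → ℝ) :=
  {z | ins i x z ∈ A}

theorem sec_eq {n : ℕ} (i : Fin (n + 1)) (x : ℝ) (A : Set (Fin (n + 1) → ℝ)) :
    sec i x A = Prod.mk x ⁻¹' ((MeasurableEquiv.piFinSuccAbove (fun _ => ℝ) i).symm ⁻¹' A) := rfl

theorem measurableSet_sec {n : ℕ} (i : Fin (n + 1)) (x : ℝ) {A : Set (Fin (n + 1) → ℝ)}
    (hA : MeasurableSet A) : MeasurableSet (sec i x A) := by
  rw [sec_eq]
  exact measurable_prodMk_left ((MeasurableEquiv.measurable _) hA)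

theorem measurable_sec {n : ℕ} (i : Fin (n + 1)) {A : Set (Fin (n + 1) → ℝ)}
    (hA : MeasurableSet A) : Measurable fun x => volume (sec i x A) := by
  simp_rw [sec_eq]
  exact measurable_measure_prodMk_left ((MeasurableEquiv.measurable _) hA)

theorem vol_eq {n : ℕ} (i : Fin (n + 1)) {A : Set (Fin (n + 1) → ℝ)} (hA : MeasurableSet A) :
    volume A = ∫⁻ x, volume (sec i x A) := by
  have mp := (volume_preserving_piFinSuccAbove (fun _ : Fin (n + 1) => ℝ) i).symm
  rw [← mp.measure_preimage hA.nullMeasurableSet]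
  rw [Measure.volume_eq_prod, Measure.prod_apply ((MeasurableEquiv.measurable _) hA)]
  rfl

theorem sec_comb {n : ℕ} (i : Fin (n + 1)) {a b : ℝ} {x y : ℝ} {A B C : Set (Fin (n + 1) → ℝ)}
    (h : ∀ u ∈ A, ∀ v ∈ B, a • u + b • v ∈ C) :
    ∀ z ∈ sec i x A, ∀ w ∈ sec i y B, a • z + b • w ∈ sec i (a * x + b * y) C := by
  intro z hz w hw
  have := h _ hz _ hw
  rw [ins_comb] at this
  exact this

theorem convex_sec {n : ℕ} (i : Fin (n + 1)) (x : ℝ) {A : Set (Fin (n + 1) → ℝ)}
    (hA : Convex ℝ A) : Convex ℝ (sec i x A) := by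
  intro z hz w hw a b ha hb hab
  have h1 := sec_comb (x := x) (y := x) i (a := a) (b := b) (A := A) (B := A) (C := A)
    (fun u hu v hv => hA hu hv ha hb hab) z hz w hw
  have h2 : a * x + b * x = x := by rw [← add_mul, hab, one_mul]
  rwa [h2] at h1

/-- `A` is contained in the cube `[-R, R]^n`. -/
def Bdd {n : ℕ} (R : ℝ) (A : Set (Fin n → ℝ)) : Prop := ∀ y ∈ A, ∀ i, |y i| ≤ R

theorem Bdd.sec {n : ℕ} {R : ℝ} {A : Set (Fin (n + 1) → ℝ)} (hA : Bdd R A) (i : Fin (n + 1))
    (x : ℝ) : Bdd R (RR.sec i x A) := by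
  intro z hz j
  have := hA _ hz (i.succAbove j)
  rwa [ins_succAbove] at this

theorem Bdd.volume_le {n : ℕ} {R : ℝ} {A : Set (Fin n → ℝ)} (hA : Bdd R A) :
    volume A ≤ volume (Icc (fun _ : Fin n => -R) (fun _ => R)) := by
  refine measure_mono fun y hy => ?_
  exact ⟨fun i => (abs_le.1 (hA y hy i)).1, fun i => (abs_le.1 (hA y hy i)).2⟩

theorem Bdd.volume_lt_top {n : ℕ} {R : ℝ} {A : Set (Fin n → ℝ)} (hA : Bdd R A) :
    volume A < ⊤ := by
  refine lt_of_le_of_lt hA.volume_le ?_
  exact isCompact_Icc.measure_lt_top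

theorem ordConnected_of_log (f : ℝ → ℝ) (f0 : ∀ x, 0 ≤ f x)
    (H : ∀ a b : ℝ, 0 < a → 0 < b → a + b = 1 → ∀ x y, f x ^ a * f y ^ b ≤ f (a * x + b * y)) :
    ∀ x y z : ℝ, x ≤ z → z ≤ y → min (f x) (f y) ≤ f z := by
  intro x y z hxz hzy
  rcases hxz.eq_or_lt with h | h
  · rw [h]
    exact min_le_left _ _
  rcases hzy.eq_or_lt with h' | h'
  · rw [h']
    exact min_le_right _ _
  have hd : 0 < y - x := by linarith
  set a := (y - z) / (y - x) with ha
  set b := (z - x) / (y - x) with hb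
  have ha0 : 0 < a := div_pos (by linarith) hd
  have hb0 : 0 < b := div_pos (by linarith) hd
  have hab : a + b = 1 := by
    rw [ha, hb]
    field_simp
    ring
  have hz : a * x + b * y = z := by
    rw [ha, hb]
    field_simp
    ring
  have h1 := H a b ha0 hb0 hab x y
  rw [hz] at h1
  refine le_trans ?_ h1
  set m := min (f x) (f y) with hm
  have hm0 : 0 ≤ m := le_min (f0 x) (f0 y)
  calc m = m ^ a * m ^ b := by
        rw [← Real.rpow_add_of_nonneg hm0 ha0.le hb0.le, hab, Real.rpow_one]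
    _ ≤ f x ^ a * f y ^ b := by
        refine mul_le_mul ?_ ?_ (Real.rpow_nonneg hm0 _) (Real.rpow_nonneg (f0 x) _)
        · exact Real.rpow_le_rpow hm0 (min_le_left _ _) ha0.le
        · exact Real.rpow_le_rpow hm0 (min_le_right _ _) hb0.le

theorem levels_ordConnected (f : ℝ → ℝ)
    (H : ∀ x y z : ℝ, x ≤ z → z ≤ y → min (f x) (f y) ≤ f z) (s : ℝ) :
    {x | s < f x}.OrdConnected := by
  refine ⟨fun x hx y hy z hz => ?_⟩
  simp only [mem_ofPred_eq] at hx hy ⊢
  exact lt_of_lt_of_le (lt_min hx hy) (H x y z hz.1 hz.2)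

/-- Multiplicative Brunn-Minkowski inequality for bounded measurable convex sets. -/
theorem bm (n : ℕ) : ∀ (a b : ℝ), 0 < a → 0 < b → a + b = 1 → ∀ (R : ℝ)
    (A B C : Set (Fin n → ℝ)), MeasurableSet A → MeasurableSet B → MeasurableSet C →
    Convex ℝ A → Convex ℝ B → Bdd R A → Bdd R B → Bdd R C →
    (∀ x ∈ A, ∀ y ∈ B, a • x + b • y ∈ C) →
    (volume A) ^ a * (volume B) ^ b ≤ volume C := by
  induction n with
  | zero =>
    intro a b ha hb hab R A B C _ _ _ _ _ _ _ _ h
    rcases A.eq_empty_or_nonempty with hA | ⟨x, hx⟩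
    · simp [hA, ENNReal.zero_rpow_of_pos ha]
    rcases B.eq_empty_or_nonempty with hB | ⟨y, hy⟩
    · simp [hB, ENNReal.zero_rpow_of_pos hb]
    have hC : C = univ := by
      ext z
      simp only [mem_univ, iff_true]
      rw [Subsingleton.elim z (a • x + b • y)]
      exact h x hx y hy
    have h1 : volume (univ : Set (Fin 0 → ℝ)) = 1 := by
      rw [volume_pi, Measure.pi_univ]
      simp
    have hA1 : volume A ≤ 1 := h1 ▸ measure_mono (subset_univ A)
    have hB1 : volume B ≤ 1 := h1 ▸ measure_mono (subset_univ B)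
    rw [hC, h1]
    calc (volume A) ^ a * (volume B) ^ b ≤ 1 * 1 := by
          gcongr
          · exact ENNReal.rpow_le_one hA1 ha.le
          · exact ENNReal.rpow_le_one hB1 hb.le
      _ = 1 := one_mul 1
  | succ n ih =>
    intro a b ha hb hab R A B C mA mB mC cA cB bA bB bC h
    -- the real section function
    have conv : ∀ D : Set (Fin (n + 1) → ℝ), MeasurableSet D → Bdd R D →
        volume D = ∫⁻ x, ENNReal.ofReal (volume (sec 0 x D)).toReal := by
      intro D mD bD
      rw [vol_eq 0 mD]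
      refine lintegral_congr fun x => ?_
      rw [ENNReal.ofReal_toReal (bD.sec 0 x).volume_lt_top.ne]
    have real_ih : ∀ (a b : ℝ), 0 < a → 0 < b → a + b = 1 → ∀ (A B C : Set (Fin (n + 1) → ℝ)),
        MeasurableSet A → MeasurableSet B → MeasurableSet C → Convex ℝ A → Convex ℝ B →
        Bdd R A → Bdd R B → Bdd R C → (∀ x ∈ A, ∀ y ∈ B, a • x + b • y ∈ C) →
        ∀ x y, (volume (sec 0 x A)).toReal ^ a * (volume (sec 0 y B)).toReal ^ b ≤
          (volume (sec 0 (a * x + b * y) C)).toReal := by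
      intro a b ha hb hab A B C mA mB mC cA cB bA bB bC h x y
      have := ih a b ha hb hab R (sec 0 x A) (sec 0 y B) (sec 0 (a * x + b * y) C)
        (measurableSet_sec 0 x mA) (measurableSet_sec 0 y mB) (measurableSet_sec 0 _ mC)
        (convex_sec 0 x cA) (convex_sec 0 y cB) (bA.sec 0 x) (bB.sec 0 y) (bC.sec 0 _)
        (sec_comb 0 h)
      rw [ENNReal.toReal_rpow, ENNReal.toReal_rpow, ← ENNReal.toReal_mul]
      exact ENNReal.toReal_mono (bC.sec 0 _).volume_lt_top.ne this
    have lev : ∀ D : Set (Fin (n + 1) → ℝ), MeasurableSet D → Convex ℝ D → Bdd R D →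
        ∀ s : ℝ, {x | s < (volume (sec 0 x D)).toReal}.OrdConnected := by
      intro D mD cD bD
      apply levels_ordConnected
      refine ordConnected_of_log _ (fun x => ENNReal.toReal_nonneg) ?_
      intro a b ha hb hab x y
      exact real_ih a b ha hb hab D D D mD mD mD cD cD bD bD bD
        (fun u hu v hv => cD hu hv ha.le hb.le hab) x y
    rw [conv A mA bA, conv B mB bB, conv C mC bC]
    refine pl1 a b ha hb hab _ _ _ (measurable_sec 0 mA).ennreal_toReal
      (measurable_sec 0 mB).ennreal_toReal (measurable_sec 0 mC).ennreal_toReal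
      (fun x => ENNReal.toReal_nonneg) (fun x => ENNReal.toReal_nonneg)
      (fun x => ENNReal.toReal_nonneg)
      (volume (Icc (fun _ : Fin n => -R) (fun _ => R))).toReal ?_ ?_ (lev A mA cA bA)
      (lev B mB cB bB) ?_
    · intro x
      exact ENNReal.toReal_mono isCompact_Icc.measure_lt_top.ne (bA.sec 0 x).volume_le
    · intro x
      exact ENNReal.toReal_mono isCompact_Icc.measure_lt_top.ne (bB.sec 0 x).volume_le
    · exact real_ih a b ha hb hab A B C mA mB mC cA cB bA bB bC h

/-- The volume of the sections of a bounded measurable convex set is a quasi-concave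
function. -/
theorem sec_quasi {n : ℕ} (i : Fin (n + 1)) {R : ℝ} {K : Set (Fin (n + 1) → ℝ)}
    (mK : MeasurableSet K) (cK : Convex ℝ K) (bK : Bdd R K) (x y z : ℝ) (hxz : x ≤ z)
    (hzy : z ≤ y) : min (volume (sec i x K)) (volume (sec i y K)) ≤ volume (sec i z K) := by
  have h := ordConnected_of_log (fun x => (volume (sec i x K)).toReal)
    (fun x => ENNReal.toReal_nonneg) (by
      intro a b ha hb hab x y
      have := bm n a b ha hb hab R (sec i x K) (sec i y K) (sec i (a * x + b * y) K)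
        (measurableSet_sec i x mK) (measurableSet_sec i y mK) (measurableSet_sec i _ mK)
        (convex_sec i x cK) (convex_sec i y cK) (bK.sec i x) (bK.sec i y) (bK.sec i _)
        (sec_comb i (fun u hu v hv => cK hu hv ha.le hb.le hab))
      rw [ENNReal.toReal_rpow, ENNReal.toReal_rpow, ← ENNReal.toReal_mul]
      exact ENNReal.toReal_mono (bK.sec i _).volume_lt_top.ne this) x y z hxz hzy
  have hx := (bK.sec i x).volume_lt_top.ne
  have hy := (bK.sec i y).volume_lt_top.ne
  have hz := (bK.sec i z).volume_lt_top.ne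
  rcases min_le_iff.1 h with h1 | h1
  · exact (min_le_left _ _).trans ((ENNReal.toReal_le_toReal hx hz).1 h1)
  · exact (min_le_right _ _).trans ((ENNReal.toReal_le_toReal hy hz).1 h1)

end Pool.Agent.Helper14.RR
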