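import Pool.Agent.Helper14.RR.Cubes

set_option autoImplicit false

/-!
The main inequality for deterministic strategies: few errors on random integer points and on
random planted points force many transcripts.
-/

namespace Pool.Agent.Helper14.RR

open MeasureTheory Set

/-- The integer points of the box `[0, L)^n`. -/
def pts (n L : ℕ) : Finset (Fin n → ℕ) := Fintype.piFinset fun _ => Finset.range L

theorem card_pts (n L : ℕ) : (pts n L).card = L ^ n := by
  simp [pts, Fintype.card_piFinset]

/-- A point with natural coordinates as a real point. -/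
def re {n : ℕ} (x : Fin n → ℕ) : Fin n → ℝ := fun c => (x c : ℝ)

/-- Main inequality. -/
theorem core {n : ℕ} {κ : Type} [Fintype κ] (T : Tree (Fin (n + 1)) κ)
    (out : List (κ → SignType) → Bool) (m g t r : ℕ) (hm : 1 ≤ m) (hg : 1 ≤ g) (ht : 1 ≤ t)
    (hr : 1 ≤ r)
    (h0 : 8 * ((pts (n + 1) ((m * g) ^ t)).filter fun x => out (run T (re x) t) = true).card ≤
      ((m * g) ^ t) ^ (n + 1))
    (h1 : 16 * (∑ i : Fin (n + 1), ∑ k ∈ Finset.range m,
      ((pts n ((m * g) ^ t)).filter fun x =>
        out (run T (ins i ((k : ℝ) * ((g * (m * g) ^ (t - 1) : ℕ) : ℝ)) (re x)) t) = false).card) ≤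
      r * (m * ((m * g) ^ t) ^ n))
    (h2 : 8 * (t * Fintype.card κ * (n + 2)) ≤ m * g)
    (h3 : 16 * ((n + 1) * (t * Fintype.card κ * (n + 1))) ≤ r * (m * g)) :
    m ^ (n + 1) ≤ 4 * 2 ^ (n + 1) * m ^ r * patBound (n + 1) (Fintype.card κ) ^ t := by
  classical
  set G := m * g with hG
  have hG0 : 0 < G := Nat.mul_pos hm hg
  set L := G ^ t with hL
  set Δ : ℕ := g * G ^ (t - 1) with hΔ
  have hΔ0 : 0 < Δ := Nat.mul_pos hg (pow_pos hG0 _)
  have hLΔ : L = m * Δ := by
    rw [hL, hΔ]
    calc G ^ t = G * G ^ (t - 1) := by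
          rw [← pow_succ']
          congr 1
          omega
      _ = m * (g * G ^ (t - 1)) := by rw [hG]; ring
  have hLr : (G : ℝ) ^ t = (m : ℝ) * (Δ : ℝ) := by
    have : ((L : ℕ) : ℝ) = ((m * Δ : ℕ) : ℝ) := by rw [hLΔ]
    rw [hL] at this
    push_cast at this
    exact this
  -- unstable cubes
  have hU1 : 8 * (unst T G t t).card ≤ L ^ (n + 1) := by
    have h := unst_card T G t t hG0 le_rfl
    have h' : G * (8 * (unst T G t t).card) ≤ G * L ^ (n + 1) := by
      calc G * (8 * (unst T G t t).card) = 8 * (G * (unst T G t t).card) := by ring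
        _ ≤ 8 * (t * Fintype.card κ * (n + 1 + 1) * (G ^ t) ^ (n + 1)) := by gcongr
        _ = (8 * (t * Fintype.card κ * (n + 2))) * L ^ (n + 1) := by rw [hL]; ring
        _ ≤ G * L ^ (n + 1) := Nat.mul_le_mul_right _ h2
    exact Nat.le_of_mul_le_mul_left h' hG0
  have hU2 : ∀ (i : Fin (n + 1)) (x : ℝ),
      G * (16 * (unst (restr i x T) G t t).card) ≤
        16 * (t * Fintype.card κ * (n + 1)) * L ^ n := by
    intro i x
    have h := unst_card (restr i x T) G t t hG0 le_rfl
    calc G * (16 * (unst (restr i x T) G t t).card)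
        = 16 * (G * (unst (restr i x T) G t t).card) := by ring
      _ ≤ 16 * (t * Fintype.card κ * (n + 1) * (G ^ t) ^ n) := by gcongr
      _ = _ := by rw [hL]; ring
  -- the cells
  set NT := (trans T t).filter fun τ => out τ = false with hNT
  set K : List (κ → SignType) → Set (Fin (n + 1) → ℝ) :=
    fun τ => {y | (∀ c, 0 ≤ y c ∧ y c < (G : ℝ) ^ t) ∧ run T y t = τ} with hK
  have mbox : ∀ d : ℕ, MeasurableSet {y : Fin d → ℝ | ∀ c, 0 ≤ y c ∧ y c < (G : ℝ) ^ t} := by
    intro d
    have : {y : Fin d → ℝ | ∀ c, 0 ≤ y c ∧ y c < (G : ℝ) ^ t} =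
        ⋂ c, {y : Fin d → ℝ | y c ∈ Ico 0 ((G : ℝ) ^ t)} := by
      ext y
      simp
    rw [this]
    exact MeasurableSet.iInter fun c => measurable_pi_apply c measurableSet_Ico
  have mK : ∀ τ ∈ NT, MeasurableSet (K τ) := fun τ _ => (mbox _).inter (measurableSet_cell T t τ)
  have cK : ∀ τ ∈ NT, Convex ℝ (K τ) := by
    intro τ _
    refine Convex.inter ?_ (convex_cell T t τ)
    intro y hy y' hy' a b ha hb hab c
    have e1 := hy c
    have e2 := hy' c
    simp only [Pi.add_apply, Pi.smul_apply, smul_eq_mul]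
    constructor
    · have := mul_nonneg ha e1.1
      have := mul_nonneg hb e2.1
      linarith
    · rcases ha.eq_or_lt with h | h
      · have : b = 1 := by linarith
        rw [← h, this]
        simpa using e2.2
      · have := mul_lt_mul_of_pos_left e1.2 h
        have := mul_le_mul_of_nonneg_left e2.2.le hb
        have h5 : a * (G : ℝ) ^ t + b * (G : ℝ) ^ t = (G : ℝ) ^ t := by
          rw [← add_mul, hab, one_mul]
        linarith
  have bK : ∀ τ ∈ NT, InBox ((m : ℝ) * (Δ : ℝ)) (K τ) := by
    intro τ _ y hy i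
    have := hy.1 i
    rwa [hLr] at this
  have hΔr : (0 : ℝ) < (Δ : ℝ) := by exact_mod_cast hΔ0
  have hLe : ENNReal.ofReal ((m : ℝ) * (Δ : ℝ)) = (L : ENNReal) := by
    rw [hLΔ, ← Nat.cast_mul, ENNReal.ofReal_natCast]
  -- volume of the box
  have hbox : volume {y : Fin (n + 1) → ℝ | ∀ c, 0 ≤ y c ∧ y c < (G : ℝ) ^ t} =
      (L : ENNReal) ^ (n + 1) := by
    have : {y : Fin (n + 1) → ℝ | ∀ c, 0 ≤ y c ∧ y c < (G : ℝ) ^ t} =
        Set.pi univ fun _ => Ico 0 ((G : ℝ) ^ t) := by
      ext y
      simp
    rw [this, volume_pi_pi, Finset.prod_const, Finset.card_univ, Fintype.card_fin,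
      Real.volume_Ico, sub_zero, hLr, hLe]
  have hyes := volume_event_le T G t (fun τ => out τ = true)
  have hcount := count_cells (n := n) m hm (Δ : ℝ) hΔr r hr NT K mK cK bK ?_ ?_
  · refine hcount.trans ?_
    refine Nat.mul_le_mul_left _ ?_
    refine (Finset.card_filter_le _ _).trans ?_
    have := card_trans_le T t
    rwa [Fintype.card_fin] at this
  · -- the no-cells fill three quarters
    rw [hLe]
    have hcov : {y : Fin (n + 1) → ℝ | ∀ c, 0 ≤ y c ∧ y c < (G : ℝ) ^ t} ⊆
        {y : Fin (n + 1) → ℝ | (∀ c, 0 ≤ y c ∧ y c < (G : ℝ) ^ t) ∧ out (run T y t) = true} ∪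
        ⋃ τ ∈ NT, K τ := by
      intro y hy
      by_cases ho : out (run T y t) = true
      · exact Or.inl ⟨hy, ho⟩
      · right
        rw [mem_iUnion₂]
        refine ⟨run T y t, ?_, hy, rfl⟩
        rw [hNT, Finset.mem_filter]
        exact ⟨run_mem_trans T y t, by simpa using ho⟩
    have h4 : (L : ENNReal) ^ (n + 1) ≤
        ((((pts (n + 1) L).filter fun x => out (run T (re x) t) = true).card +
          (unst T G t t).card : ℕ) : ENNReal) + ∑ τ ∈ NT, volume (K τ) := by
      rw [← hbox]
      refine (measure_mono hcov).trans ((measure_union_le _ _).trans ?_)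
      exact add_le_add hyes (measure_biUnion_finset_le _ _)
    have h5 : 4 * (((pts (n + 1) L).filter fun x => out (run T (re x) t) = true).card +
          (unst T G t t).card) ≤ L ^ (n + 1) := by omega
    have h6 : (4 : ENNReal) * ((((pts (n + 1) L).filter fun x => out (run T (re x) t) = true).card +
          (unst T G t t).card : ℕ) : ENNReal) ≤ (L : ENNReal) ^ (n + 1) := by
      exact_mod_cast h5
    have hLt : (L : ENNReal) ^ (n + 1) ≠ ⊤ := ENNReal.pow_ne_top (ENNReal.natCast_ne_top L)
    have h7 : 3 * (L : ENNReal) ^ (n + 1) + (L : ENNReal) ^ (n + 1) ≤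
        4 * ∑ τ ∈ NT, volume (K τ) + (L : ENNReal) ^ (n + 1) := by
      calc 3 * (L : ENNReal) ^ (n + 1) + (L : ENNReal) ^ (n + 1)
          = 4 * (L : ENNReal) ^ (n + 1) := by ring
        _ ≤ 4 * (((((pts (n + 1) L).filter fun x => out (run T (re x) t) = true).card +
          (unst T G t t).card : ℕ) : ENNReal) + ∑ τ ∈ NT, volume (K τ)) := by gcongr
        _ = 4 * ((((pts (n + 1) L).filter fun x => out (run T (re x) t) = true).card +
          (unst T G t t).card : ℕ) : ENNReal) + 4 * ∑ τ ∈ NT, volume (K τ) := by ring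
        _ ≤ (L : ENNReal) ^ (n + 1) + 4 * ∑ τ ∈ NT, volume (K τ) := by gcongr
        _ = _ := add_comm _ _
    exact (ENNReal.add_le_add_iff_right hLt).1 h7
  · -- the sections are small
    rw [hLe]
    have hsecs : ∀ (i : Fin (n + 1)) (k : ℕ),
        ∑ τ ∈ NT, volume (sec i ((k : ℝ) * (Δ : ℝ)) (K τ)) ≤
          ((((pts n L).filter fun x =>
            out (run T (ins i ((k : ℝ) * (Δ : ℝ)) (re x)) t) = false).card +
            (unst (restr i ((k : ℝ) * (Δ : ℝ)) T) G t t).card : ℕ) : ENNReal) := by
      intro i k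
      have hdisj : (NT : Set (List (κ → SignType))).PairwiseDisjoint
          fun τ => sec i ((k : ℝ) * (Δ : ℝ)) (K τ) := by
        intro τ _ τ' _ hne
        refine Set.disjoint_left.2 fun z hz hz' => hne ?_
        exact hz.2.symm.trans hz'.2
      rw [← measure_biUnion_finset hdisj fun τ hτ => measurableSet_sec i _ (mK τ hτ)]
      have hno := volume_event_le (restr i ((k : ℝ) * (Δ : ℝ)) T) G t (fun τ => out τ = false)
      simp only [run_restr] at hno
      refine (measure_mono ?_).trans hno
      intro z hz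
      rw [mem_iUnion₂] at hz
      obtain ⟨τ, hτ, hz1, hz2⟩ := hz
      refine ⟨fun c => ?_, ?_⟩
      · have := hz1 (i.succAbove c)
        rwa [ins_succAbove] at this
      · rw [hz2]
        exact (Finset.mem_filter.1 hτ).2
    calc 8 * ∑ τ ∈ NT, ∑ i, ENNReal.ofReal (Δ : ℝ) * ∑ k ∈ Finset.range m,
            volume (sec i ((k : ℝ) * (Δ : ℝ)) (K τ))
        = 8 * ((Δ : ENNReal) * ∑ i, ∑ k ∈ Finset.range m, ∑ τ ∈ NT,
            volume (sec i ((k : ℝ) * (Δ : ℝ)) (K τ))) := by
          rw [ENNReal.ofReal_natCast, Finset.sum_comm]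
          congr 1
          rw [Finset.mul_sum]
          refine Finset.sum_congr rfl fun i _ => ?_
          rw [← Finset.mul_sum, Finset.sum_comm]
      _ ≤ 8 * ((Δ : ENNReal) * ∑ i : Fin (n + 1), ∑ k ∈ Finset.range m,
            ((((pts n L).filter fun x =>
            out (run T (ins i ((k : ℝ) * (Δ : ℝ)) (re x)) t) = false).card +
            (unst (restr i ((k : ℝ) * (Δ : ℝ)) T) G t t).card : ℕ) : ENNReal)) := by
          gcongr with i _ k _
          exact hsecs i k
      _ = ((8 * (Δ * ∑ i : Fin (n + 1), ∑ k ∈ Finset.range m, (((pts n L).filter fun x =>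
            out (run T (ins i ((k : ℝ) * (Δ : ℝ)) (re x)) t) = false).card +
            (unst (restr i ((k : ℝ) * (Δ : ℝ)) T) G t t).card)) : ℕ) : ENNReal) := by
          push_cast
          ring
      _ ≤ ((r * L ^ (n + 1) : ℕ) : ENNReal) := by
          refine Nat.cast_le.2 ?_
          simp_rw [Finset.sum_add_distrib]
          have h8 : 16 * ∑ i : Fin (n + 1), ∑ k ∈ Finset.range m,
              (unst (restr i ((k : ℝ) * (Δ : ℝ)) T) G t t).card ≤ r * (m * L ^ n) := by
            have h9 : G * (16 * ∑ i : Fin (n + 1), ∑ k ∈ Finset.range m,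
              (unst (restr i ((k : ℝ) * (Δ : ℝ)) T) G t t).card) ≤ G * (r * (m * L ^ n)) := by
              calc G * (16 * ∑ i : Fin (n + 1), ∑ k ∈ Finset.range m,
                    (unst (restr i ((k : ℝ) * (Δ : ℝ)) T) G t t).card)
                  = ∑ i : Fin (n + 1), ∑ k ∈ Finset.range m,
                    G * (16 * (unst (restr i ((k : ℝ) * (Δ : ℝ)) T) G t t).card) := by
                    simp_rw [Finset.mul_sum]
                _ ≤ ∑ _i : Fin (n + 1), ∑ _k ∈ Finset.range m,
                    16 * (t * Fintype.card κ * (n + 1)) * L ^ n :=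
                    Finset.sum_le_sum fun i _ => Finset.sum_le_sum fun k _ => hU2 i _
                _ = (16 * ((n + 1) * (t * Fintype.card κ * (n + 1)))) * (m * L ^ n) := by
                    rw [Finset.sum_const, Finset.sum_const, Finset.card_univ, Fintype.card_fin,
                      Finset.card_range, smul_eq_mul, smul_eq_mul]
                    ring
                _ ≤ (r * G) * (m * L ^ n) := Nat.mul_le_mul_right _ h3
                _ = G * (r * (m * L ^ n)) := by ring
            exact Nat.le_of_mul_le_mul_left h9 hG0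
          have h10 : r * L ^ (n + 1) = Δ * (r * (m * L ^ n)) := by
            rw [pow_succ]
            nth_rewrite 2 [hLΔ]
            ring
          rw [h10]
          have h11 : 8 * (∑ i : Fin (n + 1), ∑ k ∈ Finset.range m, ((pts n L).filter fun x =>
            out (run T (ins i ((k : ℝ) * (Δ : ℝ)) (re x)) t) = false).card +
              ∑ i : Fin (n + 1), ∑ k ∈ Finset.range m,
              (unst (restr i ((k : ℝ) * (Δ : ℝ)) T) G t t).card) ≤ r * (m * L ^ n) := by
            have h1' : 16 * ∑ i : Fin (n + 1), ∑ k ∈ Finset.range m, ((pts n L).filter fun x =>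
              out (run T (ins i ((k : ℝ) * (Δ : ℝ)) (re x)) t) = false).card ≤
                r * (m * L ^ n) := h1
            omega
          calc 8 * (Δ * (∑ i : Fin (n + 1), ∑ k ∈ Finset.range m, ((pts n L).filter fun x =>
            out (run T (ins i ((k : ℝ) * (Δ : ℝ)) (re x)) t) = false).card +
              ∑ i : Fin (n + 1), ∑ k ∈ Finset.range m,
              (unst (restr i ((k : ℝ) * (Δ : ℝ)) T) G t t).card))
              = Δ * (8 * (∑ i : Fin (n + 1), ∑ k ∈ Finset.range m, ((pts n L).filter fun x =>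
            out (run T (ins i ((k : ℝ) * (Δ : ℝ)) (re x)) t) = false).card +
              ∑ i : Fin (n + 1), ∑ k ∈ Finset.range m,
              (unst (restr i ((k : ℝ) * (Δ : ℝ)) T) G t t).card)) := by ring
            _ ≤ Δ * (r * (m * L ^ n)) := Nat.mul_le_mul_left _ h11
      _ = (r : ENNReal) * (L : ENNReal) ^ (n + 1) := by push_cast; ring

end Pool.Agent.Helper14.RR
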