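import Pool.Agent.Helper14.RR.Tree

set_option autoImplicit false

/-!
Nested cubes: the transcript of a `t`-round strategy is constant on almost all unit cubes.
-/

namespace Pool.Agent.Helper14.RR

open MeasureTheory Set

/-- The half-open cube with corner `o` and side `s`. -/
def cube {n : ℕ} (o : Fin n → ℝ) (s : ℝ) : Set (Fin n → ℝ) := {y | ∀ c, o c ≤ y c ∧ y c < o c + s}

theorem core_lt {n : ℕ} (q : Form (Fin n)) (c : Fin n) (hc : 0 < q.1 c)
    (hmax : ∀ j, |q.1 j| ≤ q.1 c) (s : ℝ) (hs : 0 < s) (y y' : Fin n → ℝ)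
    (h1 : ∀ j, j ≠ c → |y' j - y j| ≤ s) (h2 : (n : ℝ) * s ≤ y' c - y c) :
    ev q y < ev q y' := by
  classical
  have e1 : ev q y' - ev q y = q.1 c * (y' c - y c) +
      ∑ j ∈ Finset.univ.erase c, q.1 j * (y' j - y j) := by
    rw [Finset.add_sum_erase _ (fun j => q.1 j * (y' j - y j)) (Finset.mem_univ c)]
    unfold ev
    rw [add_sub_add_left_eq_sub, ← Finset.sum_sub_distrib]
    exact Finset.sum_congr rfl fun j _ => by ring
  have e2 : -(((n : ℝ) - 1) * (q.1 c * s)) ≤
      ∑ j ∈ Finset.univ.erase c, q.1 j * (y' j - y j) := by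
    have h3 : ∀ j ∈ Finset.univ.erase c, -(q.1 c * s) ≤ q.1 j * (y' j - y j) := by
      intro j hj
      have hj' := Finset.ne_of_mem_erase hj
      have : |q.1 j * (y' j - y j)| ≤ q.1 c * s := by
        rw [abs_mul]
        exact mul_le_mul (hmax j) (h1 j hj') (abs_nonneg _) hc.le
      exact (abs_le.1 this).1
    have h4 := Finset.sum_le_sum h3
    rw [Finset.sum_const, Finset.card_erase_of_mem (Finset.mem_univ c), Finset.card_univ,
      Fintype.card_fin, nsmul_eq_mul] at h4
    have hn : 1 ≤ n := by
      have := c.2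
      omega
    rw [Nat.cast_sub hn] at h4
    push_cast at h4
    linarith
  have e3 : (n : ℝ) * (q.1 c * s) ≤ q.1 c * (y' c - y c) := by
    have := mul_le_mul_of_nonneg_left h2 hc.le
    linarith
  have e4 : 0 < q.1 c * s := mul_pos hc hs
  linarith

theorem card_window (S : Finset ℕ) (n : ℕ) (h : ∀ a ∈ S, ∀ b ∈ S, b ≤ a + n) :
    S.card ≤ n + 1 := by
  rcases S.eq_empty_or_nonempty with he | hne
  · simp [he]
  · have hsub : S ⊆ Finset.Icc (S.min' hne) (S.min' hne + n) := by
      intro b hb
      rw [Finset.mem_Icc]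
      exact ⟨S.min'_le b hb, h _ (S.min'_mem hne) b hb⟩
    have := Finset.card_le_card hsub
    rw [Nat.card_Icc] at this
    omega

open Classical in
/-- The subcubes of the grid with corner `o`, side `s` and `G` cubes per direction on which the
sign of `q` is not constant. -/
noncomputable def cut {n : ℕ} (q : Form (Fin n)) (o : Fin n → ℝ) (s : ℝ) (G : ℕ) :
    Finset (Fin n → ℕ) :=
  (Fintype.piFinset fun _ => Finset.range G).filter fun v =>
    ∃ y ∈ cube (fun c => o c + v c * s) s, ∃ y' ∈ cube (fun c => o c + v c * s) s,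
      SignType.sign (ev q y) ≠ SignType.sign (ev q y')

theorem sign_cases (u v : ℝ) (h : SignType.sign u ≠ SignType.sign v) :
    (u ≤ 0 ∧ 0 ≤ v) ∨ (0 ≤ u ∧ v ≤ 0) := by
  rcases lt_trichotomy u 0 with hu | hu | hu
  · left
    refine ⟨hu.le, ?_⟩
    by_contra hv
    push Not at hv
    exact h (by rw [sign_neg hu, sign_neg hv])
  · rcases le_total v 0 with hv | hv
    · exact Or.inr ⟨hu.symm.le, hv⟩
    · exact Or.inl ⟨hu.le, hv⟩
  · right
    refine ⟨hu.le, ?_⟩
    by_contra hv
    push Not at hv
    exact h (by rw [sign_pos hu, sign_pos hv])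

theorem card_cut_pos {n : ℕ} (q : Form (Fin n)) (o : Fin n → ℝ) (s : ℝ) (hs : 0 < s) (G : ℕ)
    (c : Fin n) (hc : 0 < q.1 c) (hmax : ∀ j, |q.1 j| ≤ q.1 c) :
    G * (cut q o s G).card ≤ (n + 1) * G ^ n := by
  classical
  set B := cut q o s G with hB
  set π : (Fin n → ℕ) → (Fin n → ℕ) := fun v => Function.update v c 0 with hπ
  set W : Finset (Fin n → ℕ) :=
    Fintype.piFinset fun j => if j = c then {0} else Finset.range G with hW
  have hWc : G * W.card = G ^ n := by
    rw [hW, Fintype.card_piFinset]
    have h1 : ∀ j : Fin n, (if j = c then ({0} : Finset ℕ) else Finset.range G).card =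
        if j = c then 1 else G := by
      intro j
      split_ifs <;> simp
    simp_rw [h1]
    have h2 : ∏ j : Fin n, (if j = c then G else 1) = G := by
      rw [Finset.prod_ite_eq' Finset.univ c (fun _ => G), if_pos (Finset.mem_univ c)]
    calc G * ∏ j : Fin n, (if j = c then 1 else G)
        = (∏ j : Fin n, (if j = c then G else 1)) * ∏ j : Fin n, (if j = c then 1 else G) := by
          rw [h2]
      _ = ∏ j : Fin n, G := by
          rw [← Finset.prod_mul_distrib]
          refine Finset.prod_congr rfl fun j _ => ?_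
          split_ifs <;> simp
      _ = G ^ n := by simp
  have himg : B.image π ⊆ W := by
    intro w hw
    rw [Finset.mem_image] at hw
    obtain ⟨v, hv, rfl⟩ := hw
    rw [hB, cut, Finset.mem_filter] at hv
    rw [hW, Fintype.mem_piFinset]
    intro j
    by_cases hj : j = c
    · rw [if_pos hj, hj]
      simp [hπ]
    · rw [if_neg hj]
      simp only [hπ, Function.update_of_ne hj]
      exact Fintype.mem_piFinset.1 hv.1 j
  have hfib : ∀ w ∈ B.image π, (B.filter fun v => π v = w).card ≤ n + 1 := by
    intro w _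
    have hinj : Set.InjOn (fun v : Fin n → ℕ => v c) (B.filter fun v => π v = w) := by
      intro v hv v' hv' hvv
      rw [Finset.mem_coe, Finset.mem_filter] at hv hv'
      funext j
      by_cases hj : j = c
      · rw [hj]
        exact hvv
      · have := congrFun (hv.2.trans hv'.2.symm) j
        simpa only [hπ, Function.update_of_ne hj] using this
    rw [← Finset.card_image_of_injOn hinj]
    apply card_window
    intro a ha b hb
    rw [Finset.mem_image] at ha hb
    obtain ⟨v, hv, rfl⟩ := ha
    obtain ⟨v', hv', rfl⟩ := hb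
    rw [Finset.mem_filter] at hv hv'
    by_contra hlt
    push Not at hlt
    have hvv : ∀ j, j ≠ c → v' j = v j := by
      intro j hj
      have := congrFun (hv.2.trans hv'.2.symm) j
      simp only [hπ, Function.update_of_ne hj] at this
      exact this.symm
    obtain ⟨y1, hy1, y2, hy2, hne⟩ := (Finset.mem_filter.1 hv.1).2
    obtain ⟨z1, hz1, z2, hz2, hne'⟩ := (Finset.mem_filter.1 hv'.1).2
    obtain ⟨y, hy, hy0⟩ : ∃ y ∈ cube (fun c => o c + v c * s) s, 0 ≤ ev q y := by
      rcases sign_cases _ _ hne with h | h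
      · exact ⟨y2, hy2, h.2⟩
      · exact ⟨y1, hy1, h.1⟩
    obtain ⟨z, hz, hz0⟩ : ∃ z ∈ cube (fun c => o c + v' c * s) s, ev q z ≤ 0 := by
      rcases sign_cases _ _ hne' with h | h
      · exact ⟨z1, hz1, h.1⟩
      · exact ⟨z2, hz2, h.2⟩
    have key := core_lt q c hc hmax s hs y z ?_ ?_
    · linarith
    · intro j hj
      have h1 := hy j
      have h2 := hz j
      simp only [hvv j hj] at h2
      rw [abs_le]
      constructor <;> linarith [h1.1, h1.2, h2.1, h2.2]
    · have h1 := hy c
      have h2 := hz c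
      have h3 : (v c : ℝ) + n + 1 ≤ v' c := by exact_mod_cast hlt
      have h4 := mul_le_mul_of_nonneg_right h3 hs.le
      have h5 : ((v c : ℝ) + n + 1) * s = v c * s + n * s + s := by ring
      linarith [h1.2, h2.1]
  have hcard := Finset.card_le_mul_card_image B (n + 1) hfib
  calc G * B.card ≤ G * ((n + 1) * (B.image π).card) := Nat.mul_le_mul_left _ hcard
    _ ≤ G * ((n + 1) * W.card) :=
        Nat.mul_le_mul_left _ (Nat.mul_le_mul_left _ (Finset.card_le_card himg))
    _ = (n + 1) * (G * W.card) := by ring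
    _ = (n + 1) * G ^ n := by rw [hWc]

theorem ev_neg {n : ℕ} (q : Form (Fin n)) (y : Fin n → ℝ) : ev (-q.1, -q.2) y = - ev q y := by
  simp only [ev, Pi.neg_apply, neg_mul, Finset.sum_neg_distrib]
  ring

/-- A hyperplane cuts few cubes. -/
theorem card_cut {n : ℕ} (q : Form (Fin n)) (o : Fin n → ℝ) (s : ℝ) (hs : 0 < s) (G : ℕ) :
    G * (cut q o s G).card ≤ (n + 1) * G ^ n := by
  classical
  by_cases h0 : ∀ j, q.1 j = 0
  · have : cut q o s G = ∅ := by
      rw [cut, Finset.filter_eq_empty_iff]
      intro v _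
      push Not
      intro y _ y' _
      simp [ev, h0]
    simp [this]
  · push Not at h0
    obtain ⟨j0, hj0⟩ := h0
    obtain ⟨c, _, hc⟩ := Finset.exists_max_image Finset.univ (fun j => |q.1 j|)
      ⟨j0, Finset.mem_univ _⟩
    have hc0 : q.1 c ≠ 0 := by
      intro h
      have := hc j0 (Finset.mem_univ _)
      simp only [h, abs_zero] at this
      exact hj0 (abs_eq_zero.1 (le_antisymm this (abs_nonneg _)))
    rcases lt_or_gt_of_ne hc0 with h | h
    · have heq : cut q o s G = cut (-q.1, -q.2) o s G := by
        unfold cut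
        refine Finset.filter_congr fun v _ => ?_
        simp only [ev_neg, Left.sign_neg, ne_eq, neg_inj]
      rw [heq]
      refine card_cut_pos _ o s hs G c (by simpa using h) ?_
      intro j
      simp only [Pi.neg_apply, abs_neg]
      have := hc j (Finset.mem_univ _)
      rwa [abs_of_neg h] at this
    · refine card_cut_pos q o s hs G c h ?_
      intro j
      have := hc j (Finset.mem_univ _)
      rwa [abs_of_pos h] at this

/-- The cube of level `i` with index `u`: side `G^(t-i)`. -/
def cubeL {n : ℕ} (G t i : ℕ) (u : Fin n → ℕ) : Set (Fin n → ℝ) :=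
  cube (fun c => (u c : ℝ) * (G : ℝ) ^ (t - i)) ((G : ℝ) ^ (t - i))

open Classical in
/-- Indices of the level `i` cubes on which the transcript of the first `i` rounds is not
constant. -/
noncomputable def unst {n : ℕ} {κ : Type} (T : Tree (Fin n) κ) (G t i : ℕ) :
    Finset (Fin n → ℕ) :=
  (Fintype.piFinset fun _ => Finset.range (G ^ i)).filter fun u =>
    ∃ y ∈ cubeL G t i u, ∃ y' ∈ cubeL G t i u, run T y i ≠ run T y' i

theorem corner_mem {n : ℕ} (G t i : ℕ) (hG : 0 < G) (u : Fin n → ℕ) :
    (fun c => (u c : ℝ) * (G : ℝ) ^ (t - i)) ∈ cubeL G t i u := by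
  intro c
  have : (0 : ℝ) < (G : ℝ) ^ (t - i) := by positivity
  exact ⟨le_rfl, by simpa using this⟩

theorem unst_step {n : ℕ} {κ : Type} [Fintype κ] (T : Tree (Fin n) κ) (G t i : ℕ) (hG : 0 < G)
    (hi : i + 1 ≤ t) :
    G * (unst T G t (i + 1)).card ≤ G ^ n * (G * (unst T G t i).card) +
      (G ^ i) ^ n * (Fintype.card κ * ((n + 1) * G ^ n)) := by
  classical
  have hG' : (0 : ℝ) < G := by exact_mod_cast hG
  set s : ℝ := (G : ℝ) ^ (t - (i + 1)) with hs
  have hs0 : 0 < s := by positivity
  have hGs : (G : ℝ) ^ (t - i) = G * s := by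
    rw [hs, ← pow_succ']
    congr 1
    omega
  set P : Finset (Fin n → ℕ) := Fintype.piFinset fun _ => Finset.range (G ^ i) with hP
  set V : Finset (Fin n → ℕ) := Fintype.piFinset fun _ => Finset.range G with hV
  set o : (Fin n → ℕ) → (Fin n → ℝ) := fun u c => (u c : ℝ) * (G : ℝ) ^ (t - i) with ho
  set Bc : (Fin n → ℕ) → κ → Finset (Fin n → ℕ) :=
    fun u l => cut (T (run T (o u) i) l) (o u) s G with hBc
  set comb : (Fin n → ℕ) × (Fin n → ℕ) → (Fin n → ℕ) := fun p c => G * p.1 c + p.2 c with hcomb
  have hsub : unst T G t (i + 1) ⊆ ((unst T G t i) ×ˢ V).image comb ∪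
      P.biUnion fun u => Finset.univ.biUnion fun l => (Bc u l).image fun v => comb (u, v) := by
    intro u' hu'
    rw [unst, Finset.mem_filter, Fintype.mem_piFinset] at hu'
    obtain ⟨hu'r, y, hy, y', hy', hne⟩ := hu'
    set u : Fin n → ℕ := fun c => u' c / G with hu
    set v : Fin n → ℕ := fun c => u' c % G with hv
    have huv : comb (u, v) = u' := by
      funext c
      exact Nat.div_add_mod _ _
    have huP : u ∈ P := by
      rw [hP, Fintype.mem_piFinset]
      intro c
      have := hu'r c
      rw [Finset.mem_range] at this ⊢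
      rw [pow_succ] at this
      exact Nat.div_lt_of_lt_mul (by rw [mul_comm]; exact this)
    have hvV : v ∈ V := by
      rw [hV, Fintype.mem_piFinset]
      intro c
      rw [Finset.mem_range]
      exact Nat.mod_lt _ hG
    have hcast : ∀ c, (u' c : ℝ) * s = (u c : ℝ) * (G : ℝ) ^ (t - i) + (v c : ℝ) * s := by
      intro c
      have h1 : (u' c : ℝ) = G * u c + v c := by
        have := congrFun huv c
        rw [← this]
        simp only [hcomb]
        push_cast
        ring
      rw [h1, hGs]
      ring
    have hvlt : ∀ c, (v c : ℝ) * s + s ≤ (G : ℝ) ^ (t - i) := by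
      intro c
      have h1 : (v c : ℝ) + 1 ≤ G := by
        have : v c < G := Nat.mod_lt _ hG
        exact_mod_cast this
      rw [hGs]
      have := mul_le_mul_of_nonneg_right h1 hs0.le
      linarith
    have hsubc : ∀ z ∈ cubeL G t (i + 1) u', z ∈ cubeL G t i u := by
      intro z hz c
      have h1 := hz c
      simp only [← hs] at h1
      rw [hcast c] at h1
      have h2 : 0 ≤ (v c : ℝ) * s := by positivity
      have h3 := hvlt c
      constructor <;> linarith [h1.1, h1.2]
    rw [Finset.mem_union]
    by_cases hun : u ∈ unst T G t i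
    · left
      rw [Finset.mem_image]
      exact ⟨(u, v), Finset.mem_product.2 ⟨hun, hvV⟩, huv⟩
    · right
      have hst : ∀ z ∈ cubeL G t i u, run T z i = run T (o u) i := by
        intro z hz
        by_contra hz'
        apply hun
        rw [unst, Finset.mem_filter]
        exact ⟨huP, z, hz, o u, corner_mem G t i hG u, hz'⟩
      rw [Finset.mem_biUnion]
      refine ⟨u, huP, ?_⟩
      rw [Finset.mem_biUnion]
      have hy1 := hst y (hsubc y hy)
      have hy2 := hst y' (hsubc y' hy')
      have : ∃ l, SignType.sign (ev (T (run T (o u) i) l) y) ≠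
          SignType.sign (ev (T (run T (o u) i) l) y') := by
        by_contra hall
        push Not at hall
        apply hne
        simp only [run]
        rw [hy1, hy2]
        congr 2
        funext l
        exact hall l
      obtain ⟨l, hl⟩ := this
      refine ⟨l, Finset.mem_univ _, ?_⟩
      rw [Finset.mem_image]
      refine ⟨v, ?_, huv⟩
      rw [hBc]
      simp only [cut]
      rw [Finset.mem_filter]
      have hcub : ∀ z, z ∈ cubeL G t (i + 1) u' → z ∈ cube (fun c => o u c + v c * s) s := by
        intro z hz c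
        have h1 := hz c
        simp only [← hs] at h1
        rw [hcast c] at h1
        exact h1
      exact ⟨hvV, y, hcub y hy, y', hcub y' hy', hl⟩
  have hVc : V.card = G ^ n := by
    rw [hV, Fintype.card_piFinset]
    simp
  have hPc : P.card = (G ^ i) ^ n := by
    rw [hP, Fintype.card_piFinset]
    simp
  have h1 : (unst T G t (i + 1)).card ≤ (unst T G t i).card * G ^ n +
      ∑ u ∈ P, ∑ l : κ, (Bc u l).card := by
    refine (Finset.card_le_card hsub).trans ((Finset.card_union_le _ _).trans ?_)
    refine Nat.add_le_add ?_ ?_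
    · refine Finset.card_image_le.trans ?_
      rw [Finset.card_product, hVc]
    · refine Finset.card_biUnion_le.trans (Finset.sum_le_sum fun u _ => ?_)
      refine Finset.card_biUnion_le.trans (Finset.sum_le_sum fun l _ => ?_)
      exact Finset.card_image_le
  have h2 : G * ∑ u ∈ P, ∑ l : κ, (Bc u l).card ≤
      (G ^ i) ^ n * (Fintype.card κ * ((n + 1) * G ^ n)) := by
    rw [Finset.mul_sum]
    calc ∑ u ∈ P, G * ∑ l : κ, (Bc u l).card
        ≤ ∑ _u ∈ P, Fintype.card κ * ((n + 1) * G ^ n) := by
          refine Finset.sum_le_sum fun u _ => ?_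
          rw [Finset.mul_sum]
          calc ∑ l : κ, G * (Bc u l).card ≤ ∑ _l : κ, (n + 1) * G ^ n :=
                Finset.sum_le_sum fun l _ => card_cut _ _ s hs0 G
            _ = Fintype.card κ * ((n + 1) * G ^ n) := by
                rw [Finset.sum_const, Finset.card_univ, smul_eq_mul]
      _ = (G ^ i) ^ n * (Fintype.card κ * ((n + 1) * G ^ n)) := by
          rw [Finset.sum_const, hPc, smul_eq_mul]
  calc G * (unst T G t (i + 1)).card
      ≤ G * ((unst T G t i).card * G ^ n + ∑ u ∈ P, ∑ l : κ, (Bc u l).card) :=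
        Nat.mul_le_mul_left _ h1
    _ = G ^ n * (G * (unst T G t i).card) + G * ∑ u ∈ P, ∑ l : κ, (Bc u l).card := by ring
    _ ≤ _ := Nat.add_le_add_left h2 _

/-- The transcript is constant on almost all cubes of level `i`. -/
theorem unst_card {n : ℕ} {κ : Type} [Fintype κ] (T : Tree (Fin n) κ) (G t i : ℕ) (hG : 0 < G)
    (hi : i ≤ t) :
    G * (unst T G t i).card ≤ i * Fintype.card κ * (n + 1) * (G ^ i) ^ n := by
  classical
  induction i with
  | zero =>
    have : unst T G t 0 = ∅ := by
      rw [unst, Finset.filter_eq_empty_iff]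
      intro u _
      push Not
      intro y _ y' _
      rfl
    simp [this]
  | succ i ih =>
    have h1 := unst_step T G t i hG hi
    have h2 := ih (by omega)
    calc G * (unst T G t (i + 1)).card
        ≤ G ^ n * (G * (unst T G t i).card) +
          (G ^ i) ^ n * (Fintype.card κ * ((n + 1) * G ^ n)) := h1
      _ ≤ G ^ n * (i * Fintype.card κ * (n + 1) * (G ^ i) ^ n) +
          (G ^ i) ^ n * (Fintype.card κ * ((n + 1) * G ^ n)) := by gcongr
      _ = (i + 1) * Fintype.card κ * (n + 1) * (G ^ (i + 1)) ^ n := by ring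

theorem volume_cube {n : ℕ} (o : Fin n → ℝ) : volume (cube o 1) = 1 := by
  have : cube o 1 = Set.pi univ fun c => Ico (o c) (o c + 1) := by
    ext y
    simp [cube]
  rw [this, volume_pi_pi]
  simp

/-- Real volume of an event is at most the number of integer points in the event plus the number
of unstable cubes. -/
theorem volume_event_le {n : ℕ} {κ : Type} (T : Tree (Fin n) κ) (G t : ℕ)
    (P : List (κ → SignType) → Prop) [DecidablePred P] :
    volume {y : Fin n → ℝ | (∀ c, 0 ≤ y c ∧ y c < (G : ℝ) ^ t) ∧ P (run T y t)} ≤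
      ((((Fintype.piFinset fun _ : Fin n => Finset.range (G ^ t)).filter fun u =>
        P (run T (fun c => (u c : ℝ)) t)).card + (unst T G t t).card : ℕ) : ENNReal) := by
  classical
  set A := (Fintype.piFinset fun _ : Fin n => Finset.range (G ^ t)).filter fun u =>
        P (run T (fun c => (u c : ℝ)) t) with hA
  have hsub : {y : Fin n → ℝ | (∀ c, 0 ≤ y c ∧ y c < (G : ℝ) ^ t) ∧ P (run T y t)} ⊆
      ⋃ u ∈ A ∪ unst T G t t, cube (fun c => (u c : ℝ)) 1 := by
    intro y hy
    obtain ⟨hb, hp⟩ := hy
    set u : Fin n → ℕ := fun c => ⌊y c⌋₊ with hu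
    have hyc : y ∈ cube (fun c => (u c : ℝ)) 1 := fun c =>
      ⟨Nat.floor_le (hb c).1, Nat.lt_floor_add_one _⟩
    have huR : u ∈ Fintype.piFinset fun _ : Fin n => Finset.range (G ^ t) := by
      rw [Fintype.mem_piFinset]
      intro c
      rw [Finset.mem_range]
      apply (Nat.floor_lt (hb c).1).2
      push_cast
      exact (hb c).2
    rw [mem_iUnion₂]
    refine ⟨u, ?_, hyc⟩
    rw [Finset.mem_union]
    by_cases hun : u ∈ unst T G t t
    · exact Or.inr hun
    · left
      rw [hA, Finset.mem_filter]
      refine ⟨huR, ?_⟩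
      have heq : run T y t = run T (fun c => (u c : ℝ)) t := by
        by_contra hne
        apply hun
        rw [unst, Finset.mem_filter]
        have hcube : cubeL G t t u = cube (fun c => (u c : ℝ)) 1 := by
          simp [cubeL]
        rw [hcube]
        refine ⟨huR, y, hyc, fun c => (u c : ℝ), ?_, hne⟩
        intro c
        exact ⟨le_rfl, by simp⟩
      rw [← heq]
      exact hp
  refine (measure_mono hsub).trans ((measure_biUnion_finset_le _ _).trans ?_)
  calc ∑ u ∈ A ∪ unst T G t t, volume (cube (fun c => (u c : ℝ)) 1)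
      = ((A ∪ unst T G t t).card : ENNReal) := by
        rw [Finset.sum_congr rfl fun u _ => volume_cube _, Finset.sum_const, nsmul_eq_mul,
          mul_one]
    _ ≤ ((A.card + (unst T G t t).card : ℕ) : ENNReal) := by
        exact_mod_cast Finset.card_union_le _ _

end Pool.Agent.Helper14.RR
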