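import Mathlib

set_option autoImplicit false

/-!
Exact Triangle for algorithms that work in rounds and ask the signs of arbitrary real affine
forms in all the weights.
-/

namespace Pool.Agent.Helper14.RR

/-- An instance of Exact Triangle on `n` vertices: an edge flag and an integer weight in every
cell of an `n × n` matrix. -/
structure Inst (n : ℕ) where
  flag : Fin n → Fin n → Bool
  wt : Fin n → Fin n → ℤ

/-- Valid instances: symmetric, loopless, all weights in `[-n^300, n^300]`. -/
def Inst.Valid {n : ℕ} (I : Inst n) : Prop :=
  (∀ i j, I.flag i j = I.flag j i) ∧ (∀ i, I.flag i i = false) ∧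
  (∀ i j, I.wt i j = I.wt j i) ∧ (∀ i j, |I.wt i j| ≤ (n : ℤ) ^ 300)

/-- Yes-instances: some triangle of edges has total weight zero. -/
def Inst.Yes {n : ℕ} (I : Inst n) : Prop :=
  ∃ i j k : Fin n, i ≠ j ∧ j ≠ k ∧ i ≠ k ∧
    I.flag i j = true ∧ I.flag j k = true ∧ I.flag i k = true ∧
    I.wt i j + I.wt j k + I.wt i k = 0

/-- The value of the affine form `b + ∑ a i j * w i j` (real coefficients `q = (a, b)`) at the
weights of `I`. -/
noncomputable def value {n : ℕ} (q : (Fin n → Fin n → ℝ) × ℝ) (I : Inst n) : ℝ :=
  q.2 + ∑ i, ∑ j, q.1 i j * (I.wt i j : ℝ)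

/-- A randomized algorithm on `n`-vertex instances that asks `D` affine forms in every round and
uses `R` uniformly random bits. The forms of the next round and the output are arbitrary functions
of the flags, the random bits and the signs received in the earlier rounds. -/
structure Alg (n D R : ℕ) where
  ask : (Fin n → Fin n → Bool) → (Fin R → Bool) → List (Fin D → SignType) →
    Fin D → (Fin n → Fin n → ℝ) × ℝ
  out : (Fin n → Fin n → Bool) → (Fin R → Bool) → List (Fin D → SignType) → Bool

/-- The signs (`-1`, `0` or `1`) received in the first `t` rounds. -/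
noncomputable def Alg.signs {n D R : ℕ} (A : Alg n D R) (I : Inst n) (ρ : Fin R → Bool) :
    ℕ → List (Fin D → SignType)
  | 0 => []
  | t + 1 => A.signs I ρ t ++
      [fun l => SignType.sign (value (A.ask I.flag ρ (A.signs I ρ t) l) I)]

/-- Output after `t` rounds. -/
noncomputable def Alg.output {n D R : ℕ} (A : Alg n D R) (t : ℕ) (I : Inst n)
    (ρ : Fin R → Bool) : Bool :=
  A.out I.flag ρ (A.signs I ρ t)

open Classical in
/-- After `t` rounds the algorithm decides Exact Triangle with bounded error: on every valid
instance the output is correct with probability at least `2/3` over the random bits. -/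
def Alg.Decides {n D R : ℕ} (A : Alg n D R) (t : ℕ) : Prop :=
  ∀ I : Inst n, I.Valid →
    2 * 2 ^ R ≤ 3 * (Finset.univ.filter fun ρ : Fin R → Bool =>
      (A.output t I ρ = true ↔ I.Yes)).card

end Pool.Agent.Helper14.RR
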