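import Pool.Agent.Helper14.RR.Defs
import Pool.Agent.Helper14.RR.Core

set_option autoImplicit false

/-!
The hard instances: complete tripartite, the weights between the first two classes are the hidden
coordinates `x`, the weight of an edge `(j, k)` between the second and the third class is
`-k Δ`, the weights between the first and the third class are `0`.
-/

namespace Pool.Agent.Helper14.RR

variable {n m N : ℕ}

/-- Position of a vertex in its class. -/
def lo (hm : 0 < m) (p : Fin n) : Fin m := ⟨p.val % m, Nat.mod_lt _ hm⟩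

/-- The flags. -/
def flagsT (n m : ℕ) : Fin n → Fin n → Bool := fun p q =>
  decide (p.val / m ≤ 2 ∧ q.val / m ≤ 2 ∧ p.val / m ≠ q.val / m)

/-- Coefficient of the hidden coordinate `c` in the weight of the cell `(p, q)`. -/
def chiT (hm : 0 < m) (e : Fin m × Fin m ≃ Fin N) (p q : Fin n) (c : Fin N) : ℤ :=
  (if p.val / m = 0 ∧ q.val / m = 1 ∧ e (lo hm p, lo hm q) = c then 1 else 0) +
  (if q.val / m = 0 ∧ p.val / m = 1 ∧ e (lo hm q, lo hm p) = c then 1 else 0)

/-- Constant part of the weight of the cell `(p, q)`. -/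
def cstT (m Δ : ℕ) (p q : Fin n) : ℤ :=
  (if p.val / m = 1 ∧ q.val / m = 2 then -((q.val % m : ℕ) * (Δ : ℤ)) else 0) +
  (if q.val / m = 1 ∧ p.val / m = 2 then -((p.val % m : ℕ) * (Δ : ℤ)) else 0)

/-- The weights. -/
def wT (hm : 0 < m) (e : Fin m × Fin m ≃ Fin N) (Δ : ℕ) (x : Fin N → ℤ) (p q : Fin n) : ℤ :=
  cstT m Δ p q + ∑ c, chiT hm e p q c * x c

theorem chiT_symm (hm : 0 < m) (e : Fin m × Fin m ≃ Fin N) (p q : Fin n) (c : Fin N) :
    chiT hm e p q c = chiT hm e q p c := by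
  unfold chiT
  rw [add_comm]

theorem cstT_symm (Δ : ℕ) (p q : Fin n) : cstT m Δ p q = cstT m Δ q p := by
  unfold cstT
  rw [add_comm]

theorem wT_symm (hm : 0 < m) (e : Fin m × Fin m ≃ Fin N) (Δ : ℕ) (x : Fin N → ℤ)
    (p q : Fin n) : wT hm e Δ x p q = wT hm e Δ x q p := by
  unfold wT
  rw [cstT_symm]
  congr 1
  exact Finset.sum_congr rfl fun c _ => by rw [chiT_symm]

theorem wT_01 (hm : 0 < m) (e : Fin m × Fin m ≃ Fin N) (Δ : ℕ) (x : Fin N → ℤ) (p q : Fin n)
    (hp : p.val / m = 0) (hq : q.val / m = 1) : wT hm e Δ x p q = x (e (lo hm p, lo hm q)) := by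
  unfold wT cstT chiT
  simp only [hp, hq]
  simp

theorem wT_12 (hm : 0 < m) (e : Fin m × Fin m ≃ Fin N) (Δ : ℕ) (x : Fin N → ℤ) (p q : Fin n)
    (hp : p.val / m = 1) (hq : q.val / m = 2) :
    wT hm e Δ x p q = -((q.val % m : ℕ) * (Δ : ℤ)) := by
  unfold wT cstT chiT
  simp only [hp, hq]
  simp

theorem wT_other (hm : 0 < m) (e : Fin m × Fin m ≃ Fin N) (Δ : ℕ) (x : Fin N → ℤ) (p q : Fin n)
    (h1 : ¬ (p.val / m = 0 ∧ q.val / m = 1)) (h2 : ¬ (q.val / m = 0 ∧ p.val / m = 1))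
    (h3 : ¬ (p.val / m = 1 ∧ q.val / m = 2)) (h4 : ¬ (q.val / m = 1 ∧ p.val / m = 2)) :
    wT hm e Δ x p q = 0 := by
  unfold wT cstT chiT
  rw [if_neg h3, if_neg h4]
  have : ∀ c : Fin N, (if p.val / m = 0 ∧ q.val / m = 1 ∧ e (lo hm p, lo hm q) = c then (1 : ℤ)
      else 0) + (if q.val / m = 0 ∧ p.val / m = 1 ∧ e (lo hm q, lo hm p) = c then 1 else 0) = 0 := by
    intro c
    rw [if_neg fun h => h1 ⟨h.1, h.2.1⟩, if_neg fun h => h2 ⟨h.1, h.2.1⟩, add_zero]
  rw [add_zero, zero_add]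
  exact Finset.sum_eq_zero fun c _ => by rw [this c, zero_mul]

/-- The instance with hidden coordinates `x`. -/
def instT (n : ℕ) (hm : 0 < m) (e : Fin m × Fin m ≃ Fin N) (Δ : ℕ) (x : Fin N → ℤ) : Inst n where
  flag := flagsT n m
  wt := wT hm e Δ x

theorem instT_valid (hm : 0 < m) (e : Fin m × Fin m ≃ Fin N) (Δ : ℕ) (x : Fin N → ℤ)
    (hx : ∀ c, |x c| ≤ (n : ℤ) ^ 300) (hΔ : m * Δ ≤ n ^ 300) : (instT n hm e Δ x).Valid := by
  have hn0 : (0 : ℤ) ≤ (n : ℤ) ^ 300 := by positivity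
  have hk : ∀ q : Fin n, |-(((q.val % m : ℕ) : ℤ) * (Δ : ℤ))| ≤ (n : ℤ) ^ 300 := by
    intro q
    rw [abs_neg, abs_of_nonneg (by positivity)]
    have h1 : (q.val % m) * Δ ≤ n ^ 300 :=
      (Nat.mul_le_mul_right Δ (Nat.mod_lt _ hm).le).trans hΔ
    exact_mod_cast h1
  refine ⟨?_, ?_, fun i j => wT_symm hm e Δ x i j, ?_⟩
  · intro i j
    simp only [instT, flagsT]
    refine decide_eq_decide.2 ⟨?_, ?_⟩
    · rintro ⟨h1, h2, h3⟩
      exact ⟨h2, h1, h3.symm⟩
    · rintro ⟨h1, h2, h3⟩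
      exact ⟨h2, h1, h3.symm⟩
  · intro i
    simp [instT, flagsT]
  · intro i j
    show |wT hm e Δ x i j| ≤ _
    by_cases h1 : i.val / m = 0 ∧ j.val / m = 1
    · rw [wT_01 hm e Δ x i j h1.1 h1.2]
      exact hx _
    by_cases h2 : j.val / m = 0 ∧ i.val / m = 1
    · rw [wT_symm, wT_01 hm e Δ x j i h2.1 h2.2]
      exact hx _
    by_cases h3 : i.val / m = 1 ∧ j.val / m = 2
    · rw [wT_12 hm e Δ x i j h3.1 h3.2]
      exact hk j
    by_cases h4 : j.val / m = 1 ∧ i.val / m = 2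
    · rw [wT_symm, wT_12 hm e Δ x j i h4.1 h4.2]
      exact hk i
    rw [wT_other hm e Δ x i j h1 h2 h3 h4, abs_zero]
    exact hn0

theorem sum_012 (hm : 0 < m) (e : Fin m × Fin m ≃ Fin N) (Δ : ℕ) (x : Fin N → ℤ)
    (p q r : Fin n) (hp : p.val / m = 0) (hq : q.val / m = 1) (hr : r.val / m = 2) :
    wT hm e Δ x p q + wT hm e Δ x q r + wT hm e Δ x p r =
      x (e (lo hm p, lo hm q)) - ((r.val % m : ℕ) : ℤ) * (Δ : ℤ) := by
  rw [wT_01 hm e Δ x p q hp hq, wT_12 hm e Δ x q r hq hr,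
    wT_other hm e Δ x p r (by omega) (by omega) (by omega) (by omega)]
  ring

theorem special_of_yes (hm : 0 < m) (e : Fin m × Fin m ≃ Fin N) (Δ : ℕ) (x : Fin N → ℤ)
    (h : (instT n hm e Δ x).Yes) : ∃ c, ∃ k < m, x c = (k : ℤ) * (Δ : ℤ) := by
  obtain ⟨i, j, k, _, _, _, f1, f2, f3, hs⟩ := h
  simp only [instT, flagsT, decide_eq_true_eq] at f1 f2 f3 hs
  have key : ∀ p q r : Fin n, p.val / m = 0 → q.val / m = 1 → r.val / m = 2 →
      wT hm e Δ x p q + wT hm e Δ x q r + wT hm e Δ x p r = 0 →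
      ∃ c, ∃ k < m, x c = (k : ℤ) * (Δ : ℤ) := by
    intro p q r hp hq hr h0
    rw [sum_012 hm e Δ x p q r hp hq hr] at h0
    exact ⟨e (lo hm p, lo hm q), r.val % m, Nat.mod_lt _ hm, by linarith⟩
  have s := fun p q => wT_symm (n := n) hm e Δ x p q
  have cases3 : ∀ u : ℕ, u ≤ 2 → u = 0 ∨ u = 1 ∨ u = 2 := by
    intro u hu
    omega
  have c1 := cases3 (i.val / m) f1.1
  have c2 := cases3 (j.val / m) f1.2.1
  have c3 := cases3 (k.val / m) f2.2.1
  rcases c1 with a | a | a <;> rcases c2 with b | b | b <;> rcases c3 with c | c | c <;>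
    first
      | (exfalso; omega)
      | exact key i j k a b c (by linarith [s i j, s j k, s i k])
      | exact key i k j a c b (by linarith [s i j, s j k, s i k])
      | exact key j i k b a c (by linarith [s i j, s j k, s i k])
      | exact key j k i b c a (by linarith [s i j, s j k, s i k])
      | exact key k i j c a b (by linarith [s i j, s j k, s i k])
      | exact key k j i c b a (by linarith [s i j, s j k, s i k])

theorem yes_of_special (hm : 0 < m) (h3 : 3 * m ≤ n) (e : Fin m × Fin m ≃ Fin N) (Δ : ℕ)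
    (x : Fin N → ℤ) (c : Fin N) (k : ℕ) (hk : k < m) (hx : x c = (k : ℤ) * (Δ : ℤ)) :
    (instT n hm e Δ x).Yes := by
  set a := (e.symm c).1 with ha
  set b := (e.symm c).2 with hb
  have ha' := a.2
  have hb' := b.2
  let p : Fin n := ⟨a.val, by omega⟩
  let q : Fin n := ⟨m + b.val, by omega⟩
  let r : Fin n := ⟨2 * m + k, by omega⟩
  have hp : p.val / m = 0 := Nat.div_eq_of_lt ha'
  have hq : q.val / m = 1 := by
    show (m + b.val) / m = 1
    rw [Nat.add_div_left _ hm, Nat.div_eq_of_lt hb']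
  have hr : r.val / m = 2 := by
    show (2 * m + k) / m = 2
    rw [mul_comm 2 m, Nat.mul_add_div hm, Nat.div_eq_of_lt hk]
  have hrk : r.val % m = k := by
    show (2 * m + k) % m = k
    rw [mul_comm 2 m, Nat.mul_add_mod, Nat.mod_eq_of_lt hk]
  have hlp : lo hm p = a := by
    apply Fin.ext
    show a.val % m = a.val
    exact Nat.mod_eq_of_lt ha'
  have hlq : lo hm q = b := by
    apply Fin.ext
    show (m + b.val) % m = b.val
    rw [Nat.add_mod_left, Nat.mod_eq_of_lt hb']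
  have hpq : p ≠ q := fun h => by rw [h] at hp; omega
  have hqr : q ≠ r := fun h => by rw [h] at hq; omega
  have hpr : p ≠ r := fun h => by rw [h] at hp; omega
  refine ⟨p, q, r, hpq, hqr, hpr, ?_, ?_, ?_, ?_⟩
  · simp [instT, flagsT, hp, hq]
  · simp [instT, flagsT, hq, hr]
  · simp [instT, flagsT, hp, hr]
  · show wT hm e Δ x p q + wT hm e Δ x q r + wT hm e Δ x p r = 0
    rw [sum_012 hm e Δ x p q r hp hq hr, hlp, hlq, hrk]
    have : e (a, b) = c := by rw [ha, hb]; simp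
    rw [this, hx]
    ring

/-- The affine form of the hidden coordinates that has the same value. -/
noncomputable def rform (hm : 0 < m) (e : Fin m × Fin m ≃ Fin N) (Δ : ℕ)
    (q : (Fin n → Fin n → ℝ) × ℝ) : Form (Fin N) :=
  (fun c => ∑ i, ∑ j, q.1 i j * (chiT hm e i j c : ℝ),
    q.2 + ∑ i, ∑ j, q.1 i j * (cstT m Δ i j : ℝ))

theorem ev_rform (hm : 0 < m) (e : Fin m × Fin m ≃ Fin N) (Δ : ℕ)
    (q : (Fin n → Fin n → ℝ) × ℝ) (x : Fin N → ℤ) :
    ev (rform hm e Δ q) (fun c => (x c : ℝ)) = value q (instT n hm e Δ x) := by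
  unfold ev rform value instT wT
  simp only
  have h1 : ∑ c, (∑ i, ∑ j, q.1 i j * (chiT hm e i j c : ℝ)) * (x c : ℝ) =
      ∑ i, ∑ j, q.1 i j * ∑ c, (chiT hm e i j c : ℝ) * (x c : ℝ) := by
    simp_rw [Finset.sum_mul, Finset.mul_sum]
    rw [Finset.sum_comm]
    refine Finset.sum_congr rfl fun i _ => ?_
    rw [Finset.sum_comm]
    refine Finset.sum_congr rfl fun j _ => Finset.sum_congr rfl fun c _ => by ring
  rw [h1, add_assoc, ← Finset.sum_add_distrib]
  congr 1
  refine Finset.sum_congr rfl fun i _ => ?_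
  rw [← Finset.sum_add_distrib]
  refine Finset.sum_congr rfl fun j _ => ?_
  push_cast
  ring

/-- The strategy in the hidden coordinates. -/
noncomputable def treeOf {D R : ℕ} (A : Alg n D R) (hm : 0 < m) (e : Fin m × Fin m ≃ Fin N)
    (Δ : ℕ) (ρ : Fin R → Bool) : Tree (Fin N) (Fin D) :=
  fun h l => rform hm e Δ (A.ask (flagsT n m) ρ h l)

theorem run_treeOf {D R : ℕ} (A : Alg n D R) (hm : 0 < m) (e : Fin m × Fin m ≃ Fin N)
    (Δ : ℕ) (ρ : Fin R → Bool) (x : Fin N → ℤ) (t : ℕ) :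
    run (treeOf A hm e Δ ρ) (fun c => (x c : ℝ)) t = A.signs (instT n hm e Δ x) ρ t := by
  induction t with
  | zero => rfl
  | succ t ih =>
    simp only [run, Alg.signs]
    rw [ih]
    congr 2
    funext l
    simp only [ans, treeOf]
    rw [ev_rform]
    rfl

end Pool.Agent.Helper14.RR
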