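import Pool.Agent.Helper14.RR.Defs

set_option autoImplicit false

/-!
The upper bound: in every round the interval of possible values of every weight is divided into
`b` parts.
-/

namespace Pool.Agent.Helper14.RR

variable {n b : ℕ}

/-- The index of a query: a cell and a threshold. -/
def dec (n b : ℕ) : Fin (n * n * b) ≃ (Fin n × Fin n) × Fin b :=
  finProdFinEquiv.symm.trans (Equiv.prodCongr finProdFinEquiv.symm (Equiv.refl _))

/-- Number of thresholds of the cell `(i, j)` that are at most the weight. -/
def cnt (s : Fin (n * n * b) → SignType) (i j : Fin n) : ℕ :=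
  (Finset.univ.filter fun c : Fin b => s ((dec n b).symm ((i, j), c)) ≠ -1).card

/-- The lower ends of the intervals, and the number of rounds. -/
def low (n b t : ℕ) (h : List (Fin (n * n * b) → SignType)) : (Fin n → Fin n → ℤ) × ℕ :=
  h.foldl (fun p s => (fun i j => p.1 i j + ((cnt s i j : ℤ) - 1) * (b : ℤ) ^ (t - p.2 - 1),
    p.2 + 1)) (fun _ _ => -((n : ℤ) ^ 300), 0)

theorem low_append (t : ℕ) (h : List (Fin (n * n * b) → SignType))
    (s : Fin (n * n * b) → SignType) : low n b t (h ++ [s]) =
    (fun i j => (low n b t h).1 i j + ((cnt s i j : ℤ) - 1) * (b : ℤ) ^ (t - (low n b t h).2 - 1),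
      (low n b t h).2 + 1) := by
  unfold low
  rw [List.foldl_append]
  rfl

theorem low_snd (t : ℕ) (h : List (Fin (n * n * b) → SignType)) :
    (low n b t h).2 = h.length := by
  induction h using List.reverseRecOn with
  | nil => rfl
  | append_singleton h s ih => rw [low_append, List.length_append, ih]; rfl

open Classical in
/-- The algorithm. -/
noncomputable def searchAlg (n b t : ℕ) : Alg n (n * n * b) 0 where
  ask _ _ h l := (fun i j => if (i, j) = (dec n b l).1 then 1 else 0,
    -(((low n b t h).1 (dec n b l).1.1 (dec n b l).1.2 +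
      ((dec n b l).2 : ℕ) * (b : ℤ) ^ (t - h.length - 1) : ℤ) : ℝ))
  out fl _ h := decide (Inst.Yes ⟨fl, (low n b t h).1⟩)

theorem value_cell (I : Inst n) (p : Fin n × Fin n) (z : ℤ) :
    value ((fun i j => if (i, j) = p then (1 : ℝ) else 0), -(z : ℝ)) I =
      ((I.wt p.1 p.2 - z : ℤ) : ℝ) := by
  unfold value
  have h1 : ∑ i, ∑ j, (if (i, j) = p then (1 : ℝ) else 0) * (I.wt i j : ℝ) =
      (I.wt p.1 p.2 : ℝ) := by
    rw [← Finset.sum_product' Finset.univ Finset.univ
      (fun i j => (if (i, j) = p then (1 : ℝ) else 0) * (I.wt i j : ℝ))]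
    rw [Finset.sum_eq_single p]
    · simp
    · rintro ⟨i, j⟩ _ hne
      simp [hne]
    · intro h
      exact absurd (Finset.mem_product.2 ⟨Finset.mem_univ _, Finset.mem_univ _⟩) h
  rw [h1]
  push_cast
  ring

theorem card_lt_div (W x : ℤ) (hW : 0 < W) (hx0 : 0 ≤ x) (hx : x < b * W) :
    ((Finset.univ.filter fun c : Fin b => ¬ (x - (c : ℕ) * W < 0)).card : ℤ) = x / W + 1 := by
  have hq0 : 0 ≤ x / W := Int.ediv_nonneg hx0 hW.le
  have hqb : x / W < b := by
    apply Int.ediv_lt_of_lt_mul hW
    exact hx
  obtain ⟨q, hq⟩ := Int.eq_ofNat_of_zero_le hq0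
  rw [hq] at hqb ⊢
  have hqb' : q < b := by exact_mod_cast hqb
  have h1 : (Finset.univ.filter fun c : Fin b => ¬ (x - (c : ℕ) * W < 0)) =
      Finset.univ.filter fun c : Fin b => (c : ℕ) ≤ q := by
    apply Finset.filter_congr
    intro c _
    have h2 : ((c : ℕ) : ℤ) ≤ x / W ↔ (c : ℕ) * W ≤ x := Int.le_ediv_iff_mul_le hW
    rw [hq] at h2
    constructor
    · intro h3
      have : ((c : ℕ) : ℤ) ≤ (q : ℤ) := h2.2 (by linarith)
      exact_mod_cast this
    · intro h3
      have h4 : ((c : ℕ) : ℤ) ≤ (q : ℤ) := by exact_mod_cast h3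
      have := h2.1 h4
      linarith
  rw [h1]
  have h3 : (Finset.univ.filter fun c : Fin b => (c : ℕ) ≤ q).card = q + 1 := by
    have h4 : (Finset.univ.filter fun c : Fin b => (c : ℕ) ≤ q) =
        Finset.univ.filter fun c : Fin b => (c : ℕ) < q + 1 := by
      apply Finset.filter_congr
      intro c _
      omega
    rw [h4]
    have h5 := Fin.card_filter_val_lt (n := b) (m := q + 1)
    rw [h5]
    omega
  rw [h3]
  push_cast
  ring

theorem invariant (t : ℕ) (hb : 0 < b) (hbt : 2 * n ^ 300 + 1 ≤ b ^ t) (I : Inst n)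
    (hI : I.Valid) (ρ : Fin 0 → Bool) (k : ℕ) (hk : k ≤ t) (i j : Fin n) :
    (low n b t ((searchAlg n b t).signs I ρ k)).1 i j ≤ I.wt i j ∧
      I.wt i j < (low n b t ((searchAlg n b t).signs I ρ k)).1 i j + (b : ℤ) ^ (t - k) := by
  have hlen : ∀ k, ((searchAlg n b t).signs I ρ k).length = k := by
    intro k
    induction k with
    | zero => rfl
    | succ k ih => simp [Alg.signs, ih]
  induction k with
  | zero =>
    have h1 := abs_le.1 (hI.2.2.2 i j)
    have h2 : (2 : ℤ) * (n : ℤ) ^ 300 + 1 ≤ (b : ℤ) ^ t := by exact_mod_cast hbt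
    have h3 : (low n b t ((searchAlg n b t).signs I ρ 0)).1 i j = -((n : ℤ) ^ 300) := rfl
    rw [h3, Nat.sub_zero]
    exact ⟨h1.1, by linarith [h1.2]⟩
  | succ k ih =>
    have ih' := ih (by omega)
    set h := (searchAlg n b t).signs I ρ k with hh
    set lo := (low n b t h).1 i j with hlo
    set W : ℤ := (b : ℤ) ^ (t - k - 1) with hW
    have hbZ : (0 : ℤ) < b := by exact_mod_cast hb
    have hW0 : 0 < W := by positivity
    have hbW : (b : ℤ) ^ (t - k) = b * W := by
      rw [hW, ← pow_succ']
      congr 1
      omega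
    rw [hbW] at ih'
    have hsn : (searchAlg n b t).signs I ρ (k + 1) = h ++ [fun l => SignType.sign
        (value ((searchAlg n b t).ask I.flag ρ h l) I)] := rfl
    rw [hsn, low_append]
    set s : Fin (n * n * b) → SignType := fun l => SignType.sign
        (value ((searchAlg n b t).ask I.flag ρ h l) I) with hs
    have hsnd : (low n b t h).2 = k := by rw [low_snd, hh, hlen]
    have hcnt : (cnt s i j : ℤ) = (I.wt i j - lo) / W + 1 := by
      have h1 : cnt s i j = (Finset.univ.filter fun c : Fin b =>
          ¬ ((I.wt i j - lo) - (c : ℕ) * W < 0)).card := by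
        unfold cnt
        congr 1
        apply Finset.filter_congr
        intro c _
        have h2 : value ((searchAlg n b t).ask I.flag ρ h ((dec n b).symm ((i, j), c))) I =
            (((I.wt i j - lo) - (c : ℕ) * W : ℤ) : ℝ) := by
          simp only [searchAlg, Equiv.apply_symm_apply]
          rw [value_cell]
          congr 1
          rw [hh, hlen]
          ring
        rw [hs]
        simp only
        rw [h2, ne_eq, sign_eq_neg_one_iff]
        rw [Int.cast_lt_zero]
      rw [h1]
      exact card_lt_div W _ hW0 (by linarith [ih'.1]) (by linarith [ih'.2])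
    simp only
    rw [hsnd, hcnt, ← hlo, ← hW]
    have h5 := Int.emod_add_mul_ediv (I.wt i j - lo) W
    have h6 := Int.emod_nonneg (I.wt i j - lo) hW0.ne'
    have h7 := Int.emod_lt_of_pos (I.wt i j - lo) hW0
    have h8 : (b : ℤ) ^ (t - (k + 1)) = W := by
      rw [hW]
      congr 1
    rw [h8]
    have h9 : ((I.wt i j - lo) / W + 1 - 1) * W = W * ((I.wt i j - lo) / W) := by ring
    rw [h9]
    constructor <;> linarith

/-- The upper bound. -/
theorem upper (n t b : ℕ) (hbt : 2 * n ^ 300 + 1 ≤ b ^ t) :
    ∃ A : Alg n (n * n * b) 0, A.Decides t := by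
  classical
  rcases Nat.eq_zero_or_pos b with hb0 | hb
  · -- then t = 0 and n = 0
    rcases Nat.eq_zero_or_pos t with ht | ht
    · subst ht
      rw [pow_zero] at hbt
      have hn : n = 0 := by
        by_contra hne
        have : 1 ≤ n ^ 300 := Nat.one_le_pow _ _ (Nat.pos_of_ne_zero hne)
        omega
      subst hn
      refine ⟨⟨fun _ _ _ _ => (fun _ _ => 0, 0), fun _ _ _ => false⟩, fun I _ => ?_⟩
      have hno : ¬ I.Yes := by
        rintro ⟨i, _⟩
        exact Fin.elim0 i
      have : (Finset.univ.filter fun ρ : Fin 0 → Bool => (Alg.output (n := 0) (D := 0 * 0 * b)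
          ⟨fun _ _ _ _ => (fun _ _ => 0, 0), fun _ _ _ => false⟩ 0 I ρ = true ↔ I.Yes)) =
          Finset.univ := by
        apply Finset.filter_true_of_mem
        intro ρ _
        simp [Alg.output, hno]
      rw [this]
      simp
    · rw [hb0, zero_pow ht.ne'] at hbt
      omega
  · refine ⟨searchAlg n b t, fun I hI => ?_⟩
    have hout : ∀ ρ : Fin 0 → Bool, ((searchAlg n b t).output t I ρ = true ↔ I.Yes) := by
      intro ρ
      have hlow : (low n b t ((searchAlg n b t).signs I ρ t)).1 = I.wt := by
        funext i j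
        have h1 := invariant t hb hbt I hI ρ t le_rfl i j
        rw [Nat.sub_self, pow_zero] at h1
        omega
      unfold Alg.output
      simp only [searchAlg] at hlow ⊢
      rw [decide_eq_true_iff, hlow]
    have : (Finset.univ.filter fun ρ : Fin 0 → Bool =>
        ((searchAlg n b t).output t I ρ = true ↔ I.Yes)) = Finset.univ := by
      apply Finset.filter_true_of_mem
      intro ρ _
      exact hout ρ
    have h2 : (Finset.univ.filter fun ρ : Fin 0 → Bool =>
        ((searchAlg n b t).output t I ρ = true ↔ I.Yes)).card = 1 := by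
      rw [this]
      simp
    have h3 : 2 * 2 ^ 0 ≤ 3 * (Finset.univ.filter fun ρ : Fin 0 → Bool =>
        ((searchAlg n b t).output t I ρ = true ↔ I.Yes)).card := by
      rw [h2]
      norm_num
    convert h3

end Pool.Agent.Helper14.RR
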