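import Pool.Agent.Helper14.RR.Numerics
import Pool.Agent.Helper14.RR.Upper

/-!
# Exact Triangle by linear tests in a bounded number of rounds

The model (file `Pool/Agent/Helper14/RR/Defs.lean`): a randomized algorithm of unlimited computing
power knows all edge flags and its random bits. It works in rounds. In every round it asks for the
signs (negative, zero or positive) of `D` affine forms `b + ∑ a i j * w i j` in the weights with
arbitrary real coefficients; all cells of the matrix may occur in every form. The forms of a round
depend in an arbitrary way on the signs received in the earlier rounds.

Theorem: with `t ≤ 70` rounds a bounded-error algorithm on the valid instances needs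
`D ≥ n ^ (2 + 1 / t) / (C log log n)` forms per round, for all large `n`, with an absolute constant
`C`. In particular no algorithm that asks all its linear tests at once can save more than a factor
`C log log n` against the `n ^ 3` triples. Conversely `t` rounds with `D = n ^ 2 * b` forms suffice
if `b ^ t ≥ 2 * n ^ 300 + 1`: the excess exponent over `2` is of order `1 / t`.

Idea of the proof. Hidden are the weights `x e` between the first two classes of a complete
tripartite graph, `N = (n / 3) ^ 2` numbers, uniform in `[0, m Δ)`; the third class provides the
numbers `k Δ`, `k < m`, and there is a zero triangle if and only if some `x e` is one of them.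
Parallel copies make the error smaller than `1 / log n`. Nested cubes show that the integer points
can be replaced by real points. The set of real points with a given transcript is a convex set
`K`, and there are at most `(C D / N) ^ (t N)` of them by the Sauer-Shelah lemma. The volume of the
section `x e = a` of `K` is a quasi-concave function of `a` by the Brunn-Minkowski inequality.
Therefore, if the sections at the `k Δ` are small (few errors on planted instances), then `K` is up
to a small part contained in one interval of length `Δ` in the direction `e`. So the volume of a
typical cell is at most `(C Δ) ^ N`, and there are at least `(m / C) ^ N` cells.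
-/

set_option autoImplicit false

namespace Pool.Agent.Helper14.RRFinal

open Pool.Agent.Helper14.RR

/-- Linear tests in rounds: lower and upper bound. -/
theorem result :
    (∃ C : ℝ, 0 < C ∧ ∃ n₀ : ℕ, ∀ n : ℕ, n₀ ≤ n → ∀ t : ℕ, 1 ≤ t → t ≤ 70 →
      ∀ (D R : ℕ) (A : Alg n D R), A.Decides t →
        (n : ℝ) ^ (2 + 1 / (t : ℝ)) ≤ C * D * Real.log (Real.log n)) ∧
    (∀ n t b : ℕ, 2 * n ^ 300 + 1 ≤ b ^ t → ∃ A : Alg n (n * n * b) 0, A.Decides t) :=
  ⟨lower, upper⟩

end Pool.Agent.Helper14.RRFinal
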