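import Pool.Agent.Helper14.RR.Assembly

set_option autoImplicit false

/-!
The choice of the parameters.
-/

namespace Pool.Agent.Helper14.RR

/-- `l = log n + 1`. -/
def ell (n : ℕ) : ℕ := Nat.log 2 n + 1

/-- Half of the number of the copies. -/
def kk (n : ℕ) : ℕ := 6 * (Nat.log 2 (64 * ell n) + 1)

theorem log2_gt : (0.69 : ℝ) < Real.log 2 := by
  have := Real.log_two_gt_d9
  linarith

theorem ell_le (n : ℕ) (hn : (192 : ℝ) ≤ Real.log n) : (ell n : ℝ) ≤ 2 * Real.log n := by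
  have hn0 : 0 < n := by
    rcases Nat.eq_zero_or_pos n with h | h
    · rw [h] at hn
      norm_num at hn
    · exact h
  have h1 : (2 : ℝ) ^ (Nat.log 2 n) ≤ n := by
    exact_mod_cast Nat.pow_log_le_self 2 hn0.ne'
  have h2 : (Nat.log 2 n : ℝ) * Real.log 2 ≤ Real.log n := by
    have := Real.log_le_log (by positivity) h1
    rwa [Real.log_pow] at this
  have h3 := log2_gt
  have h4 : (0 : ℝ) ≤ Nat.log 2 n := Nat.cast_nonneg _
  unfold ell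
  push_cast
  nlinarith

theorem one_le_ell (n : ℕ) : 1 ≤ ell n := by
  unfold ell
  omega

theorem lt_two_pow_ell (n : ℕ) : n < 2 ^ ell n := Nat.lt_pow_succ_log_self (by norm_num) n

theorem kk_le (n : ℕ) (hn : (192 : ℝ) ≤ Real.log n) :
    (kk n : ℝ) ≤ 24 * Real.log (Real.log n) := by
  have h1 := ell_le n hn
  have h2 : (2 : ℝ) ^ (Nat.log 2 (64 * ell n)) ≤ Real.log n ^ 2 := by
    have h3 : (2 : ℝ) ^ (Nat.log 2 (64 * ell n)) ≤ ((64 * ell n : ℕ) : ℝ) := by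
      have h4 : 64 * ell n ≠ 0 := by
        have := one_le_ell n
        omega
      exact_mod_cast Nat.pow_log_le_self 2 h4
    push_cast at h3
    nlinarith
  have h5 : (Nat.log 2 (64 * ell n) : ℝ) * Real.log 2 ≤ 2 * Real.log (Real.log n) := by
    have := Real.log_le_log (by positivity) h2
    rw [Real.log_pow, Real.log_pow] at this
    exact_mod_cast this
  have h6 : (5 : ℝ) ≤ Real.log (Real.log n) := by
    have h7 : Real.exp 5 ≤ 192 := by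
      have h8 : Real.exp 1 < 2.7182818286 := Real.exp_one_lt_d9
      have h9 : Real.exp 5 = Real.exp 1 ^ 5 := by
        rw [← Real.exp_nat_mul]
        norm_num
      rw [h9]
      have h10 : Real.exp 1 ^ 5 ≤ (2.7182818286 : ℝ) ^ 5 :=
        pow_le_pow_left₀ (Real.exp_pos 1).le h8.le 5
      refine h10.trans ?_
      norm_num
    have h11 : (0 : ℝ) < Real.log n := by linarith
    rw [Real.le_log_iff_exp_le h11]
    linarith
  have h12 := log2_gt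
  have h13 : (0 : ℝ) ≤ (Nat.log 2 (64 * ell n) : ℝ) := Nat.cast_nonneg _
  unfold kk
  push_cast
  nlinarith

theorem pow_kk (n : ℕ) : 64 * (ell n : ℝ) * (8 / 9 : ℝ) ^ kk n ≤ 1 := by
  set j := Nat.log 2 (64 * ell n) + 1 with hj
  have h1 : (64 * ell n : ℕ) < 2 ^ j := Nat.lt_pow_succ_log_self (by norm_num) _
  have h2 : (64 : ℝ) * ell n ≤ 2 ^ j := by exact_mod_cast h1.le
  have h3 : (8 / 9 : ℝ) ^ kk n ≤ (1 / 2) ^ j := by
    have : kk n = 6 * j := rfl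
    rw [this, pow_mul]
    exact pow_le_pow_left₀ (by positivity) (by norm_num) j
  calc 64 * (ell n : ℝ) * (8 / 9 : ℝ) ^ kk n ≤ 2 ^ j * (1 / 2) ^ j := by gcongr
    _ = 1 := by
        rw [← mul_pow]
        norm_num

/-- Facts about large `n`. -/
theorem large : ∃ n0 : ℕ, ∀ n : ℕ, n0 ≤ n → (192 : ℝ) ≤ Real.log n ∧
    4496 * (ell n : ℝ) * kk n ≤ (n : ℝ) ^ (1 / 4 : ℝ) ∧ (64 * 6 ^ 70 : ℝ) < n ∧ 100 ≤ n := by
  have e1 : ∀ᶠ x : ℝ in Filter.atTop, (192 : ℝ) ≤ Real.log x :=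
    Real.tendsto_log_atTop.eventually_ge_atTop 192
  have e2 : ∀ᶠ x : ℝ in Filter.atTop, Real.log x ≤ x ^ (1 / 16 : ℝ) := by
    have h := (isLittleO_log_rpow_atTop (show (0 : ℝ) < 1 / 16 by norm_num)).bound
      (show (0 : ℝ) < 1 by norm_num)
    filter_upwards [h, Filter.eventually_gt_atTop (1 : ℝ)] with x hx hx1
    rw [Real.norm_of_nonneg (Real.log_nonneg hx1.le),
      Real.norm_of_nonneg (Real.rpow_nonneg (by linarith) _), one_mul] at hx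
    exact hx
  have e3 : ∀ᶠ x : ℝ in Filter.atTop, (4496 * 48 : ℝ) ≤ x ^ (1 / 8 : ℝ) :=
    (tendsto_rpow_atTop (show (0 : ℝ) < 1 / 8 by norm_num)).eventually_ge_atTop _
  have e4 : ∀ᶠ x : ℝ in Filter.atTop, (64 * 6 ^ 70 : ℝ) < x := Filter.eventually_gt_atTop _
  have e5 : ∀ᶠ x : ℝ in Filter.atTop, (100 : ℝ) ≤ x := Filter.eventually_ge_atTop _
  have e := tendsto_natCast_atTop_atTop (R := ℝ) |>.eventually
    (e1.and (e2.and (e3.and (e4.and e5))))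
  obtain ⟨n0, hn0⟩ := Filter.eventually_atTop.1 e
  refine ⟨n0, fun n hn => ?_⟩
  obtain ⟨h1, h2, h3, h4, h5⟩ := hn0 n hn
  refine ⟨h1, ?_, h4, by exact_mod_cast h5⟩
  have hx0 : (0 : ℝ) < n := by linarith
  have k1 := ell_le n h1
  have k2 := kk_le n h1
  have k3 : Real.log (Real.log n) ≤ Real.log n := by
    have := Real.log_le_sub_one_of_pos (show (0 : ℝ) < Real.log n by linarith)
    linarith
  have k4 : (0 : ℝ) ≤ ell n := Nat.cast_nonneg _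
  have k5 : (0 : ℝ) ≤ kk n := Nat.cast_nonneg _
  calc 4496 * (ell n : ℝ) * kk n ≤ 4496 * (2 * Real.log n) * (24 * Real.log n) := by
        gcongr
        linarith
    _ = 4496 * 48 * (Real.log n * Real.log n) := by ring
    _ ≤ (n : ℝ) ^ (1 / 8 : ℝ) * ((n : ℝ) ^ (1 / 16 : ℝ) * (n : ℝ) ^ (1 / 16 : ℝ)) := by
        gcongr
    _ = (n : ℝ) ^ (1 / 4 : ℝ) := by
        rw [← Real.rpow_add hx0, ← Real.rpow_add hx0]
        norm_num

theorem g_facts (S m a : ℕ) (hm : 0 < m) (ha : 1 ≤ a) :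
    1 ≤ S / m + 16 * a ∧ S ≤ m * (S / m + 16 * a) ∧
      m * (S / m + 16 * a) ≤ S + 16 * (a * m) ∧ 16 * (a * m) ≤ m * (S / m + 16 * a) := by
  have h1 := Nat.div_add_mod S m
  have h2 := Nat.mod_lt S hm
  have h3 : m * (S / m + 16 * a) = m * (S / m) + 16 * (a * m) := by ring
  have h4 : m ≤ a * m := Nat.le_mul_of_pos_left m ha
  rw [h3]
  refine ⟨le_trans (by omega : 1 ≤ 16 * a) (Nat.le_add_left _ _), ?_, ?_, ?_⟩
  · generalize m * (S / m) = u at *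
    omega
  · generalize m * (S / m) = u at *
    omega
  · exact Nat.le_add_left _ _

theorem cast_300 (a n : ℕ) (h : (a : ℝ) ≤ (n : ℝ) ^ (300 : ℝ)) : a ≤ n ^ 300 := by
  have h1 : (n : ℝ) ^ (300 : ℝ) = ((n ^ 300 : ℕ) : ℝ) := by
    rw [Nat.cast_pow, ← Real.rpow_natCast]
    congr 1
  rw [h1] at h
  exact Nat.cast_le.1 h

theorem size_bound (n t G : ℕ) (hx1 : (1 : ℝ) ≤ n) (ht1 : 1 ≤ t) (ht70 : t ≤ 70)
    (h4 : (G : ℝ) ≤ (n : ℝ) ^ (17 / 4 + 1 / (t : ℝ))) : G ^ t ≤ n ^ 300 := by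
  have hx0 : (0 : ℝ) < n := by linarith
  have h8 : (t : ℝ) ≤ 70 := by exact_mod_cast ht70
  have ht0 : (0 : ℝ) < t := by exact_mod_cast ht1
  apply cast_300
  rw [Nat.cast_pow]
  calc (G : ℝ) ^ t ≤ ((n : ℝ) ^ (17 / 4 + 1 / (t : ℝ))) ^ t :=
        pow_le_pow_left₀ (Nat.cast_nonneg _) h4 t
    _ = (n : ℝ) ^ ((17 / 4 + 1 / (t : ℝ)) * t) := by
        rw [← Real.rpow_natCast, ← Real.rpow_mul hx0.le]
    _ ≤ (n : ℝ) ^ (300 : ℝ) := by
        refine Real.rpow_le_rpow_of_exponent_le hx1 ?_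
        have : (17 / 4 + 1 / (t : ℝ)) * t = 17 / 4 * t + 1 := by
          field_simp
        rw [this]
        linarith

/-- Size of the product `m g`. -/
theorem G_bound (n m n' t k ℓ D G S : ℕ) (hx1 : (1 : ℝ) ≤ n) (ht1 : 1 ≤ t) (ht70 : t ≤ 70)
    (hmn : m ≤ n) (hNn : n' + 2 ≤ n * n) (hℓ1 : 1 ≤ ℓ) (hk1 : 1 ≤ k)
    (hD : (D : ℝ) ≤ (n : ℝ) ^ 2 * (n : ℝ) ^ (1 / (t : ℝ)))
    (hS : S = 32 * ℓ * ((n' + 2) * (t * (2 * k * D)))) (hG : G ≤ S + 16 * ((n' + 1) * m))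
    (hbig : 4496 * (ℓ : ℝ) * k ≤ (n : ℝ) ^ (1 / 4 : ℝ)) :
    (G : ℝ) ≤ (n : ℝ) ^ (17 / 4 + 1 / (t : ℝ)) := by
  have hx0 : (0 : ℝ) < n := by linarith
  have h5 : (G : ℝ) ≤ ((S + 16 * ((n' + 1) * m) : ℕ) : ℝ) := Nat.cast_le.2 hG
  have h6 : ((n' : ℝ) + 2) ≤ (n : ℝ) * n := by exact_mod_cast hNn
  have h7 : (m : ℝ) ≤ n := by exact_mod_cast hmn
  have h8 : (t : ℝ) ≤ 70 := by exact_mod_cast ht70
  have h10 : (1 : ℝ) ≤ (n : ℝ) ^ (1 / (t : ℝ)) := Real.one_le_rpow hx1 (by positivity)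
  have hℓr : (1 : ℝ) ≤ ℓ := by exact_mod_cast hℓ1
  have hkr : (1 : ℝ) ≤ k := by exact_mod_cast hk1
  have hDD : (0 : ℝ) ≤ D := Nat.cast_nonneg _
  have hn'0 : (0 : ℝ) ≤ n' := Nat.cast_nonneg _
  have h11 : (S : ℝ) ≤ 4480 * ℓ * k * ((n : ℝ) ^ 4 * (n : ℝ) ^ (1 / (t : ℝ))) := by
    rw [hS]
    push_cast
    calc 32 * (ℓ : ℝ) * (((n' : ℝ) + 2) * (t * (2 * k * D)))
        ≤ 32 * (ℓ : ℝ) * (((n : ℝ) * n) * (70 * (2 * k *
          ((n : ℝ) ^ 2 * (n : ℝ) ^ (1 / (t : ℝ)))))) := by gcongr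
      _ = 4480 * ℓ * k * ((n : ℝ) ^ 4 * (n : ℝ) ^ (1 / (t : ℝ))) := by ring
  have h12 : (16 : ℝ) * (((n' : ℝ) + 1) * m) ≤
      16 * ℓ * k * ((n : ℝ) ^ 4 * (n : ℝ) ^ (1 / (t : ℝ))) := by
    calc (16 : ℝ) * (((n' : ℝ) + 1) * m) ≤ 16 * (((n : ℝ) * n) * n) := by
          gcongr
          linarith
      _ = 16 * 1 * 1 * ((n : ℝ) ^ 3 * 1) := by ring
      _ ≤ 16 * ℓ * k * ((n : ℝ) ^ 4 * (n : ℝ) ^ (1 / (t : ℝ))) := by
          gcongr
          norm_num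
  calc (G : ℝ) ≤ (S : ℝ) + 16 * (((n' : ℝ) + 1) * m) := by
        push_cast at h5
        exact h5
    _ ≤ 4480 * ℓ * k * ((n : ℝ) ^ 4 * (n : ℝ) ^ (1 / (t : ℝ))) +
        16 * ℓ * k * ((n : ℝ) ^ 4 * (n : ℝ) ^ (1 / (t : ℝ))) := add_le_add h11 h12
    _ = (4496 * ℓ * k) * ((n : ℝ) ^ 4 * (n : ℝ) ^ (1 / (t : ℝ))) := by ring
    _ ≤ (n : ℝ) ^ (1 / 4 : ℝ) * ((n : ℝ) ^ 4 * (n : ℝ) ^ (1 / (t : ℝ))) := by gcongr
    _ = (n : ℝ) ^ (17 / 4 + 1 / (t : ℝ)) := by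
        rw [← Real.rpow_natCast (n : ℝ) 4, ← Real.rpow_add hx0, ← Real.rpow_add hx0]
        congr 1
        push_cast
        ring

/-- From the main inequality to the bound. -/
theorem conclude (n m N t k D r ℓ : ℕ) (hn : 1 ≤ n) (hm4 : n ≤ 4 * m) (hmn : m ≤ n)
    (hN : N = m * m) (hN1 : 1 ≤ N) (ht1 : 1 ≤ t) (ht70 : t ≤ 70) (h6 : (64 * 6 ^ 70 : ℝ) < n)
    (hℓ : n < 2 ^ ℓ) (hr : ℓ * r ≤ N) (LL : ℝ) (hLL : 1 ≤ LL) (hkr : (k : ℝ) ≤ 24 * LL)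
    (hmain : m ^ N ≤ 4 * 2 ^ N * m ^ r * patBound N (2 * k * D) ^ t) :
    (n : ℝ) ^ 2 * (n : ℝ) ^ (1 / (t : ℝ)) ≤ 2 ^ 19 * D * LL := by
  have hx0 : (0 : ℝ) < n := by exact_mod_cast hn
  have ht0 : (0 : ℝ) < t := by exact_mod_cast ht1
  have hNr : (0 : ℝ) < N := by exact_mod_cast hN1
  have hmr : m ^ r ≤ 2 ^ N := by
    calc m ^ r ≤ (2 ^ ℓ) ^ r := Nat.pow_le_pow_left (hmn.trans hℓ.le) r
      _ = 2 ^ (ℓ * r) := by rw [← pow_mul]
      _ ≤ 2 ^ N := Nat.pow_le_pow_right (by norm_num) hr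
  set M := max (2 * (2 * k * D)) N with hM
  have hP : (patBound N (2 * k * D) : ℝ) ≤ (Real.exp 1 * M / N) ^ N := by
    have h4 : patBound N (2 * k * D) ≤ ∑ j ∈ Finset.range (N + 1), M.choose j := by
      unfold patBound
      exact Finset.sum_le_sum fun j _ => Nat.choose_le_choose j (le_max_left _ _)
    refine le_trans (Nat.cast_le.2 h4) ?_
    exact sum_choose_le N M hN1 (le_max_right _ _)
  have hMr : (0 : ℝ) < M := lt_of_lt_of_le hNr (by exact_mod_cast le_max_right _ _)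
  set X := Real.exp 1 * M / N with hX
  have hX0 : 0 < X := by positivity
  have hfin : (m : ℝ) ^ N ≤ (16 * X ^ t) ^ N := by
    have h4 : ((m ^ N : ℕ) : ℝ) ≤
        ((4 * 2 ^ N * m ^ r * patBound N (2 * k * D) ^ t : ℕ) : ℝ) := by exact_mod_cast hmain
    push_cast at h4
    have hmr' : (m : ℝ) ^ r ≤ 2 ^ N := by exact_mod_cast hmr
    calc (m : ℝ) ^ N ≤ 4 * 2 ^ N * (m : ℝ) ^ r * (patBound N (2 * k * D) : ℝ) ^ t := h4
      _ ≤ 4 ^ N * 2 ^ N * 2 ^ N * (X ^ N) ^ t := by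
          gcongr
          exact le_self_pow₀ (by norm_num) (by omega)
      _ = (16 * X ^ t) ^ N := by
          rw [← mul_pow, ← mul_pow, mul_pow (16 : ℝ), ← pow_mul, ← pow_mul, mul_comm N t]
          norm_num
  have hmX : (m : ℝ) ≤ 16 * X ^ t :=
    le_of_pow_le_pow_left₀ (by omega) (by positivity) hfin
  have he : Real.exp 1 < 2.7182818286 := Real.exp_one_lt_d9
  have he0 : 0 < Real.exp 1 := Real.exp_pos 1
  have hm4r : (n : ℝ) ≤ 4 * m := by exact_mod_cast hm4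
  rcases le_or_gt (2 * (2 * k * D)) N with hsmall | hlarge
  · -- impossible
    exfalso
    have hMN : M = N := max_eq_right hsmall
    have hX6 : X ≤ 6 := by
      rw [hX, hMN, mul_div_assoc, div_self hNr.ne']
      linarith
    have h4 : X ^ t ≤ 6 ^ 70 := by
      calc X ^ t ≤ 6 ^ t := pow_le_pow_left₀ hX0.le hX6 t
        _ ≤ 6 ^ 70 := pow_le_pow_right₀ (by norm_num) ht70
    have h5 : (n : ℝ) ≤ 64 * 6 ^ 70 := by
      calc (n : ℝ) ≤ 4 * m := hm4r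
        _ ≤ 4 * (16 * X ^ t) := by gcongr
        _ ≤ 4 * (16 * 6 ^ 70) := by gcongr
        _ = 64 * 6 ^ 70 := by ring
    linarith
  · have hMN : M = 2 * (2 * k * D) := max_eq_left hlarge.le
    have hXe : X = 4 * Real.exp 1 * k * D / N := by
      rw [hX, hMN]
      push_cast
      ring
    -- n^(1/t) ≤ 64 X
    have h4 : (n : ℝ) ≤ (64 * X) ^ t := by
      calc (n : ℝ) ≤ 4 * m := hm4r
        _ ≤ 4 * (16 * X ^ t) := by gcongr
        _ = 64 * X ^ t := by ring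
        _ ≤ 64 ^ t * X ^ t := by
            gcongr
            exact le_self_pow₀ (by norm_num) (by omega)
        _ = (64 * X) ^ t := (mul_pow _ _ _).symm
    have h5 : (n : ℝ) ^ (1 / (t : ℝ)) ≤ 64 * X := by
      calc (n : ℝ) ^ (1 / (t : ℝ)) ≤ ((64 * X) ^ t) ^ (1 / (t : ℝ)) :=
            Real.rpow_le_rpow hx0.le h4 (by positivity)
        _ = 64 * X := by
            rw [← Real.rpow_natCast, ← Real.rpow_mul (by positivity)]
            have : (t : ℝ) * (1 / (t : ℝ)) = 1 := by field_simp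
            rw [this, Real.rpow_one]
    have h6' : (n : ℝ) ^ 2 ≤ 16 * N := by
      have h7 : (N : ℝ) = (m : ℝ) * m := by
        rw [hN]
        push_cast
        ring
      rw [h7]
      nlinarith
    have hDD : (0 : ℝ) ≤ D := Nat.cast_nonneg _
    have hkk0 : (0 : ℝ) ≤ k := Nat.cast_nonneg _
    calc (n : ℝ) ^ 2 * (n : ℝ) ^ (1 / (t : ℝ)) ≤ (16 * N) * (64 * X) := by gcongr
      _ = 4096 * Real.exp 1 * k * D := by
          rw [hXe]
          field_simp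
          ring
      _ ≤ 4096 * 2.7182818286 * (24 * LL) * D := by gcongr
      _ ≤ 2 ^ 19 * D * LL := by
          have h7 : (0 : ℝ) ≤ D * LL := by positivity
          nlinarith

/-- The lower bound. -/
theorem lower : ∃ C : ℝ, 0 < C ∧ ∃ n0 : ℕ, ∀ n : ℕ, n0 ≤ n → ∀ t : ℕ, 1 ≤ t → t ≤ 70 →
    ∀ (D R : ℕ) (A : Alg n D R), A.Decides t →
    (n : ℝ) ^ (2 + 1 / (t : ℝ)) ≤ C * D * Real.log (Real.log n) := by
  obtain ⟨n0, hn0⟩ := large
  refine ⟨2 ^ 19, by positivity, n0, ?_⟩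
  intro n hn t ht1 ht70 D R A hdec
  obtain ⟨hlog, hbig, h6, h100⟩ := hn0 n hn
  have hx0 : (0 : ℝ) < n := by exact_mod_cast (by omega : 0 < n)
  have hx1 : (1 : ℝ) ≤ n := by exact_mod_cast (by omega : 1 ≤ n)
  have hLL : (1 : ℝ) ≤ Real.log (Real.log n) := by
    rw [Real.le_log_iff_exp_le (by linarith)]
    have : Real.exp 1 < 2.7182818286 := Real.exp_one_lt_d9
    linarith
  have hexp1 : (n : ℝ) ^ (2 + 1 / (t : ℝ)) = (n : ℝ) ^ 2 * (n : ℝ) ^ (1 / (t : ℝ)) := by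
    rw [Real.rpow_add hx0]
    norm_num
  rcases le_or_gt ((n : ℝ) ^ (2 + 1 / (t : ℝ))) D with hD | hD
  · have h1 : (0 : ℝ) ≤ D := Nat.cast_nonneg _
    nlinarith
  -- parameters
  obtain ⟨m, hm0, h3m, hm4, hmn, hm25⟩ : ∃ m : ℕ, 0 < m ∧ 3 * m ≤ n ∧ n ≤ 4 * m ∧ m ≤ n ∧
      25 ≤ m := ⟨n / 3, by omega, by omega, by omega, by omega, by omega⟩
  obtain ⟨n', hn'⟩ : ∃ n', m * m = n' + 1 := ⟨m * m - 1, by
    have : 0 < m * m := Nat.mul_pos hm0 hm0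
    omega⟩
  have e : Fin m × Fin m ≃ Fin (n' + 1) := finProdFinEquiv.trans (finCongr hn')
  have hℓ1 : 1 ≤ ell n := one_le_ell n
  have hk1' : 1 ≤ kk n := by
    unfold kk
    omega
  have hℓlog : (ell n : ℝ) ≤ 2 * Real.log n := ell_le n hlog
  have hkr : (kk n : ℝ) ≤ 24 * Real.log (Real.log n) := kk_le n hlog
  have hδ := pow_kk n
  have hlt := lt_two_pow_ell n
  generalize ell n = ℓ at *
  generalize kk n = k at *
  have hℓn : 2 * ℓ ≤ n' + 1 := by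
    have h1 : ((2 * ℓ : ℕ) : ℝ) ≤ ((n' + 1 : ℕ) : ℝ) := by
      rw [← hn']
      push_cast
      have h2 : Real.log n ≤ n := by
        have := Real.log_le_sub_one_of_pos hx0
        linarith
      have h3 : (n : ℝ) ≤ 4 * m := by exact_mod_cast hm4
      have h4 : (25 : ℝ) ≤ m := by exact_mod_cast hm25
      nlinarith
    exact_mod_cast h1
  obtain ⟨r, hr1, hrlow, hrup⟩ : ∃ r : ℕ, 1 ≤ r ∧ n' + 1 ≤ 2 * (ℓ * r) ∧ ℓ * r ≤ n' + 1 := by
    refine ⟨(n' + 1) / ℓ, (Nat.le_div_iff_mul_le (by omega)).2 (by omega), ?_,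
      Nat.mul_div_le _ _⟩
    have h1 := Nat.div_add_mod (n' + 1) ℓ
    have h2 := Nat.mod_lt (n' + 1) (show 0 < ℓ by omega)
    generalize ℓ * ((n' + 1) / ℓ) = u at *
    omega
  have hδ0 : (0 : ℝ) < (8 / 9 : ℝ) ^ k := by positivity
  have hℓr : (1 : ℝ) ≤ ℓ := by exact_mod_cast hℓ1
  have hk1 : 32 * (8 / 9 : ℝ) ^ k ≤ 1 := by nlinarith
  have hk2 : 32 * (8 / 9 : ℝ) ^ k * ((n' : ℝ) + 1) ≤ r := by
    have h1 : ((n' : ℝ) + 1) ≤ 2 * (ℓ * r) := by exact_mod_cast hrlow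
    have h2 : (0 : ℝ) ≤ r := Nat.cast_nonneg _
    calc 32 * (8 / 9 : ℝ) ^ k * ((n' : ℝ) + 1) ≤ 32 * (8 / 9 : ℝ) ^ k * (2 * (ℓ * r)) := by
          gcongr
      _ = (64 * ℓ * (8 / 9 : ℝ) ^ k) * r := by ring
      _ ≤ 1 * r := by gcongr
      _ = r := one_mul _
  obtain ⟨S, hS⟩ : ∃ S, S = 32 * ℓ * ((n' + 2) * (t * (2 * k * D))) := ⟨_, rfl⟩
  obtain ⟨hg1, hSg, hSg2, hN⟩ := g_facts S m (n' + 1) hm0 (by omega)
  generalize S / m + 16 * (n' + 1) = g at *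
  have h2 : 8 * (t * (2 * k * D) * (n' + 2)) ≤ m * g := by
    refine le_trans ?_ hSg
    rw [hS]
    have : t * (2 * k * D) * (n' + 2) = (n' + 2) * (t * (2 * k * D)) := by ring
    rw [this]
    refine Nat.mul_le_mul_right _ ?_
    omega
  have h3 : 16 * ((n' + 1) * (t * (2 * k * D) * (n' + 1))) ≤ r * (m * g) := by
    calc 16 * ((n' + 1) * (t * (2 * k * D) * (n' + 1)))
        ≤ 16 * (2 * (ℓ * r) * (t * (2 * k * D) * (n' + 2))) := by
          gcongr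
          omega
      _ = r * S := by rw [hS]; ring
      _ ≤ r * (m * g) := Nat.mul_le_mul_left _ hSg
  -- the size of the weights
  have hNn : n' + 2 ≤ n * n := by
    have h4 : 3 * m * (3 * m) ≤ n * n := Nat.mul_le_mul h3m h3m
    have h5 : 3 * m * (3 * m) = 9 * (m * m) := by ring
    omega
  have hDle : (D : ℝ) ≤ (n : ℝ) ^ 2 * (n : ℝ) ^ (1 / (t : ℝ)) := by
    rw [← hexp1]
    exact hD.le
  have hL : (m * g) ^ t ≤ n ^ 300 := size_bound n t (m * g) hx1 ht1 ht70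
    (G_bound n m n' t k ℓ D (m * g) S hx1 ht1 ht70 hmn hNn hℓ1 hk1' hDle hS hSg2 hbig)
  have hmain := alg_bound A hm0 h3m e g t k r hg1 ht1 hr1 hL hdec hk1 hk2 hN h2 h3
  rw [hexp1]
  exact conclude n m (n' + 1) t k D r ℓ (by omega) hm4 hmn hn'.symm (by omega) ht1 ht70 h6 hlt
    hrup _ hLL hkr hmain

end Pool.Agent.Helper14.RR
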