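import Mathlib

set_option autoImplicit false

/-!
Brunn-Minkowski (multiplicative form) for convex bodies, by induction on the dimension, and
quasi-concavity of the volumes of the sections of a convex body.
-/

namespace Pool.Agent.Helper14.RR

open MeasureTheory Set
open scoped ENNReal

/-- Weighted AM-GM in `ℝ≥0∞`. -/
theorem amgm (a b : ℝ) (ha : 0 < a) (hb : 0 < b) (hab : a + b = 1) (X Y : ℝ≥0∞) :
    X ^ a * Y ^ b ≤ ENNReal.ofReal a * X + ENNReal.ofReal b * Y := by
  by_cases hX : X = ⊤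
  · rw [hX, ENNReal.mul_top (by positivity)]
    simp
  by_cases hY : Y = ⊤
  · rw [hY, ENNReal.mul_top (a := ENNReal.ofReal b) (by positivity)]
    simp
  lift X to NNReal using hX
  lift Y to NNReal using hY
  have ca : ((a.toNNReal : NNReal) : ℝ) = a := Real.coe_toNNReal a ha.le
  have cb : ((b.toNNReal : NNReal) : ℝ) = b := Real.coe_toNNReal b hb.le
  have h := NNReal.geom_mean_le_arith_mean2_weighted a.toNNReal b.toNNReal X Y
    (by rw [← NNReal.coe_inj, NNReal.coe_add, ca, cb, hab, NNReal.coe_one])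
  rw [ca, cb] at h
  rw [ENNReal.ofReal, ENNReal.ofReal, ← ENNReal.coe_rpow_of_nonneg _ ha.le,
    ← ENNReal.coe_rpow_of_nonneg _ hb.le]
  exact_mod_cast h

theorem mink_aux (a b : ℝ) (ha : 0 < a) (hb : 0 < b) (I J K : Set ℝ) (hI : I.OrdConnected)
    (hJ : J.OrdConnected) (h : ∀ x ∈ I, ∀ y ∈ J, a * x + b * y ∈ K)
    (x x' : ℝ) (hx : x ∈ I) (hx' : x' ∈ I) (hxx : x ≤ x') (y y' : ℝ) (hy : y ∈ J) (hy' : y' ∈ J)
    (hyy : y ≤ y') : ENNReal.ofReal (a * (x' - x) + b * (y' - y)) ≤ volume K := by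
  have hsub : Icc (a * x + b * y) (a * x' + b * y') ⊆ K := by
    intro z hz
    set d := a * (x' - x) + b * (y' - y) with hd
    have hd0 : 0 ≤ d := by
      have := mul_nonneg ha.le (sub_nonneg.2 hxx)
      have := mul_nonneg hb.le (sub_nonneg.2 hyy)
      linarith
    rcases hd0.eq_or_lt with h0 | h0
    · have : z = a * x + b * y := by
        have h1 := hz.1
        have h2 := hz.2
        have h3 : a * x' + b * y' = a * x + b * y := by
          have : d = (a * x' + b * y') - (a * x + b * y) := by rw [hd]; ring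
          linarith
        linarith
      rw [this]
      exact h x hx y hy
    · set θ := (z - (a * x + b * y)) / d with hθ
      have hθ0 : 0 ≤ θ := div_nonneg (by linarith [hz.1]) h0.le
      have hθ1 : θ ≤ 1 := by
        rw [hθ, div_le_one h0]
        have : d = (a * x' + b * y') - (a * x + b * y) := by rw [hd]; ring
        linarith [hz.2]
      have h1 : x + θ * (x' - x) ∈ I := by
        refine hI.out hx hx' ⟨?_, ?_⟩
        · have := mul_nonneg hθ0 (sub_nonneg.2 hxx)
          linarith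
        · have := mul_le_mul_of_nonneg_right hθ1 (sub_nonneg.2 hxx)
          linarith
      have h2 : y + θ * (y' - y) ∈ J := by
        refine hJ.out hy hy' ⟨?_, ?_⟩
        · have := mul_nonneg hθ0 (sub_nonneg.2 hyy)
          linarith
        · have := mul_le_mul_of_nonneg_right hθ1 (sub_nonneg.2 hyy)
          linarith
      have h3 : a * (x + θ * (x' - x)) + b * (y + θ * (y' - y)) = z := by
        have : θ * d = z - (a * x + b * y) := div_mul_cancel₀ _ h0.ne'
        calc a * (x + θ * (x' - x)) + b * (y + θ * (y' - y)) = a * x + b * y + θ * d := by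
              rw [hd]; ring
          _ = z := by rw [this]; ring
      rw [← h3]
      exact h _ h1 _ h2
  calc ENNReal.ofReal (a * (x' - x) + b * (y' - y))
      = volume (Icc (a * x + b * y) (a * x' + b * y')) := by
        rw [Real.volume_Icc]
        congr 1
        ring
    _ ≤ volume K := measure_mono hsub

/-- One-dimensional Brunn-Minkowski inequality for intervals. -/
theorem mink1 (a b : ℝ) (ha : 0 < a) (hb : 0 < b) (I J K : Set ℝ) (hI : I.OrdConnected)
    (hJ : J.OrdConnected) (hIn : I.Nonempty) (hJn : J.Nonempty)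
    (h : ∀ x ∈ I, ∀ y ∈ J, a * x + b * y ∈ K) :
    ENNReal.ofReal a * volume I + ENNReal.ofReal b * volume J ≤ volume K := by
  by_cases hK : volume K = ⊤
  · rw [hK]
    exact le_top
  have step : ∀ x ∈ I, ∀ x' ∈ I, ∀ y ∈ J, ∀ y' ∈ J,
      ENNReal.ofReal a * edist x x' + ENNReal.ofReal b * edist y y' ≤ volume K := by
    have key : ∀ x ∈ I, ∀ x' ∈ I, ∀ y ∈ J, ∀ y' ∈ J, x ≤ x' → y ≤ y' →
        ENNReal.ofReal a * edist x x' + ENNReal.ofReal b * edist y y' ≤ volume K := by
      intro x hx x' hx' y hy y' hy' hxx hyy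
      have := mink_aux a b ha hb I J K hI hJ h x x' hx hx' hxx y y' hy hy' hyy
      rw [edist_comm x, edist_comm y, edist_dist, edist_dist, Real.dist_eq, Real.dist_eq,
        abs_of_nonneg (sub_nonneg.2 hxx), abs_of_nonneg (sub_nonneg.2 hyy),
        ← ENNReal.ofReal_mul ha.le, ← ENNReal.ofReal_mul hb.le,
        ← ENNReal.ofReal_add (mul_nonneg ha.le (sub_nonneg.2 hxx))
          (mul_nonneg hb.le (sub_nonneg.2 hyy))]
      exact this
    intro x hx x' hx' y hy y' hy'
    rcases le_total x x' with hxx | hxx <;> rcases le_total y y' with hyy | hyy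
    · exact key x hx x' hx' y hy y' hy' hxx hyy
    · rw [edist_comm y]
      exact key x hx x' hx' y' hy' y hy hxx hyy
    · rw [edist_comm x]
      exact key x' hx' x hx y hy y' hy' hxx hyy
    · rw [edist_comm x, edist_comm y]
      exact key x' hx' x hx y' hy' y hy hxx hyy
  have ha' : ENNReal.ofReal a ≠ 0 := by positivity
  have hb' : ENNReal.ofReal b ≠ 0 := by positivity
  have s1 : ∀ y ∈ J, ∀ y' ∈ J,
      ENNReal.ofReal a * Metric.ediam I + ENNReal.ofReal b * edist y y' ≤ volume K := by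
    intro y hy y' hy'
    obtain ⟨x0, hx0⟩ := hIn
    have hc : ENNReal.ofReal b * edist y y' ≤ volume K :=
      le_trans le_add_self (step x0 hx0 x0 hx0 y hy y' hy')
    have hc' : ENNReal.ofReal b * edist y y' ≠ ⊤ := ne_top_of_le_ne_top hK hc
    have h1 : Metric.ediam I ≤
        (volume K - ENNReal.ofReal b * edist y y') / ENNReal.ofReal a := by
      refine Metric.ediam_le fun x hx x' hx' => ?_
      rw [ENNReal.le_div_iff_mul_le (Or.inl ha') (Or.inl ENNReal.ofReal_ne_top)]
      refine ENNReal.le_sub_of_add_le_right hc' ?_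
      rw [mul_comm]
      exact step x hx x' hx' y hy y' hy'
    rw [ENNReal.le_div_iff_mul_le (Or.inl ha') (Or.inl ENNReal.ofReal_ne_top)] at h1
    calc ENNReal.ofReal a * Metric.ediam I + ENNReal.ofReal b * edist y y'
        ≤ (volume K - ENNReal.ofReal b * edist y y') + ENNReal.ofReal b * edist y y' := by
          rw [mul_comm (ENNReal.ofReal a)]
          gcongr
      _ = volume K := tsub_add_cancel_of_le hc
  have s2 : ENNReal.ofReal a * Metric.ediam I + ENNReal.ofReal b * Metric.ediam J ≤ volume K := by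
    obtain ⟨y0, hy0⟩ := hJn
    have hc : ENNReal.ofReal a * Metric.ediam I ≤ volume K :=
      le_trans le_self_add (s1 y0 hy0 y0 hy0)
    have hc' : ENNReal.ofReal a * Metric.ediam I ≠ ⊤ := ne_top_of_le_ne_top hK hc
    have h1 : Metric.ediam J ≤
        (volume K - ENNReal.ofReal a * Metric.ediam I) / ENNReal.ofReal b := by
      refine Metric.ediam_le fun y hy y' hy' => ?_
      rw [ENNReal.le_div_iff_mul_le (Or.inl hb') (Or.inl ENNReal.ofReal_ne_top)]
      refine ENNReal.le_sub_of_add_le_left hc' ?_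
      rw [mul_comm (edist y y')]
      exact s1 y hy y' hy'
    rw [ENNReal.le_div_iff_mul_le (Or.inl hb') (Or.inl ENNReal.ofReal_ne_top)] at h1
    calc ENNReal.ofReal a * Metric.ediam I + ENNReal.ofReal b * Metric.ediam J
        ≤ ENNReal.ofReal a * Metric.ediam I +
          (volume K - ENNReal.ofReal a * Metric.ediam I) := by
          rw [mul_comm (ENNReal.ofReal b)]
          gcongr
      _ = volume K := add_tsub_cancel_of_le hc
  refine le_trans ?_ s2
  gcongr
  · exact Real.volume_le_diam I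
  · exact Real.volume_le_diam J

/-- The normalized one-dimensional inequality. -/
theorem pl_norm (a b : ℝ) (ha : 0 < a) (hb : 0 < b) (hab : a + b = 1) (f g h : ℝ → ℝ)
    (hf : Measurable f) (hg : Measurable g) (hh : Measurable h)
    (f0 : ∀ x, 0 ≤ f x) (g0 : ∀ x, 0 ≤ g x) (h0 : ∀ x, 0 ≤ h x)
    (f1 : ∀ x, f x ≤ 1) (g1 : ∀ x, g x ≤ 1)
    (fs : ∀ s, s < 1 → ∃ x, s < f x) (gs : ∀ s, s < 1 → ∃ x, s < g x)
    (fc : ∀ s, {x | s < f x}.OrdConnected) (gc : ∀ s, {x | s < g x}.OrdConnected)
    (H : ∀ x y, f x ^ a * g y ^ b ≤ h (a * x + b * y)) :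
    ENNReal.ofReal a * (∫⁻ x, ENNReal.ofReal (f x)) +
      ENNReal.ofReal b * (∫⁻ x, ENNReal.ofReal (g x)) ≤ ∫⁻ x, ENNReal.ofReal (h x) := by
  have lay : ∀ u : ℝ → ℝ, Measurable u → (∀ x, 0 ≤ u x) → (∀ x, u x ≤ 1) →
      ∫⁻ x, ENNReal.ofReal (u x) = ∫⁻ t in Ioo 0 1, volume {x | t < u x} := by
    intro u hu u0 u1
    rw [lintegral_eq_lintegral_meas_lt volume (Filter.Eventually.of_forall u0) hu.aemeasurable]
    rw [← Ioo_union_Ici_eq_Ioi (zero_lt_one' ℝ), lintegral_union measurableSet_Ici]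
    · have : ∫⁻ t in Ici (1 : ℝ), volume {x | t < u x} = 0 := by
        rw [setLIntegral_congr_fun (g := fun _ => 0) measurableSet_Ici]
        · simp
        · intro t ht
          have : {x | t < u x} = ∅ := by
            ext x
            simp only [mem_ofPred_eq, mem_empty_iff_false, iff_false, not_lt]
            exact (u1 x).trans ht
          simp only [this, measure_empty]
      rw [this, add_zero]
    · rw [Set.disjoint_left]
      intro t ht ht'
      exact absurd ht.2 (not_lt.2 ht')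
  have hanti : ∀ u : ℝ → ℝ, Measurable (fun t : ℝ => volume {x | t < u x}) := by
    intro u
    apply Antitone.measurable
    intro s t hst
    exact measure_mono fun x hx => lt_of_le_of_lt hst hx
  rw [lay f hf f0 f1, lay g hg g0 g1]
  rw [lintegral_eq_lintegral_meas_lt volume (Filter.Eventually.of_forall h0) hh.aemeasurable]
  rw [← lintegral_const_mul _ (hanti f), ← lintegral_const_mul _ (hanti g),
    ← lintegral_add_left ((hanti f).const_mul _)]
  refine le_trans ?_ (lintegral_mono_set (s := Ioo 0 1) Ioo_subset_Ioi_self)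
  refine setLIntegral_mono' measurableSet_Ioo fun t ht => ?_
  refine mink1 a b ha hb _ _ _ (fc t) (gc t) ?_ ?_ ?_
  · obtain ⟨x, hx⟩ := fs t ht.2
    exact ⟨x, hx⟩
  · obtain ⟨x, hx⟩ := gs t ht.2
    exact ⟨x, hx⟩
  · intro x hx y hy
    simp only [mem_ofPred_eq] at hx hy ⊢
    refine lt_of_lt_of_le ?_ (H x y)
    have h1 : t ^ a < f x ^ a := Real.rpow_lt_rpow ht.1.le hx ha
    have h2 : t ^ b < g y ^ b := Real.rpow_lt_rpow ht.1.le hy hb
    calc t = t ^ a * t ^ b := by
          rw [← Real.rpow_add ht.1, hab, Real.rpow_one]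
      _ < f x ^ a * g y ^ b :=
          mul_lt_mul'' h1 h2 (Real.rpow_nonneg ht.1.le _) (Real.rpow_nonneg ht.1.le _)

/-- The one-dimensional Prekopa-Leindler inequality for bounded quasi-concave functions. -/
theorem pl1 (a b : ℝ) (ha : 0 < a) (hb : 0 < b) (hab : a + b = 1) (f g h : ℝ → ℝ)
    (hf : Measurable f) (hg : Measurable g) (hh : Measurable h)
    (f0 : ∀ x, 0 ≤ f x) (g0 : ∀ x, 0 ≤ g x) (h0 : ∀ x, 0 ≤ h x)
    (R : ℝ) (fR : ∀ x, f x ≤ R) (gR : ∀ x, g x ≤ R)
    (fc : ∀ s, {x | s < f x}.OrdConnected) (gc : ∀ s, {x | s < g x}.OrdConnected)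
    (H : ∀ x y, f x ^ a * g y ^ b ≤ h (a * x + b * y)) :
    (∫⁻ x, ENNReal.ofReal (f x)) ^ a * (∫⁻ x, ENNReal.ofReal (g x)) ^ b ≤
      ∫⁻ x, ENNReal.ofReal (h x) := by
  by_cases hf' : ∀ x, f x = 0
  · simp [hf', ENNReal.zero_rpow_of_pos ha]
  by_cases hg' : ∀ x, g x = 0
  · simp [hg', ENNReal.zero_rpow_of_pos hb]
  push Not at hf' hg'
  obtain ⟨x1, hx1⟩ := hf'
  obtain ⟨y1, hy1⟩ := hg'
  have hx1' : 0 < f x1 := lt_of_le_of_ne (f0 x1) (Ne.symm hx1)
  have hy1' : 0 < g y1 := lt_of_le_of_ne (g0 y1) (Ne.symm hy1)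
  have bf : BddAbove (range f) := ⟨R, by rintro _ ⟨x, rfl⟩; exact fR x⟩
  have bg : BddAbove (range g) := ⟨R, by rintro _ ⟨x, rfl⟩; exact gR x⟩
  set α := ⨆ x, f x with hα
  set β := ⨆ x, g x with hβ
  have α0 : 0 < α := lt_of_lt_of_le hx1' (le_ciSup bf x1)
  have β0 : 0 < β := lt_of_lt_of_le hy1' (le_ciSup bg y1)
  set γ := α ^ a * β ^ b with hγ
  have γ0 : 0 < γ := mul_pos (Real.rpow_pos_of_pos α0 _) (Real.rpow_pos_of_pos β0 _)
  have main := pl_norm a b ha hb hab (fun x => f x / α) (fun x => g x / β) (fun x => h x / γ)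
    (hf.div_const _) (hg.div_const _) (hh.div_const _)
    (fun x => div_nonneg (f0 x) α0.le) (fun x => div_nonneg (g0 x) β0.le)
    (fun x => div_nonneg (h0 x) γ0.le)
    (fun x => by rw [div_le_one α0]; exact le_ciSup bf x)
    (fun x => by rw [div_le_one β0]; exact le_ciSup bg x)
    (by
      intro s hs
      have : s * α < ⨆ x, f x := by
        rw [← hα]
        nlinarith
      obtain ⟨x, hx⟩ := exists_lt_of_lt_ciSup this
      exact ⟨x, by rw [lt_div_iff₀ α0]; exact hx⟩)
    (by
      intro s hs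
      have : s * β < ⨆ x, g x := by
        rw [← hβ]
        nlinarith
      obtain ⟨x, hx⟩ := exists_lt_of_lt_ciSup this
      exact ⟨x, by rw [lt_div_iff₀ β0]; exact hx⟩)
    (by
      intro s
      have : {x | s < f x / α} = {x | s * α < f x} := by
        ext x
        simp only [mem_ofPred_eq, lt_div_iff₀ α0]
      rw [this]
      exact fc _)
    (by
      intro s
      have : {x | s < g x / β} = {x | s * β < g x} := by
        ext x
        simp only [mem_ofPred_eq, lt_div_iff₀ β0]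
      rw [this]
      exact gc _)
    (by
      intro x y
      rw [Real.div_rpow (f0 x) α0.le, Real.div_rpow (g0 y) β0.le, div_mul_div_comm]
      exact div_le_div_of_nonneg_right (H x y) γ0.le)
  have scale : ∀ (u : ℝ → ℝ) (c : ℝ), 0 < c → (∀ x, 0 ≤ u x) →
      ∫⁻ x, ENNReal.ofReal (u x) = ENNReal.ofReal c * ∫⁻ x, ENNReal.ofReal (u x / c) := by
    intro u c hc u0
    rw [← lintegral_const_mul' _ _ ENNReal.ofReal_ne_top]
    refine lintegral_congr fun x => ?_
    rw [← ENNReal.ofReal_mul hc.le]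
    congr 1
    field_simp
  rw [scale f α α0 f0, scale g β β0 g0, scale h γ γ0 h0]
  rw [ENNReal.mul_rpow_of_nonneg _ _ ha.le, ENNReal.mul_rpow_of_nonneg _ _ hb.le]
  have e1 : ENNReal.ofReal α ^ a * ENNReal.ofReal β ^ b = ENNReal.ofReal γ := by
    rw [ENNReal.ofReal_rpow_of_pos α0, ENNReal.ofReal_rpow_of_pos β0,
      ← ENNReal.ofReal_mul (Real.rpow_nonneg α0.le _)]
  calc ENNReal.ofReal α ^ a * (∫⁻ x, ENNReal.ofReal (f x / α)) ^ a *
        (ENNReal.ofReal β ^ b * (∫⁻ x, ENNReal.ofReal (g x / β)) ^ b)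
      = ENNReal.ofReal γ * ((∫⁻ x, ENNReal.ofReal (f x / α)) ^ a *
          (∫⁻ x, ENNReal.ofReal (g x / β)) ^ b) := by
        rw [← e1]
        ring
    _ ≤ ENNReal.ofReal γ * ∫⁻ x, ENNReal.ofReal (h x / γ) := by
        gcongr
        exact (amgm a b ha hb hab _ _).trans main

end Pool.Agent.Helper14.RR
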