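import Pool.Agent.Helper14.RR.Brunn

set_option autoImplicit false

/-!
A convex body in `[0, m Δ)^N` lies, up to the volume of its sections at the multiples of `Δ`, in
one slab of width `Δ` in each coordinate; if the sections are small then the body is small.
-/

namespace Pool.Agent.Helper14.RR

open MeasureTheory Set
open scoped ENNReal

/-- One-dimensional lemma: all but one interval are dominated by the values at the multiples of
`Δ`. -/
theorem exists_interval (f : ℝ → ℝ≥0∞)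
    (hq : ∀ x y z : ℝ, x ≤ z → z ≤ y → min (f x) (f y) ≤ f z) (m : ℕ) (hm : 1 ≤ m)
    (Δ : ℝ) (hΔ : 0 < Δ) :
    ∃ j0 < m, ∑ i ∈ (Finset.range m).erase j0, ∫⁻ x in Ico ((i : ℝ) * Δ) (((i : ℝ) + 1) * Δ), f x ≤
      ENNReal.ofReal Δ * ∑ i ∈ Finset.range m, f ((i : ℝ) * Δ) := by
  classical
  have bound : ∀ (i : ℕ) (v : ℝ≥0∞), (∀ x ∈ Ico ((i : ℝ) * Δ) (((i : ℝ) + 1) * Δ), f x ≤ v) →
      ∫⁻ x in Ico ((i : ℝ) * Δ) (((i : ℝ) + 1) * Δ), f x ≤ ENNReal.ofReal Δ * v := by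
    intro i v hv
    calc ∫⁻ x in Ico ((i : ℝ) * Δ) (((i : ℝ) + 1) * Δ), f x
        ≤ ∫⁻ _ in Ico ((i : ℝ) * Δ) (((i : ℝ) + 1) * Δ), v :=
          setLIntegral_mono' measurableSet_Ico hv
      _ = ENNReal.ofReal Δ * v := by
          rw [setLIntegral_const, Real.volume_Ico, mul_comm]
          congr 2
          ring
  set S := (Finset.range m).filter fun i : ℕ =>
    ∃ x ∈ Ico ((i : ℝ) * Δ) (((i : ℝ) + 1) * Δ), f ((i : ℝ) * Δ) < f x with hS
  rcases S.eq_empty_or_nonempty with he | hne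
  · refine ⟨0, by omega, ?_⟩
    rw [Finset.mul_sum]
    refine le_trans (Finset.sum_le_sum fun i hi => ?_)
      (Finset.sum_le_sum_of_subset (Finset.erase_subset 0 (Finset.range m)))
    refine bound i _ fun x hx => ?_
    by_contra hlt
    push Not at hlt
    have : i ∈ S := by
      rw [hS, Finset.mem_filter]
      exact ⟨(Finset.mem_erase.1 hi).2, x, hx, hlt⟩
    rw [he] at this
    exact absurd this (Finset.notMem_empty i)
  · set j0 := S.max' hne with hj0
    have hj0S : j0 ∈ S := S.max'_mem hne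
    have hj0' := hj0S
    rw [hS, Finset.mem_filter, Finset.mem_range] at hj0'
    obtain ⟨hj0m, x1, hx1, hlt⟩ := hj0'
    refine ⟨j0, hj0m, ?_⟩
    let φ : ℕ → ℕ := fun i => if i < j0 then i + 1 else i
    have hφ : ∀ i ∈ (Finset.range m).erase j0,
        ∫⁻ x in Ico ((i : ℝ) * Δ) (((i : ℝ) + 1) * Δ), f x ≤
          ENNReal.ofReal Δ * f ((φ i : ℝ) * Δ) := by
      intro i hi
      rw [Finset.mem_erase, Finset.mem_range] at hi
      refine bound i _ fun x hx => ?_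
      by_cases hij : i < j0
      · have hφi : φ i = i + 1 := if_pos hij
        have hz : ((φ i : ℕ) : ℝ) = (i : ℝ) + 1 := by rw [hφi]; push_cast; ring
        rw [hz]
        have h1 : ((i : ℝ) + 1) * Δ ≤ (j0 : ℝ) * Δ := by
          refine mul_le_mul_of_nonneg_right ?_ hΔ.le
          exact_mod_cast hij
        have h2 : f x ≤ f ((j0 : ℝ) * Δ) := by
          have := hq x x1 ((j0 : ℝ) * Δ) (hx.2.le.trans h1) hx1.1
          rcases min_le_iff.1 this with h | h
          · exact h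
          · exact absurd hlt (not_lt.2 h)
        have h3 := hq x x1 (((i : ℝ) + 1) * Δ) hx.2.le (h1.trans hx1.1)
        rcases min_le_iff.1 h3 with h | h
        · exact h
        · exact h2.trans (hlt.le.trans h)
      · have hφi : φ i = i := if_neg hij
        rw [hφi]
        by_contra hlt'
        push Not at hlt'
        have hiS : i ∈ S := by
          rw [hS, Finset.mem_filter, Finset.mem_range]
          exact ⟨hi.2, x, hx, hlt'⟩
        have := S.le_max' i hiS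
        rw [← hj0] at this
        omega
    refine (Finset.sum_le_sum hφ).trans ?_
    rw [← Finset.mul_sum]
    gcongr
    have hinj : Set.InjOn φ ((Finset.range m).erase j0 : Finset ℕ) := by
      intro a ha b hb hab
      rw [Finset.mem_coe, Finset.mem_erase] at ha hb
      simp only [φ] at hab
      split_ifs at hab <;> omega
    rw [← Finset.sum_image (f := fun j : ℕ => f ((j : ℝ) * Δ)) hinj]
    refine Finset.sum_le_sum_of_subset ?_
    intro j hj
    rw [Finset.mem_image] at hj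
    obtain ⟨i, hi, rfl⟩ := hj
    rw [Finset.mem_erase, Finset.mem_range] at hi
    rw [Finset.mem_range]
    simp only [φ]
    split_ifs <;> omega

theorem vol_slab {n : ℕ} (i : Fin (n + 1)) {K : Set (Fin (n + 1) → ℝ)} (mK : MeasurableSet K)
    {J : Set ℝ} (mJ : MeasurableSet J) :
    volume (K ∩ {y | y i ∈ J}) = ∫⁻ x in J, volume (sec i x K) := by
  have mJ' : MeasurableSet {y : Fin (n + 1) → ℝ | y i ∈ J} := measurable_pi_apply i mJ
  rw [vol_eq i (mK.inter mJ'), ← lintegral_indicator mJ]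
  refine lintegral_congr fun x => ?_
  by_cases hx : x ∈ J
  · rw [indicator_of_mem hx]
    congr 1
    ext z
    simp only [sec, mem_ofPred_eq, mem_inter_iff, ins_same, hx, and_true]
  · rw [indicator_of_notMem hx]
    have : sec i x (K ∩ {y | y i ∈ J}) = ∅ := by
      ext z
      simp only [sec, mem_ofPred_eq, mem_inter_iff, ins_same, hx, and_false,
        mem_empty_iff_false]
    rw [this, measure_empty]

/-- The body lies in the box `[0, M)^n`. -/
def InBox {n : ℕ} (M : ℝ) (K : Set (Fin n → ℝ)) : Prop := ∀ y ∈ K, ∀ i, 0 ≤ y i ∧ y i < M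

theorem InBox.bdd {n : ℕ} {M : ℝ} {K : Set (Fin n → ℝ)} (h : InBox M K) : Bdd M K := by
  intro y hy i
  rw [abs_of_nonneg (h y hy i).1]
  exact (h y hy i).2.le

/-- Section lemma. -/
theorem exists_slab {n : ℕ} (i : Fin (n + 1)) (m : ℕ) (hm : 1 ≤ m) (Δ : ℝ) (hΔ : 0 < Δ)
    {K : Set (Fin (n + 1) → ℝ)} (mK : MeasurableSet K) (cK : Convex ℝ K)
    (bK : InBox ((m : ℝ) * Δ) K) :
    ∃ j : ℕ, volume (K ∩ {y | y i ∉ Ico ((j : ℝ) * Δ) (((j : ℝ) + 1) * Δ)}) ≤
      ENNReal.ofReal Δ * ∑ k ∈ Finset.range m, volume (sec i ((k : ℝ) * Δ) K) := by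
  obtain ⟨j, _, hj⟩ := exists_interval (fun x => volume (sec i x K))
    (fun x y z => sec_quasi i mK cK bK.bdd x y z) m hm Δ hΔ
  refine ⟨j, le_trans ?_ hj⟩
  have hsub : K ∩ {y | y i ∉ Ico ((j : ℝ) * Δ) (((j : ℝ) + 1) * Δ)} ⊆
      ⋃ k ∈ (Finset.range m).erase j, K ∩ {y | y i ∈ Ico ((k : ℝ) * Δ) (((k : ℝ) + 1) * Δ)} := by
    intro y hy
    obtain ⟨hyK, hyj⟩ := hy
    simp only [mem_ofPred_eq] at hyj
    have hb := bK y hyK i
    have hq0 : 0 ≤ y i / Δ := div_nonneg hb.1 hΔ.le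
    have hk1 : (⌊y i / Δ⌋₊ : ℝ) ≤ y i / Δ := Nat.floor_le hq0
    have hk2 : y i / Δ < (⌊y i / Δ⌋₊ : ℝ) + 1 := Nat.lt_floor_add_one _
    have hmem : y i ∈ Ico ((⌊y i / Δ⌋₊ : ℝ) * Δ) (((⌊y i / Δ⌋₊ : ℝ) + 1) * Δ) :=
      ⟨(le_div_iff₀ hΔ).1 hk1, (div_lt_iff₀ hΔ).1 hk2⟩
    rw [mem_iUnion₂]
    refine ⟨⌊y i / Δ⌋₊, ?_, hyK, hmem⟩
    rw [Finset.mem_erase, Finset.mem_range]
    refine ⟨?_, ?_⟩
    · intro h
      rw [h] at hmem
      exact hyj hmem
    · have : y i / Δ < m := (div_lt_iff₀ hΔ).2 hb.2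
      exact (Nat.floor_lt hq0).2 this
  refine (measure_mono hsub).trans ((measure_biUnion_finset_le _ _).trans ?_)
  refine Finset.sum_le_sum fun k _ => ?_
  rw [vol_slab i mK measurableSet_Ico]

/-- Volume lemma. -/
theorem vol_small {n : ℕ} (m : ℕ) (hm : 1 ≤ m) (Δ : ℝ) {K : Set (Fin n → ℝ)}
    (bK : InBox ((m : ℝ) * Δ) K) (j : Fin n → ℕ) (r : ℕ)
    (H : 2 * ∑ i, volume (K ∩ {y | y i ∉ Ico ((j i : ℝ) * Δ) (((j i : ℝ) + 1) * Δ)}) ≤
      (r : ℝ≥0∞) * volume K) :
    volume K ≤ 2 * (2 ^ n * (m : ℝ≥0∞) ^ r * ENNReal.ofReal Δ ^ n) := by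
  classical
  set A : Fin n → Set (Fin n → ℝ) :=
    fun i => {y | y i ∉ Ico ((j i : ℝ) * Δ) (((j i : ℝ) + 1) * Δ)} with hA
  have mA : ∀ i, MeasurableSet (A i) := fun i =>
    (measurable_pi_apply i measurableSet_Ico : MeasurableSet
      {y : Fin n → ℝ | y i ∈ Ico ((j i : ℝ) * Δ) (((j i : ℝ) + 1) * Δ)}).compl
  set f : (Fin n → ℝ) → ℝ≥0∞ := fun y => ∑ i, (A i).indicator 1 y with hf
  have mf : Measurable f := Finset.measurable_sum _ fun i _ => measurable_one.indicator (mA i)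
  have hint : ∫⁻ y in K, f y = ∑ i, volume (K ∩ A i) := by
    rw [hf, lintegral_finsetSum _ (fun i _ => measurable_one.indicator (mA i))]
    refine Finset.sum_congr rfl fun i _ => ?_
    rw [lintegral_indicator_one (mA i), Measure.restrict_apply (mA i), inter_comm]
  have hmk := mul_meas_ge_le_lintegral₀ (μ := volume.restrict K) mf.aemeasurable ((r : ℝ≥0∞) + 1)
  rw [hint, Measure.restrict_apply (measurableSet_le measurable_const mf)] at hmk
  set v := volume ({y | (r : ℝ≥0∞) + 1 ≤ f y} ∩ K) with hv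
  have hKtop : volume K ≠ ⊤ := bK.bdd.volume_lt_top.ne
  have h2v : 2 * v ≤ volume K := by
    have h1 : ((r : ℝ≥0∞) + 1) * (2 * v) ≤ ((r : ℝ≥0∞) + 1) * volume K := by
      calc ((r : ℝ≥0∞) + 1) * (2 * v) = 2 * (((r : ℝ≥0∞) + 1) * v) := by ring
        _ ≤ 2 * ∑ i, volume (K ∩ A i) := by gcongr
        _ ≤ (r : ℝ≥0∞) * volume K := H
        _ ≤ ((r : ℝ≥0∞) + 1) * volume K := by gcongr; exact le_self_add
    have hr0 : ((r : ℝ≥0∞) + 1) ≠ 0 := by positivity
    have hrt : ((r : ℝ≥0∞) + 1) ≠ ⊤ := by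
      exact ENNReal.add_ne_top.2 ⟨ENNReal.natCast_ne_top r, ENNReal.one_ne_top⟩
    exact (ENNReal.mul_le_mul_iff_right hr0 hrt).1 h1
  -- the rest of the body
  set V1 := volume (K ∩ {y | f y < (r : ℝ≥0∞) + 1}) with hV1
  have hsplit : volume K ≤ V1 + v := by
    have : K ⊆ (K ∩ {y | f y < (r : ℝ≥0∞) + 1}) ∪ ({y | (r : ℝ≥0∞) + 1 ≤ f y} ∩ K) := by
      intro y hy
      rcases lt_or_ge (f y) ((r : ℝ≥0∞) + 1) with h | h
      · exact Or.inl ⟨hy, h⟩
      · exact Or.inr ⟨h, hy⟩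
    exact (measure_mono this).trans (measure_union_le _ _)
  have hK2 : volume K ≤ 2 * V1 := by
    have h3 : 2 * volume K ≤ 2 * V1 + volume K := by
      calc 2 * volume K ≤ 2 * (V1 + v) := by gcongr
        _ = 2 * V1 + 2 * v := by ring
        _ ≤ 2 * V1 + volume K := by gcongr
    rw [two_mul] at h3
    exact (ENNReal.add_le_add_iff_right hKtop).1 h3
  refine hK2.trans ?_
  gcongr
  -- covering by boxes
  set bx : Finset (Fin n) → Set (Fin n → ℝ) := fun S => Set.pi univ fun i =>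
    if i ∈ S then Ico 0 ((m : ℝ) * Δ) else Ico ((j i : ℝ) * Δ) (((j i : ℝ) + 1) * Δ) with hbx
  have hcov : K ∩ {y | f y < (r : ℝ≥0∞) + 1} ⊆
      ⋃ S ∈ (Finset.univ : Finset (Finset (Fin n))).filter (fun S => S.card ≤ r), bx S := by
    intro y hy
    obtain ⟨hyK, hyf⟩ := hy
    simp only [mem_ofPred_eq] at hyf
    rw [mem_iUnion₂]
    refine ⟨Finset.univ.filter fun i => y ∈ A i, ?_, ?_⟩
    · rw [Finset.mem_filter]
      refine ⟨Finset.mem_univ _, ?_⟩
      have hfy : f y = ((Finset.univ.filter fun i => y ∈ A i).card : ℝ≥0∞) := by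
        rw [hf]
        simp only [indicator_apply, Pi.one_apply]
        rw [Finset.sum_ite, Finset.sum_const_zero, add_zero, Finset.sum_const, nsmul_eq_mul,
          mul_one]
      rw [hfy] at hyf
      have : ((Finset.univ.filter fun i => y ∈ A i).card : ℝ≥0∞) < ((r + 1 : ℕ) : ℝ≥0∞) := by
        push_cast
        exact hyf
      have := Nat.cast_lt.1 this
      omega
    · rw [hbx]
      simp only [Set.mem_pi, mem_univ, true_implies]
      intro i
      by_cases hi : y ∈ A i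
      · rw [if_pos (by rw [Finset.mem_filter]; exact ⟨Finset.mem_univ _, hi⟩)]
        exact bK y hyK i
      · rw [if_neg (by rw [Finset.mem_filter]; exact fun h => hi h.2)]
        rw [hA] at hi
        simp only [mem_ofPred_eq, not_not] at hi
        exact hi
  have hbv : ∀ S : Finset (Fin n), S.card ≤ r →
      volume (bx S) ≤ (m : ℝ≥0∞) ^ r * ENNReal.ofReal Δ ^ n := by
    intro S hS
    rw [hbx]
    simp only
    rw [volume_pi_pi]
    have h1 : ∀ i : Fin n, volume (if i ∈ S then Ico 0 ((m : ℝ) * Δ)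
        else Ico ((j i : ℝ) * Δ) (((j i : ℝ) + 1) * Δ)) =
        (if i ∈ S then (m : ℝ≥0∞) else 1) * ENNReal.ofReal Δ := by
      intro i
      split_ifs
      · rw [Real.volume_Ico, sub_zero, ENNReal.ofReal_mul (Nat.cast_nonneg m),
          ENNReal.ofReal_natCast]
      · rw [Real.volume_Ico, one_mul]
        congr 1
        ring
    simp_rw [h1]
    rw [Finset.prod_mul_distrib, Finset.prod_const, Finset.card_univ, Fintype.card_fin]
    gcongr
    rw [Finset.prod_ite, Finset.prod_const_one, mul_one, Finset.prod_const]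
    have h2 : (Finset.univ.filter fun i => i ∈ S).card = S.card := by
      congr 1
      ext i
      simp
    rw [h2]
    have hm1 : (1 : ℝ≥0∞) ≤ m := by exact_mod_cast hm
    exact pow_le_pow_right₀ hm1 hS
  refine (measure_mono hcov).trans ((measure_biUnion_finset_le _ _).trans ?_)
  calc ∑ S ∈ (Finset.univ : Finset (Finset (Fin n))).filter (fun S => S.card ≤ r), volume (bx S)
      ≤ ∑ S ∈ (Finset.univ : Finset (Finset (Fin n))).filter (fun S => S.card ≤ r),
        (m : ℝ≥0∞) ^ r * ENNReal.ofReal Δ ^ n := by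
        refine Finset.sum_le_sum fun S hS => hbv S (Finset.mem_filter.1 hS).2
    _ ≤ ∑ _S : Finset (Fin n), (m : ℝ≥0∞) ^ r * ENNReal.ofReal Δ ^ n :=
        Finset.sum_le_sum_of_subset (Finset.filter_subset _ _)
    _ = 2 ^ n * (m : ℝ≥0∞) ^ r * ENNReal.ofReal Δ ^ n := by
        rw [Finset.sum_const, Finset.card_univ, Fintype.card_finset, Fintype.card_fin,
          nsmul_eq_mul]
        push_cast
        ring

/-- Counting: if the cells fill three quarters of the box and have small sections, then there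
are many of them. -/
theorem count_cells {n : ℕ} (m : ℕ) (hm : 1 ≤ m) (Δ : ℝ) (hΔ : 0 < Δ) (r : ℕ) (hr : 1 ≤ r)
    {τ : Type} (T : Finset τ) (K : τ → Set (Fin (n + 1) → ℝ))
    (mK : ∀ t ∈ T, MeasurableSet (K t)) (cK : ∀ t ∈ T, Convex ℝ (K t))
    (bK : ∀ t ∈ T, InBox ((m : ℝ) * Δ) (K t))
    (H1 : 3 * ENNReal.ofReal ((m : ℝ) * Δ) ^ (n + 1) ≤ 4 * ∑ t ∈ T, volume (K t))
    (H2 : 8 * ∑ t ∈ T, ∑ i, ENNReal.ofReal Δ * ∑ k ∈ Finset.range m,
        volume (sec i ((k : ℝ) * Δ) (K t)) ≤ (r : ℝ≥0∞) * ENNReal.ofReal ((m : ℝ) * Δ) ^ (n + 1)) :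
    m ^ (n + 1) ≤ 4 * 2 ^ (n + 1) * m ^ r * T.card := by
  classical
  set V := ENNReal.ofReal ((m : ℝ) * Δ) ^ (n + 1) with hV
  have hVt : V ≠ ⊤ := ENNReal.pow_ne_top ENNReal.ofReal_ne_top
  set s : τ → ℝ≥0∞ := fun t => ∑ i, ENNReal.ofReal Δ * ∑ k ∈ Finset.range m,
        volume (sec i ((k : ℝ) * Δ) (K t)) with hs
  set v : τ → ℝ≥0∞ := fun t => volume (K t) with hv
  have hr0 : (r : ℝ≥0∞) ≠ 0 := by
    have : r ≠ 0 := by omega
    exact_mod_cast this
  have hrt : (r : ℝ≥0∞) ≠ ⊤ := ENNReal.natCast_ne_top r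
  have hsplit : ∑ t ∈ T, v t = ∑ t ∈ T.filter (fun t => 2 * s t ≤ r * v t), v t +
      ∑ t ∈ T.filter (fun t => ¬ 2 * s t ≤ r * v t), v t :=
    (Finset.sum_filter_add_sum_filter_not T (fun t => 2 * s t ≤ r * v t) v).symm
  set G := ∑ t ∈ T.filter (fun t => 2 * s t ≤ r * v t), v t with hG
  set B := ∑ t ∈ T.filter (fun t => ¬ 2 * s t ≤ r * v t), v t with hB
  have hBV : 4 * B ≤ V := by
    have h1 : (r : ℝ≥0∞) * (4 * B) ≤ (r : ℝ≥0∞) * V := by
      calc (r : ℝ≥0∞) * (4 * B)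
          = 4 * ∑ t ∈ T.filter (fun t => ¬ 2 * s t ≤ r * v t), (r : ℝ≥0∞) * v t := by
            rw [hB, ← Finset.mul_sum]
            ring
        _ ≤ 4 * ∑ t ∈ T.filter (fun t => ¬ 2 * s t ≤ r * v t), 2 * s t := by
            refine mul_le_mul_right (Finset.sum_le_sum fun t ht => ?_) 4
            exact (not_le.1 (Finset.mem_filter.1 ht).2).le
        _ ≤ 4 * ∑ t ∈ T, 2 * s t := by
            gcongr
            exact Finset.filter_subset _ _
        _ = 8 * ∑ t ∈ T, s t := by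
            rw [← Finset.mul_sum]
            ring
        _ ≤ (r : ℝ≥0∞) * V := H2
    exact (ENNReal.mul_le_mul_iff_right hr0 hrt).1 h1
  have hGV : 2 * V ≤ 4 * G := by
    have h1 : 2 * V + V ≤ 4 * G + V := by
      calc 2 * V + V = 3 * V := by ring
        _ ≤ 4 * ∑ t ∈ T, v t := H1
        _ = 4 * G + 4 * B := by rw [hsplit]; ring
        _ ≤ 4 * G + V := by gcongr
    exact (ENNReal.add_le_add_iff_right hVt).1 h1
  have hvt : ∀ t ∈ T.filter (fun t => 2 * s t ≤ r * v t),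
      v t ≤ 2 * (2 ^ (n + 1) * (m : ℝ≥0∞) ^ r * ENNReal.ofReal Δ ^ (n + 1)) := by
    intro t ht
    rw [Finset.mem_filter] at ht
    choose j hj using fun i => exists_slab i m hm Δ hΔ (mK t ht.1) (cK t ht.1) (bK t ht.1)
    refine vol_small m hm Δ (bK t ht.1) j r ?_
    refine le_trans ?_ ht.2
    exact mul_le_mul_right (Finset.sum_le_sum fun i _ => hj i) 2
  have hG2 : G ≤ (T.card : ℝ≥0∞) *
      (2 * (2 ^ (n + 1) * (m : ℝ≥0∞) ^ r * ENNReal.ofReal Δ ^ (n + 1))) := by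
    calc G ≤ ∑ _t ∈ T.filter (fun t => 2 * s t ≤ r * v t),
          (2 * (2 ^ (n + 1) * (m : ℝ≥0∞) ^ r * ENNReal.ofReal Δ ^ (n + 1))) :=
          Finset.sum_le_sum hvt
      _ = ((T.filter (fun t => 2 * s t ≤ r * v t)).card : ℝ≥0∞) *
          (2 * (2 ^ (n + 1) * (m : ℝ≥0∞) ^ r * ENNReal.ofReal Δ ^ (n + 1))) := by
          rw [Finset.sum_const, nsmul_eq_mul]
      _ ≤ _ := by
          gcongr
          exact Finset.filter_subset _ _
  have hfin : (2 * ENNReal.ofReal Δ ^ (n + 1)) * (m : ℝ≥0∞) ^ (n + 1) ≤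
      (2 * ENNReal.ofReal Δ ^ (n + 1)) *
        ((4 * 2 ^ (n + 1) * m ^ r * T.card : ℕ) : ℝ≥0∞) := by
    calc (2 * ENNReal.ofReal Δ ^ (n + 1)) * (m : ℝ≥0∞) ^ (n + 1) = 2 * V := by
          rw [hV, ENNReal.ofReal_mul (Nat.cast_nonneg m), ENNReal.ofReal_natCast, mul_pow]
          ring
      _ ≤ 4 * G := hGV
      _ ≤ 4 * ((T.card : ℝ≥0∞) *
          (2 * (2 ^ (n + 1) * (m : ℝ≥0∞) ^ r * ENNReal.ofReal Δ ^ (n + 1)))) := by gcongr
      _ = _ := by
          push_cast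
          ring
  have hne : 2 * ENNReal.ofReal Δ ^ (n + 1) ≠ 0 := by positivity
  have hnt : 2 * ENNReal.ofReal Δ ^ (n + 1) ≠ ⊤ :=
    ENNReal.mul_ne_top (by norm_num) (ENNReal.pow_ne_top ENNReal.ofReal_ne_top)
  have := (ENNReal.mul_le_mul_iff_right hne hnt).1 hfin
  exact_mod_cast this

end Pool.Agent.Helper14.RR
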