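import Mathlib

set_option autoImplicit false

/-!
Number of sign vectors of affine forms: at most `sum_(k <= N) C(2 D, k)` for `D` affine forms in
`N` variables (Sauer-Shelah).
-/

namespace Pool.Agent.Helper14.RR

open Finset

/-- Value of the affine form `q.2 + ∑ q.1 i * y i`. -/
def ev {ι : Type} [Fintype ι] (q : (ι → ℝ) × ℝ) (y : ι → ℝ) : ℝ := q.2 + ∑ i, q.1 i * y i

open Classical in
/-- The sets `{l | 0 < q_l(y)}`, for all points `y`. -/
noncomputable def pats {ι κ : Type} [Fintype ι] [Fintype κ] (Q : κ → (ι → ℝ) × ℝ) :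
    Finset (Finset κ) :=
  univ.filter fun S => ∃ y : ι → ℝ, ∀ l, l ∈ S ↔ 0 < ev (Q l) y

theorem card_of_shatters {ι κ : Type} [Fintype ι] [Fintype κ] [DecidableEq κ]
    (Q : κ → (ι → ℝ) × ℝ) (S : Finset κ) (hS : (pats Q).Shatters S) :
    S.card ≤ Fintype.card ι := by
  classical
  by_contra hlt
  push Not at hlt
  have hdep : ¬ LinearIndependent ℝ (fun l : {l // l ∈ S} => (Q l.1).1) := by
    intro h
    have h1 := h.fintype_card_le_finrank
    rw [Module.finrank_fintype_fun_eq_card, Fintype.card_coe] at h1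
    omega
  obtain ⟨g, hg, l0, hl0⟩ := Fintype.not_linearIndependent_iff.1 hdep
  -- the combination is constant
  have hconst : ∀ y : ι → ℝ, ∑ l : {l // l ∈ S}, g l * ev (Q l.1) y =
      ∑ l : {l // l ∈ S}, g l * (Q l.1).2 := by
    intro y
    have h1 : ∀ i : ι, ∑ l : {l // l ∈ S}, g l * (Q l.1).1 i = 0 := by
      intro i
      have := congrFun hg i
      simpa [Finset.sum_apply, Pi.smul_apply, smul_eq_mul] using this
    have h2 : ∑ l : {l // l ∈ S}, g l * (∑ i, (Q l.1).1 i * y i) = 0 := by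
      have h3 : ∑ l : {l // l ∈ S}, g l * (∑ i, (Q l.1).1 i * y i) =
          ∑ i, (∑ l : {l // l ∈ S}, g l * (Q l.1).1 i) * y i := by
        simp_rw [Finset.mul_sum, Finset.sum_mul]
        rw [Finset.sum_comm]
        refine Finset.sum_congr rfl fun i _ => Finset.sum_congr rfl fun l _ => by ring
      rw [h3]
      exact Finset.sum_eq_zero fun i _ => by rw [h1 i, zero_mul]
    unfold ev
    simp_rw [mul_add, Finset.sum_add_distrib]
    rw [h2, add_zero]
  -- two points
  have hpt : ∀ A : Finset κ, A ⊆ S → ∃ y : ι → ℝ, ∀ l ∈ S, (l ∈ A ↔ 0 < ev (Q l) y) := by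
    intro A hA
    obtain ⟨B, hB, hSB⟩ := hS hA
    simp only [pats, mem_filter, mem_univ, true_and] at hB
    obtain ⟨y, hy⟩ := hB
    refine ⟨y, fun l hl => ?_⟩
    rw [← hy l, ← hSB, mem_inter]
    exact ⟨fun h => h.2, fun h => ⟨hl, h⟩⟩
  obtain ⟨y1, hy1⟩ := hpt (S.filter fun l => ∃ h : l ∈ S, 0 < g ⟨l, h⟩) (filter_subset _ _)
  obtain ⟨y2, hy2⟩ := hpt (S.filter fun l => ∃ h : l ∈ S, g ⟨l, h⟩ < 0) (filter_subset _ _)
  have k1 : ∀ l : {l // l ∈ S}, (0 < g l ↔ 0 < ev (Q l.1) y1) := by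
    intro l
    rw [← hy1 l.1 l.2]
    simp only [mem_filter]
    exact ⟨fun h => ⟨l.2, l.2, h⟩, fun h => h.2.2⟩
  have k2 : ∀ l : {l // l ∈ S}, (g l < 0 ↔ 0 < ev (Q l.1) y2) := by
    intro l
    rw [← hy2 l.1 l.2]
    simp only [mem_filter]
    exact ⟨fun h => ⟨l.2, l.2, h⟩, fun h => h.2.2⟩
  have e1 := hconst y1
  have e2 := hconst y2
  have p1 : ∀ l : {l // l ∈ S}, 0 ≤ g l * ev (Q l.1) y1 := by
    intro l
    by_cases h : 0 < g l
    · exact (mul_pos h ((k1 l).1 h)).le
    · have h' : ¬ 0 < ev (Q l.1) y1 := fun h2 => h ((k1 l).2 h2)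
      push Not at h h'
      exact mul_nonneg_of_nonpos_of_nonpos h h'
  have p2 : ∀ l : {l // l ∈ S}, g l * ev (Q l.1) y2 ≤ 0 := by
    intro l
    by_cases h : g l < 0
    · exact (mul_neg_of_neg_of_pos h ((k2 l).1 h)).le
    · have h' : ¬ 0 < ev (Q l.1) y2 := fun h2 => h ((k2 l).2 h2)
      push Not at h h'
      exact mul_nonpos_of_nonneg_of_nonpos h h'
  rcases lt_or_gt_of_ne hl0 with h | h
  · have : ∑ l : {l // l ∈ S}, g l * ev (Q l.1) y2 < 0 := by
      apply Finset.sum_neg' (fun l _ => p2 l)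
      exact ⟨l0, mem_univ _, mul_neg_of_neg_of_pos h ((k2 l0).1 h)⟩
    have h3 : 0 ≤ ∑ l : {l // l ∈ S}, g l * ev (Q l.1) y1 := Finset.sum_nonneg fun l _ => p1 l
    linarith
  · have : 0 < ∑ l : {l // l ∈ S}, g l * ev (Q l.1) y1 := by
      apply Finset.sum_pos' (fun l _ => p1 l)
      exact ⟨l0, mem_univ _, mul_pos h ((k1 l0).1 h)⟩
    have h3 : ∑ l : {l // l ∈ S}, g l * ev (Q l.1) y2 ≤ 0 := Finset.sum_nonpos fun l _ => p2 l
    linarith

theorem card_pats_le {ι κ : Type} [Fintype ι] [Fintype κ] (Q : κ → (ι → ℝ) × ℝ) :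
    (pats Q).card ≤ ∑ k ∈ range (Fintype.card ι + 1), (Fintype.card κ).choose k := by
  classical
  refine (card_le_card_shatterer (pats Q)).trans (card_shatterer_le_sum_vcDim.trans ?_)
  have hvc : (pats Q).vcDim ≤ Fintype.card ι := by
    unfold vcDim
    refine Finset.sup_le fun S hS => card_of_shatters Q S (mem_shatterer.1 hS)
  refine Finset.sum_le_sum_of_subset ?_
  intro k hk
  simp only [mem_Iic, mem_range] at hk ⊢
  omega

open Classical in
/-- The sign vectors of the forms `Q`. -/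
noncomputable def sigs {ι κ : Type} [Fintype ι] [Fintype κ] (Q : κ → (ι → ℝ) × ℝ) :
    Finset (κ → SignType) :=
  univ.filter fun s => ∃ y : ι → ℝ, ∀ l, s l = SignType.sign (ev (Q l) y)

/-- Number of sign vectors of `D` forms in `N` variables. -/
def patBound (N D : ℕ) : ℕ := ∑ k ∈ range (N + 1), (2 * D).choose k

theorem card_sigs_le {ι κ : Type} [Fintype ι] [Fintype κ] (Q : κ → (ι → ℝ) × ℝ) :
    (sigs Q).card ≤ patBound (Fintype.card ι) (Fintype.card κ) := by
  classical
  let Q' : κ ⊕ κ → (ι → ℝ) × ℝ := Sum.elim Q (fun l => (-(Q l).1, -(Q l).2))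
  have hev : ∀ l y, ev (Q' (Sum.inr l)) y = - ev (Q l) y := by
    intro l y
    simp only [Q', Sum.elim_inr, ev, Pi.neg_apply, neg_mul, Finset.sum_neg_distrib]
    ring
  have hmap : (sigs Q).card ≤ (pats Q').card := by
    refine Finset.card_le_card_of_injOn
      (fun s => (univ : Finset (κ ⊕ κ)).filter fun a =>
        Sum.elim (fun l => s l = 1) (fun l => s l = -1) a) ?_ ?_
    · intro s hs
      simp only [sigs, coe_filter, mem_univ, true_and, Set.mem_ofPred_eq] at hs
      obtain ⟨y, hy⟩ := hs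
      simp only [pats, coe_filter, mem_univ, true_and, Set.mem_ofPred_eq, mem_filter]
      refine ⟨y, ?_⟩
      rintro (l | l)
      · simp only [Sum.elim_inl, Q', hy l, sign_eq_one_iff]
      · rw [hev]
        simp only [Sum.elim_inr, hy l, sign_eq_neg_one_iff, Left.neg_pos_iff]
    · intro s _ s' _ h
      funext l
      have h1 : (s l = 1 ↔ s' l = 1) := by
        have := Finset.ext_iff.1 h (Sum.inl l)
        simpa using this
      have h2 : (s l = -1 ↔ s' l = -1) := by
        have := Finset.ext_iff.1 h (Sum.inr l)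
        simpa using this
      revert h1 h2
      generalize s l = u
      generalize s' l = v
      revert u v
      decide
  refine hmap.trans ((card_pats_le Q').trans ?_)
  rw [Fintype.card_sum, ← two_mul]
  exact le_rfl

/-- `sum_(k <= N) C(n,k) <= (e n / N)^N` for `1 <= N <= n`. -/
theorem sum_choose_le (N n : ℕ) (hN : 1 ≤ N) (hn : N ≤ n) :
    ((∑ k ∈ range (N + 1), n.choose k : ℕ) : ℝ) ≤ (Real.exp 1 * n / N) ^ N := by
  have hN0 : (0 : ℝ) < N := by exact_mod_cast hN
  have hn0 : (0 : ℝ) < n := by exact_mod_cast (lt_of_lt_of_le hN hn)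
  set x : ℝ := N / n with hx
  have hx0 : 0 < x := div_pos hN0 hn0
  have hx1 : x ≤ 1 := by
    rw [hx, div_le_one hn0]
    exact_mod_cast hn
  have h1 : ((∑ k ∈ range (N + 1), n.choose k : ℕ) : ℝ) * x ^ N ≤ (1 + x) ^ n := by
    push_cast
    rw [Finset.sum_mul]
    have h2 : ∑ k ∈ range (N + 1), (n.choose k : ℝ) * x ^ N ≤
        ∑ k ∈ range (N + 1), (n.choose k : ℝ) * x ^ k := by
      refine Finset.sum_le_sum fun k hk => ?_
      refine mul_le_mul_of_nonneg_left ?_ (Nat.cast_nonneg _)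
      refine pow_le_pow_of_le_one hx0.le hx1 ?_
      rw [mem_range] at hk
      omega
    have h3 : ∑ k ∈ range (N + 1), (n.choose k : ℝ) * x ^ k ≤
        ∑ k ∈ range (n + 1), (n.choose k : ℝ) * x ^ k := by
      refine Finset.sum_le_sum_of_subset_of_nonneg ?_ ?_
      · intro k hk
        rw [mem_range] at hk ⊢
        omega
      · intro k _ _
        positivity
    have h4 : ∑ k ∈ range (n + 1), (n.choose k : ℝ) * x ^ k = (1 + x) ^ n := by
      rw [add_comm 1 x, add_pow]
      refine Finset.sum_congr rfl fun k _ => ?_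
      rw [one_pow]
      ring
    linarith
  have h5 : (1 + x) ^ n ≤ Real.exp N := by
    have h6 : 1 + x ≤ Real.exp x := by
      have := Real.add_one_le_exp x
      linarith
    calc (1 + x) ^ n ≤ (Real.exp x) ^ n := pow_le_pow_left₀ (by positivity) h6 n
      _ = Real.exp (n * x) := by rw [← Real.exp_nat_mul]
      _ = Real.exp N := by
        congr 1
        rw [hx]
        field_simp
  have h7 : (Real.exp 1 * n / N) ^ N = Real.exp N / x ^ N := by
    rw [hx, div_pow, div_pow, mul_pow, ← Real.exp_nat_mul, mul_one]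
    field_simp
  rw [h7, le_div_iff₀ (pow_pos hx0 N)]
  exact h1.trans h5

end Pool.Agent.Helper14.RR
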