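import Pool.Agent.Helper14.RR.Section
import Pool.Agent.Helper14.RR.Shatter

set_option autoImplicit false

/-!
Query strategies with rounds: number of transcripts, convexity of the cells, restriction to a
hyperplane `y i = x`.
-/

namespace Pool.Agent.Helper14.RR

open MeasureTheory Set

/-- Affine forms in the variables `ι`. -/
abbrev Form (ι : Type) := (ι → ℝ) × ℝ

/-- A query strategy: the affine forms (indexed by `κ`) of the next round as a function of the
answers of the earlier rounds. -/
abbrev Tree (ι κ : Type) := List (κ → SignType) → κ → Form ι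

/-- The signs of the forms `Q` at `y`. -/
noncomputable def ans {ι κ : Type} [Fintype ι] (Q : κ → Form ι) (y : ι → ℝ) : κ → SignType :=
  fun l => SignType.sign (ev (Q l) y)

/-- The answers of the first `t` rounds. -/
noncomputable def run {ι κ : Type} [Fintype ι] (T : Tree ι κ) (y : ι → ℝ) :
    ℕ → List (κ → SignType)
  | 0 => []
  | t + 1 => run T y t ++ [ans (T (run T y t)) y]

theorem length_run {ι κ : Type} [Fintype ι] (T : Tree ι κ) (y : ι → ℝ) (t : ℕ) :
    (run T y t).length = t := by
  induction t with
  | zero => rfl
  | succ t ih => simp [run, ih]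

open Classical in
/-- The possible transcripts. -/
noncomputable def trans {ι κ : Type} [Fintype ι] [Fintype κ] (T : Tree ι κ) :
    ℕ → Finset (List (κ → SignType))
  | 0 => {[]}
  | t + 1 => (trans T t).biUnion fun h => (sigs (T h)).image fun s => h ++ [s]

theorem run_mem_trans {ι κ : Type} [Fintype ι] [Fintype κ] (T : Tree ι κ) (y : ι → ℝ) (t : ℕ) :
    run T y t ∈ trans T t := by
  classical
  induction t with
  | zero => simp [run, trans]
  | succ t ih =>
    simp only [run, trans, Finset.mem_biUnion, Finset.mem_image]
    refine ⟨run T y t, ih, ans (T (run T y t)) y, ?_, rfl⟩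
    rw [sigs, Finset.mem_filter]
    exact ⟨Finset.mem_univ _, y, fun l => rfl⟩

theorem card_trans_le {ι κ : Type} [Fintype ι] [Fintype κ] (T : Tree ι κ) (t : ℕ) :
    (trans T t).card ≤ patBound (Fintype.card ι) (Fintype.card κ) ^ t := by
  classical
  induction t with
  | zero => simp [trans]
  | succ t ih =>
    simp only [trans]
    calc ((trans T t).biUnion fun h => (sigs (T h)).image fun s => h ++ [s]).card
        ≤ ∑ h ∈ trans T t, ((sigs (T h)).image fun s => h ++ [s]).card := Finset.card_biUnion_le
      _ ≤ ∑ h ∈ trans T t, patBound (Fintype.card ι) (Fintype.card κ) := by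
          refine Finset.sum_le_sum fun h _ => ?_
          exact Finset.card_image_le.trans (card_sigs_le (T h))
      _ = (trans T t).card * patBound (Fintype.card ι) (Fintype.card κ) := by
          rw [Finset.sum_const, smul_eq_mul]
      _ ≤ patBound (Fintype.card ι) (Fintype.card κ) ^ t *
          patBound (Fintype.card ι) (Fintype.card κ) := Nat.mul_le_mul_right _ ih
      _ = patBound (Fintype.card ι) (Fintype.card κ) ^ (t + 1) := (pow_succ _ _).symm

theorem ev_comb {ι : Type} [Fintype ι] (q : Form ι) (a b : ℝ) (hab : a + b = 1)
    (x y : ι → ℝ) : ev q (a • x + b • y) = a * ev q x + b * ev q y := by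
  have h : ∑ i, q.1 i * (a • x + b • y) i = a * ∑ i, q.1 i * x i + b * ∑ i, q.1 i * y i := by
    rw [Finset.mul_sum, Finset.mul_sum, ← Finset.sum_add_distrib]
    refine Finset.sum_congr rfl fun i _ => ?_
    simp only [Pi.add_apply, Pi.smul_apply, smul_eq_mul]
    ring
  have h2 : q.2 = a * q.2 + b * q.2 := by rw [← add_mul, hab, one_mul]
  unfold ev
  rw [h]
  linear_combination h2

theorem sign_comb (a b u v : ℝ) (ha : 0 ≤ a) (hb : 0 ≤ b) (hab : a + b = 1)
    (h : SignType.sign u = SignType.sign v) : SignType.sign (a * u + b * v) = SignType.sign u := by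
  rcases ha.eq_or_lt with h0 | ha'
  · have : b = 1 := by linarith
    rw [← h0, this, zero_mul, zero_add, one_mul, h]
  rcases lt_trichotomy u 0 with hu | hu | hu
  · have hs : SignType.sign v = -1 := by rw [← h, sign_neg hu]
    have hv : v < 0 := sign_eq_neg_one_iff.1 hs
    rw [sign_neg hu]
    apply sign_neg
    have h1 := mul_neg_of_pos_of_neg ha' hu
    have h2 := mul_nonpos_of_nonneg_of_nonpos hb hv.le
    linarith
  · have hs : SignType.sign v = 0 := by rw [← h, hu, sign_zero]
    have hv : v = 0 := sign_eq_zero_iff.1 hs
    rw [hu, hv, mul_zero, mul_zero, add_zero]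
  · have hs : SignType.sign v = 1 := by rw [← h, sign_pos hu]
    have hv : 0 < v := sign_eq_one_iff.1 hs
    rw [sign_pos hu]
    apply sign_pos
    have h1 := mul_pos ha' hu
    have h2 := mul_nonneg hb hv.le
    linarith

theorem run_comb {ι κ : Type} [Fintype ι] (T : Tree ι κ) (a b : ℝ) (ha : 0 ≤ a) (hb : 0 ≤ b)
    (hab : a + b = 1) (x y : ι → ℝ) (t : ℕ) (h : run T x t = run T y t) :
    run T (a • x + b • y) t = run T x t := by
  induction t with
  | zero => rfl
  | succ t ih =>
    simp only [run] at h ⊢
    have hlen : (run T x t).length = (run T y t).length := by rw [length_run, length_run]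
    obtain ⟨h1, h2⟩ := List.append_inj h hlen
    have h3 := ih h1
    rw [h3]
    congr 2
    funext l
    have h4 : ans (T (run T x t)) x = ans (T (run T y t)) y := by simpa using h2
    rw [← h1] at h4
    have h5 := congrFun h4 l
    simp only [ans] at h5 ⊢
    rw [ev_comb _ a b hab]
    exact sign_comb a b _ _ ha hb hab h5

theorem convex_cell {ι κ : Type} [Fintype ι] (T : Tree ι κ) (t : ℕ)
    (τ : List (κ → SignType)) : Convex ℝ {y : ι → ℝ | run T y t = τ} := by
  intro x hx y hy a b ha hb hab
  simp only [mem_ofPred_eq] at hx hy ⊢
  rw [run_comb T a b ha hb hab x y t (hx.trans hy.symm), hx]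

theorem measurable_ev {ι : Type} [Fintype ι] (q : Form ι) : Measurable fun y => ev q y := by
  unfold ev
  fun_prop

theorem measurableSet_sign {ι : Type} [Fintype ι] (q : Form ι) (s : SignType) :
    MeasurableSet {y : ι → ℝ | SignType.sign (ev q y) = s} := by
  have h := measurable_ev q
  rcases s with _ | _ | _
  · have : {y : ι → ℝ | SignType.sign (ev q y) = SignType.zero} = {y | ev q y = 0} := by
      ext y
      exact sign_eq_zero_iff
    rw [this]
    exact measurableSet_eq_fun h measurable_const
  · have : {y : ι → ℝ | SignType.sign (ev q y) = SignType.neg} = {y | ev q y < 0} := by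
      ext y
      exact sign_eq_neg_one_iff
    rw [this]
    exact measurableSet_lt h measurable_const
  · have : {y : ι → ℝ | SignType.sign (ev q y) = SignType.pos} = {y | 0 < ev q y} := by
      ext y
      exact sign_eq_one_iff
    rw [this]
    exact measurableSet_lt measurable_const h

theorem measurableSet_cell {ι κ : Type} [Fintype ι] [Fintype κ] (T : Tree ι κ) (t : ℕ)
    (τ : List (κ → SignType)) : MeasurableSet {y : ι → ℝ | run T y t = τ} := by
  induction t generalizing τ with
  | zero =>
    by_cases h : ([] : List (κ → SignType)) = τ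
    · have : {y : ι → ℝ | run T y 0 = τ} = univ := by
        ext y
        simp [run, h]
      rw [this]
      exact MeasurableSet.univ
    · have : {y : ι → ℝ | run T y 0 = τ} = ∅ := by
        ext y
        simp [run, h]
      rw [this]
      exact MeasurableSet.empty
  | succ t ih =>
    rcases List.eq_nil_or_concat τ with h | ⟨h, s, hs⟩
    · have : {y : ι → ℝ | run T y (t + 1) = τ} = ∅ := by
        ext y
        simp [run, h]
      rw [this]
      exact MeasurableSet.empty
    · have hs' : τ = h ++ [s] := by rw [hs]; try rw [List.concat_eq_append]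
      have : {y : ι → ℝ | run T y (t + 1) = τ} =
          {y | run T y t = h} ∩ ⋂ l, {y | SignType.sign (ev (T h l) y) = s l} := by
        ext y
        simp only [mem_ofPred_eq, mem_inter_iff, mem_iInter, run, hs']
        constructor
        · intro hy
          have h1 := List.append_inj' hy rfl
          refine ⟨h1.1, fun l => ?_⟩
          have h2 : ans (T (run T y t)) y = s := by simpa using h1.2
          rw [h1.1] at h2
          exact congrFun h2 l
        · rintro ⟨h1, h2⟩
          rw [h1]
          congr 2
          funext l
          exact h2 l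
      rw [this]
      exact (ih h).inter (MeasurableSet.iInter fun l => measurableSet_sign _ _)

/-- The strategy on the hyperplane `y i = x`. -/
def restr {n : ℕ} {κ : Type} (i : Fin (n + 1)) (x : ℝ) (T : Tree (Fin (n + 1)) κ) :
    Tree (Fin n) κ :=
  fun h l => (fun j => (T h l).1 (i.succAbove j), (T h l).2 + (T h l).1 i * x)

theorem ev_restr {n : ℕ} {κ : Type} (i : Fin (n + 1)) (x : ℝ) (T : Tree (Fin (n + 1)) κ)
    (h : List (κ → SignType)) (l : κ) (z : Fin n → ℝ) :
    ev (restr i x T h l) z = ev (T h l) (ins i x z) := by
  unfold ev restr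
  rw [Fin.sum_univ_succAbove _ i]
  simp only [ins_same, ins_succAbove]
  ring

theorem run_restr {n : ℕ} {κ : Type} (i : Fin (n + 1)) (x : ℝ) (T : Tree (Fin (n + 1)) κ)
    (z : Fin n → ℝ) (t : ℕ) : run (restr i x T) z t = run T (ins i x z) t := by
  induction t with
  | zero => rfl
  | succ t ih =>
    simp only [run]
    rw [ih]
    congr 2
    funext l
    simp only [ans]
    rw [ev_restr]

end Pool.Agent.Helper14.RR
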